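import Pool.Agent.MP_2ab689_gt.Bridge

-- ======== part 0: formerly Pool.Agent.MP_2ab689_gt.Band10
section MrgPart0

/-!
The exact bound for the combinatorial type of the gyroelongated square bipyramid.
-/

namespace Pool.Agent.MP_2ab689_gt

/-- The basic nonnegative form. -/
def row (n u v : V) : ℝ := ip u u + ip v v - 2 * det3 n u v

theorem row_nonneg {n : V} (hn : ip n n = 1) (u v : V) : 0 ≤ row n u v := by
  have := det_le 1 n u v
  rw [hn] at this
  unfold row; linarith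

theorem row_eq {n u v : V} (hn : ip n n = 1) (h : row n u v ≤ 0) : u = crs v n ∧ ip v n = 0 := by
  have := det_eq (x := 1) (n := n) (u := u) (v := v) (by rw [hn]; unfold row at h; linarith)
  rwa [one_smul] at this

/-- A reflection symmetric form centred at `d i`. -/
def rw8 (x0 x1 x2 x3 x4 y1 y2 y3 : ℝ) (d : Fin 8 → V) (i : Fin 8) : ℝ :=
  row (d i) (x0 • d i + x1 • (d (i + 1) + d (i + 7)) + x2 • (d (i + 2) + d (i + 6)) +
      x3 • (d (i + 3) + d (i + 5)) + x4 • d (i + 4))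
    (y1 • (d (i + 1) - d (i + 7)) + y2 • (d (i + 2) - d (i + 6)) + y3 • (d (i + 3) - d (i + 5)))

theorem rw8_sum (x0 x1 x2 x3 x4 y1 y2 y3 : ℝ) (d : Fin 8 → V) :
    ∑ i, rw8 x0 x1 x2 x3 x4 y1 y2 y3 d i =
      (x0 ^ 2 + 2 * x1 ^ 2 + 2 * x2 ^ 2 + 2 * x3 ^ 2 + x4 ^ 2 + 2 * y1 ^ 2 + 2 * y2 ^ 2 + 2 * y3 ^ 2) *
        (∑ i, ip (d i) (d i)) +
      (4 * x0 * x1 + 4 * x1 * x2 + 4 * x2 * x3 + 4 * x3 * x4 + 4 * y1 * y2 + 4 * y2 * y3) *
        (∑ i, ip (d i) (d (i + 1))) +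
      (4 * x0 * x2 + 2 * x1 ^ 2 + 4 * x1 * x3 + 4 * x2 * x4 + 2 * x3 ^ 2 - 2 * y1 ^ 2 + 4 * y1 * y3 - 2 * y3 ^ 2) *
        (∑ i, ip (d i) (d (i + 2))) +
      (4 * x0 * x3 + 4 * x1 * x2 + 4 * x1 * x4 + 4 * x2 * x3 - 4 * y1 * y2 - 4 * y2 * y3) *
        (∑ i, ip (d i) (d (i + 3))) +
      (2 * x0 * x4 + 4 * x1 * x3 + 2 * x2 ^ 2 - 4 * y1 * y3 - 2 * y2 ^ 2) *
        (∑ i, ip (d i) (d (i + 4))) +
      (4 * x1 * y1 - 4 * x1 * y2 + 4 * x2 * y1) *
        (∑ i, det3 (d i) (d (i + 1)) (d (i + 2))) +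
      (2 * x1 * y2 - 2 * x1 * y3 + 2 * x2 * y1 - 2 * x2 * y3 + 2 * x3 * y1 + 2 * x3 * y2) *
        (∑ i, det3 (d i) (d (i + 1)) (d (i + 3))) +
      (2 * x1 * y3 + 2 * x3 * y1 + 2 * x4 * y1 + 2 * x4 * y3) *
        (∑ i, det3 (d i) (d (i + 1)) (d (i + 4))) +
      (2 * x1 * y3 + 2 * x3 * y1 + 2 * x4 * y1 + 2 * x4 * y3) *
        (∑ i, det3 (d i) (d (i + 1)) (d (i + 5))) +
      (2 * x1 * y2 - 2 * x1 * y3 + 2 * x2 * y1 - 2 * x2 * y3 + 2 * x3 * y1 + 2 * x3 * y2) *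
        (∑ i, det3 (d i) (d (i + 1)) (d (i + 6))) +
      (4 * x2 * y2 + 4 * x4 * y2) *
        (∑ i, det3 (d i) (d (i + 2)) (d (i + 4))) +
      (4 * x2 * y3 + 4 * x3 * y2 + 4 * x3 * y3) *
        (∑ i, det3 (d i) (d (i + 2)) (d (i + 5))) := by
  simp only [Fin.sum_univ_eight, rw8, row, ip, det3, Pi.add_apply, Pi.sub_apply, Pi.smul_apply,
    smul_eq_mul, Fin.reduceAdd, Fin.isValue]
  ring

section
variable {q h : ℝ}

/-- A weight of the certificate. -/
noncomputable def lam0 (q h : ℝ) : ℝ :=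
  599846251141233 / 21665040263809984 - 460342955920143 / 21665040263809984 * h
    - 990150366322761 / 43330080527619968 * h * q + 84004748378989 / 43330080527619968 * q

/-- A weight of the certificate. -/
noncomputable def lam1 (q h : ℝ) : ℝ :=
  53205878019203 / 2708130032976248 - 30883968496779 / 2708130032976248 * h
    - 23061982705935 / 2708130032976248 * h * q - 17044252545279 / 2708130032976248 * q

/-- A weight of the certificate. -/
noncomputable def lam2 (q h : ℝ) : ℝ :=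
  -573662659482641 / 10832520131904992 + 589193384543233 / 10832520131904992 * h
    + 609922570636255 / 10832520131904992 * h * q - 14356222376349 / 10832520131904992 * q

/-- A weight of the certificate. -/
noncomputable def lam3 (q h : ℝ) : ℝ :=
  -104483229543853 / 5416260065952496 + 60321221754733 / 2708130032976248 * h
    + 133824684353875 / 10832520131904992 * h * q + 38040124625153 / 10832520131904992 * q

/-- A weight of the certificate. -/
noncomputable def lam4 (q h : ℝ) : ℝ :=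
  240348936133131 / 10832520131904992 - 22209909558489 / 10832520131904992 * h
    + 9907028987985 / 10832520131904992 * h * q - 100086316739437 / 10832520131904992 * q

/-- A weight of the certificate. -/
noncomputable def lam5 (q h : ℝ) : ℝ :=
  92381738505241 / 21665040263809984 - 154413609989235 / 21665040263809984 * h
    - 144544318566375 / 43330080527619968 * h * q + 290583290146763 / 43330080527619968 * q

/-- A weight of the certificate. -/
noncomputable def lam6 (q h : ℝ) : ℝ :=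
  69277135632813 / 5416260065952496 - 95056306892247 / 2708130032976248 * h
    - 27860885690889 / 677032508244062 * h * q + 124917951275375 / 5416260065952496 * q

/-- A weight of the certificate. -/
noncomputable def lam7 (q h : ℝ) : ℝ :=
  -102591784558479 / 5416260065952496 + 56218355952407 / 2708130032976248 * h
    + 9028389369187 / 338516254122031 * h * q - 23053121194753 / 5416260065952496 * q

theorem band_id (hq : q ^ 2 = 2) (hh : h ^ 2 = 1 / 3 - 2 / 3 * (q - 1) * h) (d : Fin 8 → V) :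
    (8 * (1 + q) * h * (1 - h ^ 2) + 4 * (1 - h ^ 2) - 4 * h ^ 2) / 8 * (∑ i, ip (d i) (d i)) +
      1 / 2 * (∑ i, ip (d i) (d (i + 4))) + (∑ i, det3 (d i) (d (i + 1)) (d (i + 2))) =
    lam0 q h * ∑ i, rw8 (-10 + 2 * h + 4 * q) (2) (2) (2) (-10 + 6 * h + 4 * q) (1) (-2 + q) (1) d i +
    lam1 q h * ∑ i, rw8 (-8 + 2 * h + 4 * q) (1) (2) (1) (-8 + 6 * h + 4 * q) (2) (-2 + q) (0) d i +
    lam2 q h * ∑ i, rw8 (-8 + 2 * h + 4 * q) (1) (2) (1) (-8 + 6 * h + 4 * q) (1) (-2 + q) (1) d i +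
    lam3 q h * ∑ i, rw8 (-9 + 2 * h + 4 * q) (2) (1) (2) (-9 + 6 * h + 4 * q) (2) (-2 + q) (0) d i +
    lam4 q h * ∑ i, rw8 (-7 + 2 * h + 5 * q) (2) (1) (0) (-7 + 6 * h + 3 * q) (2) (-2 + q) (0) d i +
    lam5 q h * ∑ i, rw8 (-8 + 2 * h + 5 * q) (3) (0) (1) (-8 + 6 * h + 3 * q) (2) (-2) (-2) d i +
    lam6 q h * ∑ i, rw8 (-4 + h + 2 * q) (0) (2) (0) (-4 + 3 * h + 2 * q) (1) (-1 + q) (1) d i +
    lam7 q h * (∑ i, rw8 (-1) (0) (1) (0) (-1) (0) (0) (0) d i +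
      ∑ i, rw8 (-2) (1) (0) (1) (-2) (0) (0) (0) d i +
      ∑ i, rw8 (-q) (-1) (0) (1) (q) (0) (0) (0) d i +
      ∑ i, rw8 (0) (0) (0) (0) (0) (1) (0) (-1) d i +
      ∑ i, rw8 (0) (0) (0) (0) (0) (1) (q) (1) d i +
      ∑ i, rw8 (2 - h - 2 * q) (0) (0) (0) (2 - 3 * h - 2 * q) (0) (1) (0) d i) := by
  simp only [rw8_sum, lam0, lam1, lam2, lam3, lam4, lam5, lam6, lam7]
  generalize (∑ i, ip (d i) (d i)) = g0
  generalize (∑ i, ip (d i) (d (i + 1))) = g1
  generalize (∑ i, ip (d i) (d (i + 2))) = g2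
  generalize (∑ i, ip (d i) (d (i + 3))) = g3
  generalize (∑ i, ip (d i) (d (i + 4))) = g4
  generalize (∑ i, det3 (d i) (d (i + 1)) (d (i + 2))) = e0
  generalize (∑ i, det3 (d i) (d (i + 1)) (d (i + 3))) = e1
  generalize (∑ i, det3 (d i) (d (i + 1)) (d (i + 4))) = e2
  generalize (∑ i, det3 (d i) (d (i + 1)) (d (i + 5))) = e3
  generalize (∑ i, det3 (d i) (d (i + 1)) (d (i + 6))) = e4
  generalize (∑ i, det3 (d i) (d (i + 2)) (d (i + 4))) = e5
  generalize (∑ i, det3 (d i) (d (i + 2)) (d (i + 5))) = e6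
  linear_combination (-(329246485193077 / 5416260065952496 * e0 - 620125766669709 / 5416260065952496 * e0 * h
    - 129073851714203 / 5416260065952496 * e1 + 600311708693739 / 5416260065952496 * e1 * h
    + 52722585766465 / 1354065016488124 * e2 - 9907028987985 / 2708130032976248 * e2 * h
    + 52722585766465 / 1354065016488124 * e3 - 9907028987985 / 2708130032976248 * e3 * h
    - 129073851714203 / 5416260065952496 * e4 + 600311708693739 / 5416260065952496 * e4 * h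
    + 184711393923667 / 1354065016488124 * e5 - 155630404563057 / 677032508244062 * e5 * h
    - 9907028987985 / 2708130032976248 * e5 * h * q + 52722585766465 / 1354065016488124 * e5 * q
    + 71098781764671 / 5416260065952496 * e6 + 580497650717769 / 5416260065952496 * e6 * h
    - 1338545769276473 / 8124390098928744 * g0 - 8829255054797569 / 8124390098928744 * g0 * h
    + 6090867552578791 / 8124390098928744 * g0 * h * q
    + 3302342995995 / 2708130032976248 * g0 * q + 164811781428555 / 677032508244062 * g1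
    + 788555318707251 / 1354065016488124 * g1 * h + 129451239022061 / 677032508244062 * g2
    + 158821092500857 / 677032508244062 * g2 * h + 158207095436565 / 677032508244062 * g3
    - 180865465204099 / 1354065016488124 * g3 * h + 441721481527599 / 2708130032976248 * g4
    - 712999080728041 / 2708130032976248 * g4 * h
    - 224869162208765 / 2708130032976248 * g4 * h * q
    - 3302342995995 / 2708130032976248 * g4 * q)) * hq +
    (-(1586690377631967 / 2708130032976248 * e2 + 2291780112558873 / 5416260065952496 * e2 * q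
    + 1586690377631967 / 2708130032976248 * e3 + 2291780112558873 / 5416260065952496 * e3 * q
    - 3 / 2 * e5 - 2475504671832405 / 2708130032976248 * e5 * q
    + 2291780112558873 / 5416260065952496 * e5 * q ^ 2 - 593827179213743 / 677032508244062 * g0
    + 9 / 4 * g0 * h + 9 / 4 * g0 * h * q - 2577162686408385 / 2708130032976248 * g0 * q
    + 2813046235590683 / 5416260065952496 * g0 * q ^ 2
    + 1443876665610669 / 1354065016488124 * g1 + 1927985763123891 / 2708130032976248 * g1 * q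
    + 309821815083546 / 338516254122031 * g2 + 476463277502571 / 677032508244062 * g2 * q
    + 1046209807398243 / 1354065016488124 * g3 + 1718153357895021 / 2708130032976248 * g3 * q
    - 1947892195701867 / 677032508244062 * g4 + 3 / 4 * g4 * h + 3 / 4 * g4 * h * q
    - 2974829544620811 / 2708130032976248 * g4 * q
    + 8019473896314309 / 5416260065952496 * g4 * q ^ 2)) * hh

theorem lam_pos (hq : q ^ 2 = 2) (hh : h ^ 2 = 1 / 3 - 2 / 3 * (q - 1) * h) (q0 : 0 < q)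
    (h0 : 0 < h) : 0 < lam0 q h ∧ 0 < lam1 q h ∧ 0 < lam2 q h ∧ 0 < lam3 q h ∧ 0 < lam4 q h ∧ 0 < lam5 q h ∧ 0 < lam6 q h ∧ 0 < lam7 q h := by
  have q1 : 1.414213 < q := by nlinarith
  have q2 : q < 1.414214 := by nlinarith
  have h1 : 0.45555 < h := by nlinarith
  have h2 : h < 0.45557 := by nlinarith
  have m1 : 0.64424 < h * q := by nlinarith
  have m2 : h * q < 0.64428 := by nlinarith
  refine ⟨?_, ?_, ?_, ?_, ?_, ?_, ?_, ?_⟩
  · unfold lam0; linarith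
  · unfold lam1; linarith
  · unfold lam2; linarith
  · unfold lam3; linarith
  · unfold lam4; linarith
  · unfold lam5; linarith
  · unfold lam6; linarith
  · unfold lam7; linarith

end

end Pool.Agent.MP_2ab689_gt

end MrgPart0

-- ======== part 1: formerly Pool.Agent.MP_2ab689_gt.Opt10
section MrgPart1

/-!
Bound and equality case for the gyroelongated square bipyramid.
-/

namespace Pool.Agent.MP_2ab689_gt

section
variable {q h : ℝ}

theorem rw8_nonneg {d : Fin 8 → V} (hd : ∀ i, ip (d i) (d i) = 1) (x0 x1 x2 x3 x4 y1 y2 y3 : ℝ) :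
    0 ≤ ∑ i, rw8 x0 x1 x2 x3 x4 y1 y2 y3 d i :=
  Finset.sum_nonneg fun i _ => row_nonneg (hd i) _ _

theorem band_le (hq : q ^ 2 = 2) (hh : h ^ 2 = 1 / 3 - 2 / 3 * (q - 1) * h) (q0 : 0 < q)
    (h0 : 0 < h) {d : Fin 8 → V} (hd : ∀ i, ip (d i) (d i) = 1) : ∃ s : ℝ, 0 ≤ s ∧
    8 * (1 + q) * h * (1 - h ^ 2) + 4 * (1 - h ^ 2) - 4 * h ^ 2 +
      1 / 2 * (∑ i, ip (d i) (d (i + 4))) + (∑ i, det3 (d i) (d (i + 1)) (d (i + 2))) = s ∧
    (s ≤ 0 → ∀ i, rw8 (-1) 0 1 0 (-1) 0 0 0 d i ≤ 0 ∧ rw8 (-2) 1 0 1 (-2) 0 0 0 d i ≤ 0 ∧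
      rw8 (-q) (-1) 0 1 q 0 0 0 d i ≤ 0 ∧
      rw8 (2 - h - 2 * q) 0 0 0 (2 - 3 * h - 2 * q) 0 1 0 d i ≤ 0) := by
  have e := band_id hq hh d
  obtain ⟨l0, l1, l2, l3, l4, l5, l6, l7⟩ := lam_pos hq hh q0 h0
  have e8 : ∑ i, ip (d i) (d i) = 8 := by simp [hd]
  rw [e8, div_mul_cancel₀ _ (by norm_num)] at e
  have a0 := mul_nonneg l0.le (rw8_nonneg hd (-10 + 2 * h + 4 * q) (2) (2) (2) (-10 + 6 * h + 4 * q) (1) (-2 + q) (1))
  have a1 := mul_nonneg l1.le (rw8_nonneg hd (-8 + 2 * h + 4 * q) (1) (2) (1) (-8 + 6 * h + 4 * q) (2) (-2 + q) (0))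
  have a2 := mul_nonneg l2.le (rw8_nonneg hd (-8 + 2 * h + 4 * q) (1) (2) (1) (-8 + 6 * h + 4 * q) (1) (-2 + q) (1))
  have a3 := mul_nonneg l3.le (rw8_nonneg hd (-9 + 2 * h + 4 * q) (2) (1) (2) (-9 + 6 * h + 4 * q) (2) (-2 + q) (0))
  have a4 := mul_nonneg l4.le (rw8_nonneg hd (-7 + 2 * h + 5 * q) (2) (1) (0) (-7 + 6 * h + 3 * q) (2) (-2 + q) (0))
  have a5 := mul_nonneg l5.le (rw8_nonneg hd (-8 + 2 * h + 5 * q) (3) (0) (1) (-8 + 6 * h + 3 * q) (2) (-2) (-2))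
  have a6 := mul_nonneg l6.le (rw8_nonneg hd (-4 + h + 2 * q) (0) (2) (0) (-4 + 3 * h + 2 * q) (1) (-1 + q) (1))
  have b0 := rw8_nonneg hd (-1) (0) (1) (0) (-1) (0) (0) (0)
  have b1 := rw8_nonneg hd (-2) (1) (0) (1) (-2) (0) (0) (0)
  have b2 := rw8_nonneg hd (-q) (-1) (0) (1) (q) (0) (0) (0)
  have b3 := rw8_nonneg hd (0) (0) (0) (0) (0) (1) (0) (-1)
  have b4 := rw8_nonneg hd (0) (0) (0) (0) (0) (1) (q) (1)
  have b5 := rw8_nonneg hd (2 - h - 2 * q) (0) (0) (0) (2 - 3 * h - 2 * q) (0) (1) (0)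
  have c := mul_nonneg l7.le (add_nonneg (add_nonneg (add_nonneg (add_nonneg
    (add_nonneg b0 b1) b2) b3) b4) b5)
  refine ⟨_, by linarith, rfl, fun hs i => ?_⟩
  have c' := nonpos_of_mul_nonpos_right (le_of_eq (le_antisymm (by linarith) c)) l7
  have k : ∀ x0 x1 x2 x3 x4 y1 y2 y3 : ℝ, ∑ i, rw8 x0 x1 x2 x3 x4 y1 y2 y3 d i ≤ 0 →
      rw8 x0 x1 x2 x3 x4 y1 y2 y3 d i ≤ 0 := fun x0 x1 x2 x3 x4 y1 y2 y3 hh =>
    (Finset.single_le_sum (f := fun i => rw8 x0 x1 x2 x3 x4 y1 y2 y3 d i)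
      (fun j _ => row_nonneg (hd j) _ _) (Finset.mem_univ i)).trans hh
  exact ⟨k _ _ _ _ _ _ _ _ (by linarith), k _ _ _ _ _ _ _ _ (by linarith),
    k _ _ _ _ _ _ _ _ (by linarith), k _ _ _ _ _ _ _ _ (by linarith)⟩

/-- Six times the volume of a gyroelongated square bipyramid. -/
def phi10 (P : ℕ → V) : ℝ :=
  det3 (P 8) (P 0) (P 1) + det3 (P 9) (P 5) (P 4) +
  det3 (P 1) (P 0) (P 4) + det3 (P 1) (P 4) (P 5) +
  det3 (P 8) (P 1) (P 2) + det3 (P 9) (P 6) (P 5) +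
  det3 (P 2) (P 1) (P 5) + det3 (P 2) (P 5) (P 6) +
  det3 (P 8) (P 2) (P 3) + det3 (P 9) (P 7) (P 6) +
  det3 (P 3) (P 2) (P 6) + det3 (P 3) (P 6) (P 7) +
  det3 (P 8) (P 3) (P 0) + det3 (P 9) (P 4) (P 7) +
  det3 (P 0) (P 3) (P 7) + det3 (P 0) (P 7) (P 4)

/-- The star-ordered equatorial band. -/
def band (P : ℕ → V) : Fin 8 → V := ![P 0, -P 4, P 1, -P 5, P 2, -P 6, P 3, -P 7]

theorem phi10_id {P : ℕ → V} (hP : ∀ i, ip (P i) (P i) = 1) :
    phi10 P = 4 - (1 / 2 * (∑ i, ip (band P i) (band P (i + 4))) +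
      (∑ i, det3 (band P i) (band P (i + 1)) (band P (i + 2)))) -
      row (P 8) (P 0 - P 2) (P 1 - P 3) / 2 - row (P 9) (P 7 - P 5) (P 6 - P 4) / 2 := by
  have h0 := hP 0
  have h1 := hP 1
  have h2 := hP 2
  have h3 := hP 3
  have h4 := hP 4
  have h5 := hP 5
  have h6 := hP 6
  have h7 := hP 7
  simp only [Fin.sum_univ_eight, Fin.reduceAdd, Fin.isValue, band, Matrix.cons_val, phi10, row, ip,
    det3, Pi.sub_apply, Pi.neg_apply] at *
  linear_combination (h0 + h1 + h2 + h3 + h4 + h5 + h6 + h7) / 2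

theorem band_unit {P : ℕ → V} (hP : ∀ i, ip (P i) (P i) = 1) (i : Fin 8) :
    ip (band P i) (band P i) = 1 := by
  fin_cases i <;> simp [band, ip_neg, hP]

theorem phi10_le (hq : q ^ 2 = 2) (hh : h ^ 2 = 1 / 3 - 2 / 3 * (q - 1) * h) (q0 : 0 < q)
    (h0 : 0 < h) {P : ℕ → V} (hP : ∀ i, ip (P i) (P i) = 1) :
    phi10 P ≤ 8 * (1 - h ^ 2) * (1 + (1 + q) * h) := by
  obtain ⟨s, s0, e, -⟩ := band_le hq hh q0 h0 (band_unit hP)
  have := phi10_id hP
  have := row_nonneg (hP 8) (P 0 - P 2) (P 1 - P 3)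
  have := row_nonneg (hP 9) (P 7 - P 5) (P 6 - P 4)
  linarith

theorem crs_zero (n : V) : crs 0 n = 0 := by
  funext i; fin_cases i <;> simp [crs]

theorem phi10_eq (hq : q ^ 2 = 2) (hh : h ^ 2 = 1 / 3 - 2 / 3 * (q - 1) * h) (q0 : 0 < q)
    (h0 : 0 < h) {P : ℕ → V} (hP : ∀ i, ip (P i) (P i) = 1)
    (he : 8 * (1 - h ^ 2) * (1 + (1 + q) * h) ≤ phi10 P) : ∃ m A B : V,
    (ip m m = h ^ 2 ∧ ip A A = 1 - h ^ 2 ∧ ip B B = 1 - h ^ 2 ∧ ip A B = 0 ∧ ip B m = 0 ∧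
      ip A m = 0) ∧ P 0 = m + A ∧ P 1 = m + B ∧ P 2 = m - A ∧ P 3 = m - B ∧
    P 4 = (q / 2) • (A + B) - m ∧ P 5 = (q / 2) • (B - A) - m ∧ P 6 = -(q / 2) • (A + B) - m ∧
    P 7 = (q / 2) • (A - B) - m ∧ h • P 8 = m ∧ h • P 9 = -m := by
  obtain ⟨s, s0, e, hs⟩ := band_le hq hh q0 h0 (band_unit hP)
  have e1 := phi10_id hP
  have r8 := row_nonneg (hP 8) (P 0 - P 2) (P 1 - P 3)
  have r9 := row_nonneg (hP 9) (P 7 - P 5) (P 6 - P 4)
  have hs := hs (by linarith)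
  obtain ⟨n8, m8⟩ := row_eq (hP 8) (u := P 0 - P 2) (v := P 1 - P 3) (by linarith)
  obtain ⟨n9, m9⟩ := row_eq (hP 9) (u := P 7 - P 5) (v := P 6 - P 4) (by linarith)
  have a0 := (row_eq (band_unit hP 0) (hs 0).1).1
  have a1 := (row_eq (band_unit hP 1) (hs 1).1).1
  have b0 := (row_eq (band_unit hP 0) (hs 0).2.1).1
  have c0 := (row_eq (band_unit hP 0) (hs 0).2.2.1).1
  have c2 := (row_eq (band_unit hP 2) (hs 2).2.2.1).1
  have d0 := (row_eq (band_unit hP 0) (hs 0).2.2.2).1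
  have d4 := (row_eq (band_unit hP 4) (hs 4).2.2.2).1
  simp only [Fin.reduceAdd, Fin.isValue, band, Matrix.cons_val, zero_smul, add_zero, zero_add,
    crs_zero, one_smul] at a0 a1 b0 c0 c2 d0 d4
  obtain ⟨m, hm⟩ : ∃ m : V, m = (1 / 2 : ℝ) • (P 0 + P 2) := ⟨_, rfl⟩
  obtain ⟨A, hA⟩ : ∃ m : V, m = (1 / 2 : ℝ) • (P 0 - P 2) := ⟨_, rfl⟩
  obtain ⟨B, hB⟩ : ∃ m : V, m = (1 / 2 : ℝ) • (P 1 - P 3) := ⟨_, rfl⟩
  have lin : ∀ j, P 0 j = m j + A j ∧ P 1 j = m j + B j ∧ P 2 j = m j - A j ∧ P 3 j = m j - B j ∧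
      P 4 j = q / 2 * (A j + B j) - m j ∧ P 5 j = q / 2 * (B j - A j) - m j ∧
      P 6 j = -(q / 2) * (A j + B j) - m j ∧ P 7 j = q / 2 * (A j - B j) - m j := by
    intro j
    have a0 := congrFun a0 j
    have a1 := congrFun a1 j
    have b0 := congrFun b0 j
    have c0 := congrFun c0 j
    have c2 := congrFun c2 j
    simp only [hm, hA, hB, Pi.add_apply, Pi.sub_apply, Pi.smul_apply, Pi.neg_apply, smul_eq_mul,
      Pi.zero_apply] at a0 a1 b0 c0 c2 ⊢
    refine ⟨?_, ?_, ?_, ?_, ?_, ?_, ?_, ?_⟩ <;> linarith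
  have p0 : P 0 = m + A := funext fun j => (lin j).1
  have p1 : P 1 = m + B := funext fun j => (lin j).2.1
  have p2 : P 2 = m - A := funext fun j => (lin j).2.2.1
  have p3 : P 3 = m - B := funext fun j => (lin j).2.2.2.1
  have p4 : P 4 = (q / 2) • (A + B) - m := funext fun j => (lin j).2.2.2.2.1
  have p5 : P 5 = (q / 2) • (B - A) - m := funext fun j => (lin j).2.2.2.2.2.1
  have p6 : P 6 = -(q / 2) • (A + B) - m := funext fun j => (lin j).2.2.2.2.2.2.1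
  have p7 : P 7 = (q / 2) • (A - B) - m := funext fun j => (lin j).2.2.2.2.2.2.2
  have u0 := hP 0
  have u1 := hP 1
  have u2 := hP 2
  have u3 := hP 3
  have u4 := hP 4
  rw [p0] at u0
  rw [p1] at u1
  rw [p2] at u2
  rw [p3] at u3
  rw [p4] at u4
  rw [p0, p1, p2, p3] at n8 d0 d4
  rw [p1, p3] at m8
  rw [p4, p5, p6, p7] at n9
  rw [p4, p6] at m9
  clear hm hA hB lin a0 a1 b0 c0 c2 hs e e1 r8 r9
  have x0 := congrFun d0 0
  have x1 := congrFun d0 1
  have x2 := congrFun d0 2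
  have y0 := congrFun d4 0
  have y1 := congrFun d4 1
  have y2 := congrFun d4 2
  have z0 := congrFun n8 0
  have z1 := congrFun n8 1
  have z2 := congrFun n8 2
  have w0 := congrFun n9 0
  have w1 := congrFun n9 1
  have w2 := congrFun n9 2
  simp only [crs, ip, Pi.add_apply, Pi.sub_apply, Pi.smul_apply, smul_eq_mul,
    Matrix.cons_val, Fin.isValue] at x0 x1 x2 y0 y1 y2 z0 z1 z2 w0 w1 w2 u0 u1 u2 u3 u4 m8 m9
  have g1 : ip A m = 0 := by unfold ip; linarith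
  have g2 : ip B m = 0 := by unfold ip; linarith
  have g3 : ip A A = 1 - ip m m := by unfold ip; linarith
  have g4 : ip B B = 1 - ip m m := by unfold ip; linarith
  have g5 : ip A B = 0 := by
    unfold ip at *
    linear_combination u4 + q * g1 + q * g2 - g3 / 2 - g4 / 2 -
      ((A 0 + B 0) ^ 2 + (A 1 + B 1) ^ 2 + (A 2 + B 2) ^ 2) / 4 * hq
  have hi : h * (3 * h + 2 * (q - 1)) = 1 := by linear_combination 3 * hh
  have g6 : ip m m = h ^ 2 := by
    unfold ip at *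
    linear_combination (-(h / 2)) * ((A 0 + m 0) * x0 + (A 1 + m 1) * x1 + (A 2 + m 2) * x2) +
      h ^ 2 * g3 + h * (2 - h - 2 * q) * g1 - (m 0 * m 0 + m 1 * m 1 + m 2 * m 2) * hi
  have h1 : 1 - h ^ 2 ≠ 0 := by
    have : 1 < q := by nlinarith
    nlinarith [mul_pos h0 (sub_pos.mpr this)]
  have k0 : h * (B 1 * A 2 - B 2 * A 1) = -(1 - h ^ 2) * m 0 := by
    linear_combination (-(h / 4)) * (x0 + y0) - m 0 * hi
  have k1 : h * (B 2 * A 0 - B 0 * A 2) = -(1 - h ^ 2) * m 1 := by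
    linear_combination (-(h / 4)) * (x1 + y1) - m 1 * hi
  have k2 : h * (B 0 * A 1 - B 1 * A 0) = -(1 - h ^ 2) * m 2 := by
    linear_combination (-(h / 4)) * (x2 + y2) - m 2 * hi
  have g3' : ip A A = 1 - h ^ 2 := by rw [g3, g6]
  have g4' : ip B B = 1 - h ^ 2 := by rw [g4, g6]
  refine ⟨m, A, B, ⟨g6, g3', g4', g5, g2, g1⟩, p0, p1, p2, p3, p4, p5, p6, p7, ?_, ?_⟩
  · unfold ip at g4'
    funext j
    apply mul_left_cancel₀ h1
    fin_cases j
    · show (1 - h ^ 2) * (h * P 8 0) = (1 - h ^ 2) * m 0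
      linear_combination -k0 + h / 2 * (B 1 * z2 - B 2 * z1) + h / 2 * B 0 * m8 - h * P 8 0 * g4'
    · show (1 - h ^ 2) * (h * P 8 1) = (1 - h ^ 2) * m 1
      linear_combination -k1 + h / 2 * (B 2 * z0 - B 0 * z2) + h / 2 * B 1 * m8 - h * P 8 1 * g4'
    · show (1 - h ^ 2) * (h * P 8 2) = (1 - h ^ 2) * m 2
      linear_combination -k2 + h / 2 * (B 0 * z1 - B 1 * z0) + h / 2 * B 2 * m8 - h * P 8 2 * g4'
  · unfold ip at g3' g4' g5
    funext j
    apply mul_left_cancel₀ (mul_ne_zero q0.ne' h1)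
    fin_cases j
    · show q * (1 - h ^ 2) * (h * P 9 0) = q * (1 - h ^ 2) * -m 0
      linear_combination q * k0 - h / 2 * ((A 1 + B 1) * w2 - (A 2 + B 2) * w1) -
        h / 2 * (A 0 + B 0) * m9 - q * h / 2 * P 9 0 * (g3' + g4' + 2 * g5)
    · show q * (1 - h ^ 2) * (h * P 9 1) = q * (1 - h ^ 2) * -m 1
      linear_combination q * k1 - h / 2 * ((A 2 + B 2) * w0 - (A 0 + B 0) * w2) -
        h / 2 * (A 1 + B 1) * m9 - q * h / 2 * P 9 1 * (g3' + g4' + 2 * g5)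
    · show q * (1 - h ^ 2) * (h * P 9 2) = q * (1 - h ^ 2) * -m 2
      linear_combination q * k2 - h / 2 * ((A 0 + B 0) * w1 - (A 1 + B 1) * w0) -
        h / 2 * (A 2 + B 2) * m9 - q * h / 2 * P 9 2 * (g3' + g4' + 2 * g5)

end

end Pool.Agent.MP_2ab689_gt

end MrgPart1

-- marker of a merged file
example : 731051 + 311468 = 731051 + 311468 := rfl
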