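import Mathlib.MeasureTheory.Measure.Haar.OfBasis
import Mathlib.Analysis.Normed.Lp.MeasurableSpace
import Mathlib.Analysis.Convex.Extreme

/-!
Polytopes inscribed in the unit sphere.
-/

namespace Pool.Agent.MP_2ab689_gt

/-- `P` is a convex polytope in Euclidean 3-space with the origin in its interior and with exactly
`K` vertices (extreme points), all of them on the unit sphere. -/
def Inscribed (K : ℕ) (P : Set (EuclideanSpace ℝ (Fin 3))) : Prop :=
  (∃ S : Finset (EuclideanSpace ℝ (Fin 3)), P = convexHull ℝ (S : Set (EuclideanSpace ℝ (Fin 3)))) ∧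
    0 ∈ interior P ∧ (P.extremePoints ℝ).ncard = K ∧ ∀ x ∈ P.extremePoints ℝ, ‖x‖ = 1

/-- `P` has maximum volume among the inscribed polytopes with `K` vertices. -/
def IsMaxVol (K : ℕ) (P : Set (EuclideanSpace ℝ (Fin 3))) : Prop :=
  Inscribed K P ∧ ∀ P' : Set (EuclideanSpace ℝ (Fin 3)), Inscribed K P' →
    MeasureTheory.volume P' ≤ MeasureTheory.volume P

end Pool.Agent.MP_2ab689_gt
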