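import Mathlib.Topology.Sheaves.Presheaf
import Mathlib.RingTheory.Flat.TorsionFree
import Mathlib.Algebra.Order.Ring.Star
import Mathlib.MeasureTheory.Measure.Haar.InnerProductSpace
import Mathlib.Algebra.Order.Archimedean.Real.Hom
import Mathlib.Algebra.Order.Star.Real
import Mathlib.Algebra.Ring.IsFormallyReal
import Mathlib.Analysis.CStarAlgebra.Classes
import Mathlib.Analysis.Convex.KreinMilman
import Mathlib.Combinatorics.SimpleGraph.Basic
import Mathlib.Analysis.Convex.Strict.Extreme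
import Mathlib.Analysis.InnerProductSpace.OfNorm
import Mathlib.MeasureTheory.Group.AddCircle
import Mathlib.RingTheory.PiTensorProduct
import Mathlib.Topology.Separation.CompletelyRegular
import Mathlib.RingTheory.SimpleRing.Principal
import Mathlib.Order.CompletePartialOrder
import Pool.Agent.MP_2ab689_gt.Defs

-- ======== part 0: formerly Pool.Agent.MP_2ab689_gt.Basic
section MrgPart0

/-!
Determinants, orientations and the abstract data extracted from a point configuration.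
-/

namespace Pool.Agent.MP_2ab689_gt

/-- Coordinate space. -/
abbrev V : Type := Fin 3 → ℝ

/-- Determinant of three vectors. -/
def det3 (a b c : V) : ℝ :=
  a 0 * (b 1 * c 2 - b 2 * c 1) - a 1 * (b 0 * c 2 - b 2 * c 0) + a 2 * (b 0 * c 1 - b 1 * c 0)

/-- Inner product. -/
def ip (a b : V) : ℝ := a 0 * b 0 + a 1 * b 1 + a 2 * b 2

/-- Six times the signed volume of the tetrahedron `a b c l`. -/
def T4 (a b c l : V) : ℝ := det3 (a - l) (b - l) (c - l)

theorem ip_comm (a b : V) : ip a b = ip b a := by unfold ip; ring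

theorem det3_rot (a b c : V) : det3 b c a = det3 a b c := by unfold det3; ring
theorem det3_swap12 (a b c : V) : det3 b a c = -det3 a b c := by unfold det3; ring
theorem det3_swap23 (a b c : V) : det3 a c b = -det3 a b c := by unfold det3; ring
theorem det3_self12 (a c : V) : det3 a a c = 0 := by unfold det3; ring
theorem det3_self13 (a b : V) : det3 a b a = 0 := by unfold det3; ring
theorem det3_self23 (a b : V) : det3 a b b = 0 := by unfold det3; ring

theorem T4_eq (a b c l : V) :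
    T4 a b c l = det3 a b c - det3 l b c - det3 a l c - det3 a b l := by
  simp only [T4, det3, Pi.sub_apply]; ring

theorem T4_rot (a b c l : V) : T4 b c a l = T4 a b c l := by
  simp only [T4, det3, Pi.sub_apply]; ring
theorem T4_swp (a b c l : V) : T4 b a l c = T4 a b c l := by
  simp only [T4, det3, Pi.sub_apply]; ring
theorem T4_swap12 (a b c l : V) : T4 b a c l = -T4 a b c l := by
  simp only [T4, det3, Pi.sub_apply]; ring
theorem T4_swap34 (a b c l : V) : T4 a b l c = -T4 a b c l := by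
  simp only [T4, det3, Pi.sub_apply]; ring
theorem T4_self1 (a b c : V) : T4 a b c a = 0 := by
  simp only [T4, det3, Pi.sub_apply]; ring
theorem T4_self2 (a b c : V) : T4 a b c b = 0 := by
  simp only [T4, det3, Pi.sub_apply]; ring
theorem T4_self3 (a b c : V) : T4 a b c c = 0 := by
  simp only [T4, det3, Pi.sub_apply]; ring

theorem T4_neg (a b c l : V) : T4 (-a) (-b) (-c) (-l) = T4 a c b l := by
  simp only [T4, det3, Pi.sub_apply, Pi.neg_apply]; ring

theorem det3_neg (a b c : V) : det3 (-a) (-b) (-c) = det3 a c b := by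
  simp only [det3, Pi.neg_apply]; ring

theorem ip_neg (a b : V) : ip (-a) (-b) = ip a b := by
  simp only [ip, Pi.neg_apply]; ring

/-- Three-term Grassmann-Pluecker relation. -/
theorem T4_gp (v x y p q r : V) :
    T4 v x y q * T4 v x p r = T4 v x y p * T4 v x q r + T4 v x y r * T4 v x p q := by
  simp only [T4, det3, Pi.sub_apply]; ring

theorem ip_self_nonneg (a : V) : 0 ≤ ip a a := by
  unfold ip; nlinarith [sq_nonneg (a 0), sq_nonneg (a 1), sq_nonneg (a 2)]

theorem ip_le_one {a b : V} (ha : ip a a = 1) (hb : ip b b = 1) : ip a b ≤ 1 := by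
  unfold ip at *
  nlinarith [sq_nonneg (a 0 - b 0), sq_nonneg (a 1 - b 1), sq_nonneg (a 2 - b 2)]

theorem abs_ip_le_one {a b : V} (ha : ip a a = 1) (hb : ip b b = 1) : |ip a b| ≤ 1 := by
  rw [abs_le]
  refine ⟨?_, ip_le_one ha hb⟩
  unfold ip at *
  nlinarith [sq_nonneg (a 0 + b 0), sq_nonneg (a 1 + b 1), sq_nonneg (a 2 + b 2)]

theorem ip_lt_one {a b : V} (ha : ip a a = 1) (hb : ip b b = 1) (h : a ≠ b) : ip a b < 1 := by
  refine lt_of_le_of_ne (ip_le_one ha hb) fun e => h ?_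
  unfold ip at *
  have h0 : a 0 - b 0 = 0 := by
    nlinarith [sq_nonneg (a 0 - b 0), sq_nonneg (a 1 - b 1), sq_nonneg (a 2 - b 2)]
  have h1 : a 1 - b 1 = 0 := by
    nlinarith [sq_nonneg (a 0 - b 0), sq_nonneg (a 1 - b 1), sq_nonneg (a 2 - b 2)]
  have h2 : a 2 - b 2 = 0 := by
    nlinarith [sq_nonneg (a 0 - b 0), sq_nonneg (a 1 - b 1), sq_nonneg (a 2 - b 2)]
  funext i
  fin_cases i
  · exact sub_eq_zero.mp h0
  · exact sub_eq_zero.mp h1
  · exact sub_eq_zero.mp h2

/-- The basic quadratic bound for a determinant with a unit vector. -/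
theorem two_det3_le {n : V} (hn : ip n n = 1) (u v : V) :
    2 * det3 n u v + (ip v n) ^ 2 ≤ ip u u + ip v v := by
  have key : ip u u + ip v v * ip n n - 2 * det3 n u v - (ip v n) ^ 2 =
      (u 0 - (v 1 * n 2 - v 2 * n 1)) ^ 2 + (u 1 - (v 2 * n 0 - v 0 * n 2)) ^ 2 +
        (u 2 - (v 0 * n 1 - v 1 * n 0)) ^ 2 := by
    unfold ip det3; ring
  rw [hn] at key
  nlinarith [sq_nonneg (u 0 - (v 1 * n 2 - v 2 * n 1)), sq_nonneg (u 1 - (v 2 * n 0 - v 0 * n 2)),
    sq_nonneg (u 2 - (v 0 * n 1 - v 1 * n 0))]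

theorem abs_det3_le_one {a b c : V} (ha : ip a a = 1) (hb : ip b b = 1) (hc : ip c c = 1) :
    |det3 a b c| ≤ 1 := by
  have h1 := two_det3_le ha b c
  have h2 := two_det3_le ha c b
  rw [det3_swap23] at h2
  rw [abs_le]
  constructor <;> nlinarith [sq_nonneg (ip c a), sq_nonneg (ip b a)]

section
variable {ι : Type}

/-- `a b c` is a positively oriented facet: all other points lie on the inner side. -/
def Face (pos : ι → ι → ι → ι → Prop) (a b c : ι) : Prop :=
  a ≠ b ∧ b ≠ c ∧ c ≠ a ∧ ∀ l, l ≠ a → l ≠ b → l ≠ c → pos a b c l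

/-- The directed edges of a list of triangles. -/
def edges {α : Type} (L : List (α × α × α)) : List (α × α) :=
  L.flatMap fun f => [(f.1, f.2.1), (f.2.1, f.2.2), (f.2.2, f.1)]

/-- Purely combinatorial properties of the orientation predicate of a generic configuration. -/
structure Comb [Fintype ι] (pos : ι → ι → ι → ι → Prop) : Prop where
  rot : ∀ {a b c d}, pos a b c d → pos b c a d
  swp : ∀ {a b c d}, pos a b c d → pos b a d c
  asym : ∀ {a b c d}, pos a b c d → ¬ pos b a c d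
  gp : ∀ {v x y p q r}, pos v x y p → pos v x q r → pos v x y r → pos v x p q → pos v x y q →
    pos v x p r
  ex : ∃ a b c, Face pos a b c
  nb : ∀ {a b c}, Face pos a b c → ∃ d, Face pos b a d
  card : ∀ s : Finset (ι × ι), (∀ e ∈ s, ∃ c, Face pos e.1 e.2 c) →
    s.card + 12 ≤ 6 * Fintype.card ι

/-- Everything that is used about a configuration of unit vectors whose convex hull has volume
at least `vol`. -/
structure Good [Fintype ι] (p : ι → V) (vol : ℝ) (pos : ι → ι → ι → ι → Prop) : Prop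
    extends Comb pos where
  unit : ∀ i, ip (p i) (p i) = 1
  weak : ∀ {a b c d}, pos a b c d → 0 ≤ T4 (p a) (p b) (p c) (p d)
  allv : ∀ F : ι → ι → ι → Prop, (∃ a b c, F a b c) → (∀ a b c, F a b c → Face pos a b c) →
    (∀ a b c, F a b c → F b c a) → (∀ a b c, F a b c → ∃ d, F b a d) → ∀ i, ∃ a b, F i a b
  volb : ∀ L : List (ι × ι × ι), L ≠ [] → (∀ f ∈ L, Face pos f.1 f.2.1 f.2.2) →
    (edges L).Perm ((edges L).map Prod.swap) →
    6 * vol ≤ (L.map fun f => det3 (p f.1) (p f.2.1) (p f.2.2)).sum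
  vcut : ∀ (v : ι) (s : Finset (ι × ι)) (A B : ℝ), 0 ≤ A → 0 ≤ B →
    (∀ θ, 0 ≤ θ → θ ≤ Real.pi → Real.sin θ ≤ A + B * θ) → (∀ e ∈ s, Face pos v e.1 e.2) →
    ∑ e ∈ s, det3 (p v) (p e.1) (p e.2) ≤
      ∑ e ∈ s, A * (1 - ((ip (p v) (p e.1)) ^ 2 + (ip (p v) (p e.2)) ^ 2) / 2) + 2 * Real.pi * B

theorem Comb.face_rot [Fintype ι] {pos : ι → ι → ι → ι → Prop} (h : Comb pos) {a b c : ι}
    (hf : Face pos a b c) : Face pos b c a :=
  ⟨hf.2.1, hf.2.2.1, hf.1, fun l h1 h2 h3 => h.rot (hf.2.2.2 l h3 h1 h2)⟩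

theorem Comb.face_unique [Fintype ι] {pos : ι → ι → ι → ι → Prop} (h : Comb pos) {a b c d : ι}
    (hc : Face pos a b c) (hd : Face pos a b d) : c = d := by
  by_contra hne
  have h1 := hc.2.2.2 d hd.2.2.1 hd.2.1.symm (Ne.symm hne)
  have h2 := hd.2.2.2 c hc.2.2.1 hc.2.1.symm hne
  exact h.asym h1 (h.swp h2)

end

end Pool.Agent.MP_2ab689_gt

end MrgPart0

-- ======== part 1: formerly Pool.Agent.MP_2ab689_gt.Trans
section MrgPart1

/-!
Relabelling and reflecting a configuration.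
-/

namespace Pool.Agent.MP_2ab689_gt

variable {ι κ : Type} [Fintype ι] [Fintype κ]

omit [Fintype ι] [Fintype κ] in
theorem face_relabel (σ : κ ≃ ι) (pos : ι → ι → ι → ι → Prop) (a b c : κ) :
    Face (fun a b c d => pos (σ a) (σ b) (σ c) (σ d)) a b c ↔ Face pos (σ a) (σ b) (σ c) := by
  simp only [Face, ne_eq, EmbeddingLike.apply_eq_iff_eq]
  refine and_congr_right fun _ => and_congr_right fun _ => and_congr_right fun _ => ?_
  constructor
  · intro h l h1 h2 h3
    obtain ⟨l, rfl⟩ := σ.surjective l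
    exact h l (fun e => h1 (by rw [e])) (fun e => h2 (by rw [e])) (fun e => h3 (by rw [e]))
  · intro h l h1 h2 h3
    exact h _ (by simpa using h1) (by simpa using h2) (by simpa using h3)

theorem edges_map {α β : Type} (f : α → β) (L : List (α × α × α)) :
    edges (L.map fun x => (f x.1, f x.2.1, f x.2.2)) = (edges L).map fun e => (f e.1, f e.2) := by
  induction L with
  | nil => rfl
  | cons x L ih =>
    simp only [edges, List.map_cons, List.flatMap_cons, List.map_append, List.map_nil] at ih ⊢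
    rw [ih]

theorem Good.relabel {p : ι → V} {vol : ℝ} {pos : ι → ι → ι → ι → Prop} (h : Good p vol pos)
    (σ : κ ≃ ι) : Good (p ∘ σ) vol (fun a b c d => pos (σ a) (σ b) (σ c) (σ d)) where
  rot := h.rot
  swp := h.swp
  asym := h.asym
  gp := h.gp
  ex := by
    obtain ⟨a, b, c, hf⟩ := h.ex
    exact ⟨σ.symm a, σ.symm b, σ.symm c, (face_relabel σ pos _ _ _).mpr (by simpa using hf)⟩
  nb := by
    intro a b c hf
    obtain ⟨d, hd⟩ := h.nb ((face_relabel σ pos _ _ _).mp hf)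
    exact ⟨σ.symm d, (face_relabel σ pos _ _ _).mpr (by simpa using hd)⟩
  card := by
    intro s hs
    have := h.card (s.map (σ.prodCongr σ).toEmbedding) (by
      intro e he
      obtain ⟨e', he', rfl⟩ := Finset.mem_map.mp he
      obtain ⟨c, hc⟩ := hs e' he'
      exact ⟨σ c, (face_relabel σ pos _ _ _).mp hc⟩)
    rwa [Finset.card_map, ← Fintype.card_congr σ] at this
  unit := fun i => h.unit _
  weak := h.weak
  allv := by
    intro F f1 f2 f3 f4 i
    obtain ⟨a, b, hab⟩ := h.allv (fun a b c => F (σ.symm a) (σ.symm b) (σ.symm c))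
      (by
        obtain ⟨a, b, c, h⟩ := f1
        exact ⟨σ a, σ b, σ c, by simpa using h⟩)
      (fun a b c h => by simpa using (face_relabel σ pos _ _ _).mp (f2 _ _ _ h))
      (fun a b c h => f3 _ _ _ h)
      (fun a b c h => by
        obtain ⟨d, hd⟩ := f4 _ _ _ h
        exact ⟨σ d, by simpa using hd⟩) (σ i)
    exact ⟨_, _, by simpa using hab⟩
  volb := by
    intro L hL hF hP
    have := h.volb (L.map fun x => (σ x.1, σ x.2.1, σ x.2.2)) (by simpa using hL)
      (by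
        intro f hf
        obtain ⟨x, hx, rfl⟩ := List.mem_map.mp hf
        exact (face_relabel σ pos _ _ _).mp (hF x hx))
      (by
        rw [edges_map]
        have := hP.map fun e => (σ e.1, σ e.2)
        simp only [List.map_map] at this ⊢
        exact this)
    simp only [List.map_map] at this
    exact this
  vcut := by
    intro v s A B hA hB hAB hs
    have := h.vcut (σ v) (s.map (σ.prodCongr σ).toEmbedding) A B hA hB hAB (by
      intro e he
      obtain ⟨e', he', rfl⟩ := Finset.mem_map.mp he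
      exact (face_relabel σ pos _ _ _).mp (hs e' he'))
    simp only [Finset.sum_map] at this
    exact this

omit [Fintype ι] in
theorem face_mirror (pos : ι → ι → ι → ι → Prop) (a b c : ι) :
    Face (fun a b c d => pos a c b d) a b c ↔ Face pos a c b := by
  simp only [Face]
  constructor
  · rintro ⟨h1, h2, h3, h⟩
    exact ⟨h3.symm, h2.symm, h1.symm, fun l l1 l2 l3 => h l l1 l3 l2⟩
  · rintro ⟨h1, h2, h3, h⟩
    exact ⟨h3.symm, h2.symm, h1.symm, fun l l1 l2 l3 => h l l1 l3 l2⟩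

theorem edges_mirror {α : Type} (L : List (α × α × α)) :
    (edges (L.map fun x => (x.1, x.2.2, x.2.1))).Perm ((edges L).map Prod.swap) := by
  induction L with
  | nil => simp [edges]
  | cons x L ih =>
    simp only [edges, List.map_cons, List.flatMap_cons, List.map_append, List.map_nil,
      Prod.swap_prod_mk] at ih ⊢
    exact List.Perm.append (List.reverse_perm [(x.2.1, x.1), (x.2.2, x.2.1), (x.1, x.2.2)]) ih

theorem Good.mirror {p : ι → V} {vol : ℝ} {pos : ι → ι → ι → ι → Prop} (h : Good p vol pos) :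
    Good (fun i => -p i) vol (fun a b c d => pos a c b d) where
  rot := fun h1 => h.rot (h.rot h1)
  swp := fun h1 => h.rot (h.swp (h.rot (h.rot h1)))
  asym := fun h1 => h.asym (h.rot h1)
  gp := fun h1 h2 h3 h4 h5 => h.rot (h.gp (h.rot (h.rot h1)) (h.rot (h.rot h2)) (h.rot (h.rot h3))
    (h.rot (h.rot h4)) (h.rot (h.rot h5)))
  ex := by
    obtain ⟨a, b, c, hf⟩ := h.ex
    exact ⟨a, c, b, (face_mirror pos _ _ _).mpr hf⟩
  nb := by
    intro a b c hf
    obtain ⟨d, hd⟩ := h.nb (h.face_rot (h.face_rot ((face_mirror pos _ _ _).mp hf)))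
    exact ⟨d, (face_mirror pos _ _ _).mpr (h.face_rot hd)⟩
  card := by
    intro s hs
    have := h.card (s.map (Equiv.prodComm ι ι).toEmbedding) (by
      intro e he
      obtain ⟨e', he', rfl⟩ := Finset.mem_map.mp he
      obtain ⟨c, hc⟩ := hs e' he'
      exact ⟨c, h.face_rot (h.face_rot ((face_mirror pos _ _ _).mp hc))⟩)
    rwa [Finset.card_map] at this
  unit := fun i => by rw [ip_neg, h.unit]
  weak := fun h1 => by rw [T4_neg]; exact h.weak h1
  allv := by
    intro F f1 f2 f3 f4 i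
    obtain ⟨a, b, hab⟩ := h.allv (fun a b c => F a c b)
      (by
        obtain ⟨a, b, c, h⟩ := f1
        exact ⟨a, c, b, h⟩)
      (fun a b c h => (face_mirror pos _ _ _).mp (f2 _ _ _ h))
      (fun a b c h => f3 _ _ _ (f3 _ _ _ h))
      (fun a b c h => by
        obtain ⟨d, hd⟩ := f4 _ _ _ (f3 _ _ _ (f3 _ _ _ h))
        exact ⟨d, f3 _ _ _ hd⟩) i
    exact ⟨_, _, hab⟩
  volb := by
    intro L hL hF hP
    have := h.volb (L.map fun x => (x.1, x.2.2, x.2.1)) (by simpa using hL)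
      (by
        intro f hf
        obtain ⟨x, hx, rfl⟩ := List.mem_map.mp hf
        exact (face_mirror pos _ _ _).mp (hF x hx))
      (by
        have h1 := edges_mirror L
        have h2 := h1.map Prod.swap
        rw [List.map_map, Prod.swap_swap_eq, List.map_id] at h2
        exact h1.trans (hP.symm.trans h2.symm))
    simp only [List.map_map] at this
    simp only [det3_neg]
    exact this
  vcut := by
    intro v s A B hA hB hAB hs
    have := h.vcut v (s.map (Equiv.prodComm ι ι).toEmbedding) A B hA hB hAB (by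
      intro e he
      obtain ⟨e', he', rfl⟩ := Finset.mem_map.mp he
      exact (face_mirror pos _ _ _).mp (hs e' he'))
    simp only [Finset.sum_map, Equiv.coe_toEmbedding, Equiv.prodComm_apply, Prod.fst_swap,
      Prod.snd_swap] at this
    simp only [det3_neg, ip_neg]
    refine this.trans_eq ?_
    congr 1
    exact Finset.sum_congr rfl fun e _ => by ring

end Pool.Agent.MP_2ab689_gt

end MrgPart1

-- ======== part 2: formerly Pool.Agent.MP_2ab689_gt.Search
section MrgPart2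

/-!
A verified gift-wrapping enumeration of the possible facet structures.
-/

namespace Pool.Agent.MP_2ab689_gt

/-- Bit test. -/
def tb (M i : ℕ) : Bool := Nat.beq (Nat.mod (Nat.shiftRight M i) 2) 1

/-- Bit set. -/
def sb (M i : ℕ) : ℕ := Nat.lor M (Nat.pow 2 i)

theorem tb_eq (M i : ℕ) : tb M i = M.testBit i := by
  rw [Nat.testBit_eq_decide_div_mod_eq, tb]
  change Nat.beq ((M >>> i) % 2) 1 = _
  rw [Nat.shiftRight_eq_div_pow, Bool.eq_iff_iff, Nat.beq_eq, decide_eq_true_iff]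

theorem tb_sb (M i j : ℕ) : tb (sb M i) j = true ↔ tb M j = true ∨ j = i := by
  rw [tb_eq, tb_eq, sb]
  change (M ||| 2 ^ i).testBit j = true ↔ _
  rw [Nat.testBit_or, Bool.or_eq_true, Nat.testBit_two_pow, decide_eq_true_iff, eq_comm (a := i)]

theorem tb_zero (j : ℕ) : tb 0 j = false := by rw [tb_eq, Nat.zero_testBit]

theorem beq_dec (a b : ℕ) : Nat.beq a b = decide (a = b) := by
  rw [Bool.eq_iff_iff, Nat.beq_eq, decide_eq_true_iff]

/-- Forces the evaluation of a number. -/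
noncomputable def force {α : Type} (x : ℕ) (f : ℕ → α) : α :=
  Nat.rec (f 0) (fun n _ => f (Nat.succ n)) x

theorem force_eq {α : Type} (x : ℕ) (f : ℕ → α) : force x f = f x := by
  cases x <;> rfl

/-- Bounded universal quantifier. -/
noncomputable def allLt (m : ℕ) (f : ℕ → Bool) : Bool :=
  Nat.rec true (fun c acc => and acc (f c)) m

theorem allLt_iff (m : ℕ) (f : ℕ → Bool) : allLt m f = true ↔ ∀ c < m, f c = true := by
  induction m with
  | zero => simp [allLt]
  | succ m ih =>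
    change (allLt m f && f m) = true ↔ _
    rw [Bool.and_eq_true, ih, Nat.forall_lt_succ_right]

/-- Code of a directed edge. -/
def ec (a b : ℕ) : ℕ := Nat.add (Nat.mul 16 a) b

/-- Code of an oriented triangle. -/
def fc (a b c : ℕ) : ℕ := Nat.add (Nat.mul 256 a) (Nat.add (Nat.mul 16 b) c)

theorem ec_eq (a b : ℕ) : ec a b = 16 * a + b := rfl
theorem fc_eq (a b c : ℕ) : fc a b c = 256 * a + (16 * b + c) := rfl

/-- Drops the leading edges whose reverse is present. -/
noncomputable def dropM (E : ℕ) (st : List (ℕ × ℕ)) : List (ℕ × ℕ) :=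
  List.rec [] (fun e r acc => cond (tb E (ec e.2 e.1)) acc (e :: r)) st

theorem dropM_spec (E : ℕ) (st : List (ℕ × ℕ)) :
    (∀ e ∈ st, tb E (ec e.2 e.1) = true ∨ e ∈ dropM E st) ∧ (∀ e ∈ dropM E st, e ∈ st) ∧
      ∀ e r, dropM E st = e :: r → tb E (ec e.2 e.1) = false := by
  induction st with
  | nil => simp [dropM]
  | cons e r ih =>
    have h : dropM E (e :: r) = cond (tb E (ec e.2 e.1)) (dropM E r) (e :: r) := rfl
    rw [h]
    cases h' : tb E (ec e.2 e.1)
    · refine ⟨fun x hx => Or.inr hx, fun x hx => hx, ?_⟩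
      intro x y hxy
      obtain ⟨rfl, -⟩ := List.cons.inj hxy
      exact h'
    · refine ⟨fun x hx => ?_, fun x hx => List.mem_cons_of_mem _ (ih.2.1 x hx), ih.2.2⟩
      rcases List.mem_cons.mp hx with rfl | hx
      · exact Or.inl h'
      · exact ih.1 x hx

/-- One branch of the search: the facet across the edge `A B` has third vertex `c`. -/
noncomputable def branch (n : ℕ) (rec : ℕ → ℕ → ℕ → ℕ → List (ℕ × ℕ) → Bool) (k E F w A B : ℕ)
    (r : List (ℕ × ℕ)) (c : ℕ) : Bool :=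
  or (Nat.beq c A) (or (Nat.beq c B) (or (tb E (ec A c)) (or (tb E (ec c B))
    (force (Nat.add w (Nat.add (cond (tb E (ec c A)) 0 2) (cond (tb E (ec B c)) 0 2))) fun w' =>
      force (cond (Nat.beq c k) (Nat.succ k) k) fun k' =>
        or (Nat.blt (Nat.mul 6 n) (Nat.add (Nat.add w' (Nat.mul 4 (Nat.sub n k'))) 12))
          (force (sb (sb (sb E (ec B A)) (ec A c)) (ec c B)) fun E' =>
            force (sb (sb (sb F (fc B A c)) (fc A c B)) (fc c B A)) fun F' =>
              rec k' E' F' w' ((A, c) :: (c, B) :: r))))))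

/-- The search. -/
noncomputable def search (n : ℕ) (leaf : ℕ → ℕ → Bool) (fuel : ℕ) :
    ℕ → ℕ → ℕ → ℕ → List (ℕ × ℕ) → Bool :=
  Nat.rec (fun _ _ _ _ _ => false) (fun _ rec k E F w st =>
    List.casesOn (motive := fun _ => Bool) (dropM E st) (cond (Nat.beq k n) (leaf E F) true)
      (fun e r => allLt (cond (Nat.beq k n) n (Nat.succ k)) (branch n rec k E F w e.1 e.2 r)))
    fuel

section
variable {ι : Type} [Fintype ι] {p : ι → V} {vol : ℝ} {pos : ι → ι → ι → ι → Prop}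

theorem Good.edge_count (G : Good p vol pos) (m : ℕ) : ∀ (S : Finset ι) (W : Finset (ι × ι)),
    S.card + m = Fintype.card ι → (∃ a ∈ S, ∃ b ∈ S, ∃ c ∈ S, Face pos a b c) →
    (∀ e ∈ W, e.1 ∈ S ∧ e.2 ∈ S ∧ ∃ c, Face pos e.1 e.2 c) →
    W.card + 4 * m + 12 ≤ 6 * Fintype.card ι := by
  classical
  induction m with
  | zero => exact fun S W _ _ hW => G.card W fun e he => (hW e he).2.2
  | succ m ih =>
    intro S W hc ⟨a, ha, b, hb, c, hc', hf⟩ hW
    obtain ⟨x, y, z, hx, hy, hz, hxyz⟩ : ∃ x y z, x ∈ S ∧ y ∈ S ∧ z ∉ S ∧ Face pos x y z := by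
      by_contra hcon
      push Not at hcon
      have := G.allv (fun a b c => a ∈ S ∧ b ∈ S ∧ c ∈ S ∧ Face pos a b c)
        ⟨a, b, c, ha, hb, hc', hf⟩ (fun _ _ _ h => h.2.2.2)
        (fun _ _ _ h => ⟨h.2.1, h.2.2.1, h.1, G.face_rot h.2.2.2⟩)
        (fun a b c h => by
          obtain ⟨d, hd⟩ := G.nb h.2.2.2
          refine ⟨d, h.2.1, h.1, ?_, hd⟩
          by_contra hd'
          exact hcon b a d h.2.1 h.1 hd' hd)
      have h2 : S = Finset.univ := Finset.eq_univ_of_forall fun i => by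
        obtain ⟨_, _, h⟩ := this i
        exact h.1
      rw [h2, Finset.card_univ] at hc
      omega
    have hxz : x ≠ z := fun e => hz (e ▸ hx)
    have hyz : y ≠ z := fun e => hz (e ▸ hy)
    have hxy : x ≠ y := hxyz.1
    have n1 : ∀ u, (u, z) ∉ W := fun u h => hz (hW _ h).2.1
    have n2 : ∀ u, (z, u) ∉ W := fun u h => hz (hW _ h).1
    have := ih (insert z S) (insert (y, z) (insert (z, x) (insert (z, y) (insert (x, z) W))))
      (by rw [Finset.card_insert_of_notMem hz]; omega)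
      ⟨a, by simp [ha], b, by simp [hb], c, by simp [hc'], hf⟩ (by
        intro e he
        simp only [Finset.mem_insert] at he ⊢
        rcases he with rfl | rfl | rfl | rfl | he
        · exact ⟨Or.inr hy, Or.inl rfl, _, G.face_rot hxyz⟩
        · exact ⟨Or.inl rfl, Or.inr hx, _, G.face_rot (G.face_rot hxyz)⟩
        · exact ⟨Or.inl rfl, Or.inr hy, G.nb (G.face_rot hxyz)⟩
        · exact ⟨Or.inr hx, Or.inl rfl, G.nb (G.face_rot (G.face_rot hxyz))⟩
        · exact ⟨Or.inr (hW e he).1, Or.inr (hW e he).2.1, (hW e he).2.2⟩)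
    rw [Finset.card_insert_of_notMem (by simp [n1, hyz, hxy.symm]),
      Finset.card_insert_of_notMem (by simp [n2, hxy, hxz.symm]),
      Finset.card_insert_of_notMem (by simp [n2, hxz.symm]),
      Finset.card_insert_of_notMem (n1 x)] at this
    omega

/-- The invariant of the search. -/
structure Inv (pos : ι → ι → ι → ι → Prop) (σ : ℕ → ι) (k E F w : ℕ) (st : List (ℕ × ℕ)) :
    Prop where
  k16 : k ≤ 16
  inj : ∀ a < k, ∀ b < k, σ a = σ b → a = b
  ne : ∃ a < 16, ∃ b < 16, ∃ c < 16, tb F (fc a b c) = true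
  hF : ∀ a < 16, ∀ b < 16, ∀ c < 16, tb F (fc a b c) = true →
    a < k ∧ b < k ∧ c < k ∧ Face pos (σ a) (σ b) (σ c) ∧ tb F (fc b c a) = true
  hE : ∀ a < 16, ∀ b < 16, tb E (ec a b) = true ↔ ∃ c < 16, tb F (fc a b c) = true
  hs : ∀ a < 16, ∀ b < 16, tb E (ec a b) = true → tb E (ec b a) = true ∨ (a, b) ∈ st
  hs' : ∀ e ∈ st, e.1 < 16 ∧ e.2 < 16 ∧ tb E (ec e.1 e.2) = true
  hw : ∃ W : Finset (ℕ × ℕ), w ≤ W.card ∧ ∀ e ∈ W, e.1 < 16 ∧ e.2 < 16 ∧
    (tb E (ec e.1 e.2) = true ∨ tb E (ec e.2 e.1) = true)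

theorem Inv.bound (G : Good p vol pos) {σ : ℕ → ι} {k E F w : ℕ} {st : List (ℕ × ℕ)}
    (I : Inv pos σ k E F w st) : k ≤ Fintype.card ι ∧
      w + 4 * (Fintype.card ι - k) + 12 ≤ 6 * Fintype.card ι := by
  classical
  have hS : ((Finset.range k).image σ).card = k := by
    rw [Finset.card_image_of_injOn, Finset.card_range]
    intro a ha b hb
    exact I.inj a (by simpa using ha) b (by simpa using hb)
  have hk : k ≤ Fintype.card ι := hS ▸ Finset.card_le_univ _
  obtain ⟨W, hw, hW⟩ := I.hw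
  have mem : ∀ a < k, σ a ∈ (Finset.range k).image σ := fun a ha =>
    Finset.mem_image_of_mem _ (Finset.mem_range.mpr ha)
  have hW' : ∀ e ∈ W, e.1 < k ∧ e.2 < k ∧ ∃ c, Face pos (σ e.1) (σ e.2) c := by
    intro e he
    obtain ⟨h1, h2, h | h⟩ := hW e he
    · obtain ⟨c, hc, h⟩ := (I.hE _ h1 _ h2).mp h
      obtain ⟨a1, a2, -, a4, -⟩ := I.hF _ h1 _ h2 _ hc h
      exact ⟨a1, a2, _, a4⟩
    · obtain ⟨c, hc, h⟩ := (I.hE _ h2 _ h1).mp h
      obtain ⟨a1, a2, -, a4, -⟩ := I.hF _ h2 _ h1 _ hc h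
      exact ⟨a2, a1, G.nb a4⟩
  have := G.edge_count (Fintype.card ι - k) ((Finset.range k).image σ)
    (W.image fun e => (σ e.1, σ e.2)) (by omega) (by
      obtain ⟨a, ha, b, hb, c, hc, h⟩ := I.ne
      obtain ⟨a1, a2, a3, a4, -⟩ := I.hF _ ha _ hb _ hc h
      exact ⟨_, mem _ a1, _, mem _ a2, _, mem _ a3, a4⟩) (by
      intro e he
      obtain ⟨e, he', rfl⟩ := Finset.mem_image.mp he
      obtain ⟨a1, a2, a3⟩ := hW' e he'
      exact ⟨mem _ a1, mem _ a2, a3⟩)
  rw [Finset.card_image_of_injOn (by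
    intro e he e' he' h
    obtain ⟨h1, h2⟩ := Prod.mk.inj h
    exact Prod.ext (I.inj _ (hW' e he).1 _ (hW' e' he').1 h1)
      (I.inj _ (hW' e he).2.1 _ (hW' e' he').2.1 h2))] at this
  omega

omit [Fintype ι] in
theorem Inv.extend {σ σ' : ℕ → ι} {k k' E F w A B c : ℕ} {r : List (ℕ × ℕ)}
    (rot : ∀ {a b c}, Face pos a b c → Face pos b c a)
    (I : Inv pos σ k E F w ((A, B) :: r)) (hk : k ≤ k') (hk' : k' ≤ 16)
    (hσ : ∀ a < k, σ' a = σ a) (inj : ∀ a < k', ∀ b < k', σ' a = σ' b → a = b) (hc : c < k')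
    (hf : Face pos (σ' B) (σ' A) (σ' c)) (h1 : tb E (ec A c) = false) (h2 : tb E (ec c B) = false) :
    Inv pos σ' k' (sb (sb (sb E (ec B A)) (ec A c)) (ec c B))
      (sb (sb (sb F (fc B A c)) (fc A c B)) (fc c B A))
      (w + (cond (tb E (ec c A)) 0 2 + cond (tb E (ec B c)) 0 2)) ((A, c) :: (c, B) :: r) := by
  classical
  obtain ⟨hA, hB, hAB⟩ := I.hs' (A, B) (by simp)
  simp only at hA hB hAB
  obtain ⟨c0, hc0, hF0⟩ := (I.hE _ hA _ hB).mp hAB
  obtain ⟨hAk, hBk, -, -, -⟩ := I.hF _ hA _ hB _ hc0 hF0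
  have hc16 : c < 16 := by omega
  have tE : ∀ a < 16, ∀ b < 16, tb (sb (sb (sb E (ec B A)) (ec A c)) (ec c B)) (ec a b) = true ↔
      tb E (ec a b) = true ∨ (a = B ∧ b = A) ∨ (a = A ∧ b = c) ∨ (a = c ∧ b = B) := by
    intro a ha b hb
    simp only [tb_sb, ec_eq, or_assoc]
    refine or_congr_right (or_congr ?_ (or_congr ?_ ?_)) <;> omega
  have tF : ∀ a < 16, ∀ b < 16, ∀ d < 16,
      tb (sb (sb (sb F (fc B A c)) (fc A c B)) (fc c B A)) (fc a b d) = true ↔
      tb F (fc a b d) = true ∨ (a = B ∧ b = A ∧ d = c) ∨ (a = A ∧ b = c ∧ d = B) ∨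
        (a = c ∧ b = B ∧ d = A) := by
    intro a ha b hb d hd
    simp only [tb_sb, fc_eq, or_assoc]
    refine or_congr_right (or_congr ?_ (or_congr ?_ ?_)) <;> omega
  have nAB : A ≠ B := fun e => hf.1 (by rw [e])
  have nAc : A ≠ c := fun e => hf.2.1 (by rw [e])
  have nBc : B ≠ c := fun e => hf.2.2.1 (by rw [e])
  refine ⟨hk', inj, ⟨B, hB, A, hA, c, hc16, (tF _ hB _ hA _ hc16).mpr (by simp)⟩, ?_, ?_, ?_, ?_,
    ?_⟩
  · intro a ha b hb d hd h
    rw [tF _ hb _ hd _ ha]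
    rcases (tF _ ha _ hb _ hd).mp h with h | ⟨rfl, rfl, rfl⟩ | ⟨rfl, rfl, rfl⟩ | ⟨rfl, rfl, rfl⟩
    · obtain ⟨a1, a2, a3, a4, a5⟩ := I.hF _ ha _ hb _ hd h
      exact ⟨by omega, by omega, by omega, by rwa [hσ _ a1, hσ _ a2, hσ _ a3], Or.inl a5⟩
    · exact ⟨by omega, by omega, hc, hf, by simp⟩
    · exact ⟨by omega, hc, by omega, rot hf, by simp⟩
    · exact ⟨hc, by omega, by omega, rot (rot hf), by simp⟩
  · intro a ha b hb
    rw [tE _ ha _ hb, I.hE _ ha _ hb]
    constructor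
    · rintro (⟨d, hd, h⟩ | ⟨rfl, rfl⟩ | ⟨rfl, rfl⟩ | ⟨rfl, rfl⟩)
      · exact ⟨d, hd, (tF _ ha _ hb _ hd).mpr (Or.inl h)⟩
      · exact ⟨c, hc16, (tF _ ha _ hb _ hc16).mpr (by simp)⟩
      · exact ⟨B, hB, (tF _ ha _ hb _ hB).mpr (by simp)⟩
      · exact ⟨A, hA, (tF _ ha _ hb _ hA).mpr (by simp)⟩
    · rintro ⟨d, hd, h⟩
      rcases (tF _ ha _ hb _ hd).mp h with h | h | h | h
      · exact Or.inl ⟨d, hd, h⟩
      · exact Or.inr (Or.inl ⟨h.1, h.2.1⟩)
      · exact Or.inr (Or.inr (Or.inl ⟨h.1, h.2.1⟩))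
      · exact Or.inr (Or.inr (Or.inr ⟨h.1, h.2.1⟩))
  · intro a ha b hb h
    rw [tE _ hb _ ha]
    rcases (tE _ ha _ hb).mp h with h | ⟨rfl, rfl⟩ | ⟨rfl, rfl⟩ | ⟨rfl, rfl⟩
    · rcases I.hs _ ha _ hb h with h | h
      · exact Or.inl (Or.inl h)
      · rcases List.mem_cons.mp h with h | h
        · obtain ⟨rfl, rfl⟩ := Prod.mk.inj h
          exact Or.inl (by simp)
        · exact Or.inr (by simp [h])
    · exact Or.inl (Or.inl hAB)
    · exact Or.inr (by simp)
    · exact Or.inr (by simp)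
  · intro e he
    simp only [List.mem_cons] at he
    rcases he with rfl | rfl | he
    · exact ⟨hA, hc16, (tE _ hA _ hc16).mpr (by simp)⟩
    · exact ⟨hc16, hB, (tE _ hc16 _ hB).mpr (by simp)⟩
    · obtain ⟨a1, a2, a3⟩ := I.hs' e (List.mem_cons_of_mem _ he)
      exact ⟨a1, a2, (tE _ a1 _ a2).mpr (Or.inl a3)⟩
  · obtain ⟨W, hw, hW⟩ := I.hw
    have hW' : ∀ a b, tb E (ec a b) = false → tb E (ec b a) = false → (a, b) ∉ W := by
      intro a b e1 e2 h
      obtain ⟨-, -, h | h⟩ := hW _ h <;> simp_all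
    let X : Finset (ℕ × ℕ) := if tb E (ec c A) = true then ∅ else {(A, c), (c, A)}
    let Y : Finset (ℕ × ℕ) := if tb E (ec B c) = true then ∅ else {(c, B), (B, c)}
    refine ⟨W ∪ (X ∪ Y), ?_, ?_⟩
    · have hX : X.card = cond (tb E (ec c A)) 0 2 := by
        cases h : tb E (ec c A)
        · simp only [X, h, Bool.false_eq_true, if_false, cond_false]
          exact Finset.card_pair (by simp [nAc])
        · simp [X, h]
      have hY : Y.card = cond (tb E (ec B c)) 0 2 := by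
        cases h : tb E (ec B c)
        · simp only [Y, h, Bool.false_eq_true, if_false, cond_false]
          exact Finset.card_pair (by simp [nBc])
        · simp [Y, h]
      have d1 : Disjoint X Y := by
        simp only [X, Y]
        split_ifs <;> simp [nBc, nAB.symm, nAc.symm]
      have d2 : Disjoint W (X ∪ Y) := by
        rw [Finset.disjoint_union_right]
        constructor
        · cases h : tb E (ec c A)
          · simp [X, h, hW' _ _ h1 h, hW' _ _ h h1]
          · simp [X, h]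
        · cases h : tb E (ec B c)
          · simp [Y, h, hW' _ _ h2 h, hW' _ _ h h2]
          · simp [Y, h]
      rw [Finset.card_union_of_disjoint d2, Finset.card_union_of_disjoint d1, hX, hY]
      omega
    · intro e he
      simp only [Finset.mem_union] at he
      rcases he with he | he | he
      · obtain ⟨a1, a2, a3⟩ := hW e he
        refine ⟨a1, a2, a3.imp (fun h => (tE _ a1 _ a2).mpr (Or.inl h))
          (fun h => (tE _ a2 _ a1).mpr (Or.inl h))⟩
      · simp only [X] at he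
        split_ifs at he
        · simp at he
        · simp only [Finset.mem_insert, Finset.mem_singleton] at he
          rcases he with rfl | rfl
          · exact ⟨hA, hc16, Or.inl ((tE _ hA _ hc16).mpr (by simp))⟩
          · exact ⟨hc16, hA, Or.inr ((tE _ hA _ hc16).mpr (by simp))⟩
      · simp only [Y] at he
        split_ifs at he
        · simp at he
        · simp only [Finset.mem_insert, Finset.mem_singleton] at he
          rcases he with rfl | rfl
          · exact ⟨hc16, hB, Or.inl ((tE _ hc16 _ hB).mpr (by simp))⟩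
          · exact ⟨hB, hc16, Or.inr ((tE _ hc16 _ hB).mpr (by simp))⟩

theorem surj_of_inj {σ : ℕ → ι} (inj : ∀ a < Fintype.card ι, ∀ b < Fintype.card ι,
    σ a = σ b → a = b) (d : ι) : ∃ c < Fintype.card ι, σ c = d := by
  classical
  have hS : ((Finset.range (Fintype.card ι)).image σ).card = Fintype.card ι := by
    rw [Finset.card_image_of_injOn, Finset.card_range]
    intro a ha b hb
    exact inj a (by simpa using ha) b (by simpa using hb)
  have := Finset.eq_univ_of_card _ hS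
  have h2 : d ∈ (Finset.range (Fintype.card ι)).image σ := this ▸ Finset.mem_univ d
  simpa using h2

theorem search_sound (G : Good p vol pos) {n : ℕ} (hn : Fintype.card ι = n) (h16 : n ≤ 16)
    {Q : Prop} {leaf : ℕ → ℕ → Bool}
    (hleaf : ∀ (σ : ℕ → ι) (E F : ℕ), (∀ a < n, ∀ b < n, σ a = σ b → a = b) →
      (∀ a < 16, ∀ b < 16, ∀ c < 16, tb F (fc a b c) = true → Face pos (σ a) (σ b) (σ c)) →
      leaf E F = true → Q) (fuel : ℕ) :
    ∀ σ k E F w st, Inv pos σ k E F w st → search n leaf fuel k E F w st = true → Q := by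
  classical
  induction fuel with
  | zero => intro σ k E F w st _ h; exact absurd h Bool.false_ne_true
  | succ fuel ih =>
    intro σ k E F w st I h
    obtain ⟨d1, d2, d3⟩ := dropM_spec E st
    have hkn := (I.bound G).1
    rw [hn] at hkn
    change List.casesOn (motive := fun _ => Bool) (dropM E st) (cond (Nat.beq k n) (leaf E F) true)
      (fun e r => allLt (cond (Nat.beq k n) n (Nat.succ k))
        (branch n (search n leaf fuel) k E F w e.1 e.2 r)) = true at h
    cases hd : dropM E st with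
    | nil =>
      rw [hd] at h d1
      by_cases hk : k = n
      · subst hk
        rw [Nat.beq_refl] at h
        exact hleaf σ E F I.inj (fun a ha b hb c hc h => (I.hF a ha b hb c hc h).2.2.2.1) h
      · exfalso
        have := G.allv (fun x y z => ∃ a < 16, ∃ b < 16, ∃ c < 16, tb F (fc a b c) = true ∧
          x = σ a ∧ y = σ b ∧ z = σ c)
          (by
            obtain ⟨a, ha, b, hb, c, hc, h⟩ := I.ne
            exact ⟨_, _, _, a, ha, b, hb, c, hc, h, rfl, rfl, rfl⟩)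
          (by
            rintro _ _ _ ⟨a, ha, b, hb, c, hc, h, rfl, rfl, rfl⟩
            exact (I.hF a ha b hb c hc h).2.2.2.1)
          (by
            rintro _ _ _ ⟨a, ha, b, hb, c, hc, h, rfl, rfl, rfl⟩
            exact ⟨b, hb, c, hc, a, ha, (I.hF a ha b hb c hc h).2.2.2.2, rfl, rfl, rfl⟩)
          (by
            rintro _ _ _ ⟨a, ha, b, hb, c, hc, h, rfl, rfl, rfl⟩
            have h1 : tb E (ec b a) = true := by
              rcases I.hs a ha b hb ((I.hE a ha b hb).mpr ⟨c, hc, h⟩) with h | h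
              · exact h
              · simpa using d1 _ h
            obtain ⟨d, hd, h2⟩ := (I.hE b hb a ha).mp h1
            exact ⟨_, b, hb, a, ha, d, hd, h2, rfl, rfl, rfl⟩)
        have h2 : (Finset.univ : Finset ι) ⊆ (Finset.range k).image σ := by
          intro i _
          obtain ⟨_, _, a, ha, b, hb, c, hc, h, rfl, -, -⟩ := this i
          exact Finset.mem_image_of_mem _ (Finset.mem_range.mpr (I.hF a ha b hb c hc h).1)
        have h3 := (Finset.card_le_card h2).trans Finset.card_image_le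
        rw [Finset.card_univ, Finset.card_range] at h3
        omega
    | cons e r =>
      obtain ⟨A, B⟩ := e
      have hBA := d3 _ _ hd
      rw [hd] at h d1 d2
      simp only at h hBA
      have I' : Inv pos σ k E F w ((A, B) :: r) :=
        ⟨I.k16, I.inj, I.ne, I.hF, I.hE, fun a ha b hb h => (I.hs a ha b hb h).elim Or.inl
          (fun h => d1 _ h), fun e he => I.hs' e (d2 e he), I.hw⟩
      obtain ⟨hA, hB, hAB⟩ := I'.hs' (A, B) (by simp)
      simp only at hA hB hAB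
      obtain ⟨c0, hc0, hF0⟩ := (I.hE _ hA _ hB).mp hAB
      obtain ⟨hAk, hBk, -, f0, -⟩ := I.hF _ hA _ hB _ hc0 hF0
      obtain ⟨d, hd'⟩ := G.nb f0
      obtain ⟨σ', c, hσ, hc, hcn, inj, hf⟩ : ∃ (σ' : ℕ → ι) (c : ℕ), (∀ a < k, σ' a = σ a) ∧
          c ≤ k ∧ c < n ∧ (∀ a < cond (Nat.beq c k) (Nat.succ k) k,
            ∀ b < cond (Nat.beq c k) (Nat.succ k) k, σ' a = σ' b → a = b) ∧ σ' c = d := by
        by_cases hex : ∃ c < k, σ c = d
        · obtain ⟨c, hc, e⟩ := hex
          refine ⟨σ, c, fun _ _ => rfl, hc.le, by omega, ?_, e⟩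
          rw [beq_dec, decide_eq_false hc.ne]
          exact I.inj
        · have hlt : k < n := by
            refine lt_of_le_of_ne hkn fun e => hex ?_
            subst e
            rw [← hn]
            exact surj_of_inj (hn ▸ I.inj) d
          refine ⟨Function.update σ k d, k, fun a ha => Function.update_of_ne ha.ne _ _, le_rfl,
            hlt, ?_, Function.update_self _ _ _⟩
          rw [Nat.beq_refl]
          intro a ha b hb e
          simp only [cond_true] at ha hb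
          by_cases h1 : a = k <;> by_cases h2 : b = k
          · rw [h1, h2]
          · rw [h1, Function.update_self, Function.update_of_ne h2] at e
            exact absurd ⟨b, by omega, e.symm⟩ hex
          · rw [h2, Function.update_self, Function.update_of_ne h1] at e
            exact absurd ⟨a, by omega, e⟩ hex
          · rw [Function.update_of_ne h1, Function.update_of_ne h2] at e
            exact I.inj a (by omega) b (by omega) e
      have hk' : k ≤ cond (Nat.beq c k) (Nat.succ k) k ∧ cond (Nat.beq c k) (Nat.succ k) k ≤ 16 ∧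
          c < cond (Nat.beq c k) (Nat.succ k) k := by
        rw [beq_dec]
        by_cases e : c = k
        · rw [decide_eq_true e, cond_true]; omega
        · rw [decide_eq_false e, cond_false]; omega
      have hface : Face pos (σ' B) (σ' A) (σ' c) := by rwa [hσ _ hBk, hσ _ hAk, hf]
      have hc16 : c < 16 := by omega
      have h1 : tb E (ec A c) = false := by
        rw [Bool.eq_false_iff]
        intro h
        obtain ⟨x, hx, h⟩ := (I.hE _ hA _ hc16).mp h
        obtain ⟨-, a2, a3, a4, a5⟩ := I.hF _ hA _ hc16 _ hx h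
        rw [← hσ _ hAk, ← hσ _ a2, ← hσ _ a3] at a4
        have := inj x (by omega) B (by omega) (G.face_unique a4 (G.face_rot hface))
        subst this
        have a6 := (I.hF _ hc16 _ hx _ hA a5).2.2.2.2
        rw [(I.hE _ hx _ hA).mpr ⟨c, hc16, a6⟩] at hBA
        exact Bool.noConfusion hBA
      have h2 : tb E (ec c B) = false := by
        rw [Bool.eq_false_iff]
        intro h
        obtain ⟨x, hx, h⟩ := (I.hE _ hc16 _ hB).mp h
        obtain ⟨a1, -, a3, a4, a5⟩ := I.hF _ hc16 _ hB _ hx h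
        rw [← hσ _ hBk, ← hσ _ a1, ← hσ _ a3] at a4
        have := inj x (by omega) A (by omega) (G.face_unique a4 (G.face_rot (G.face_rot hface)))
        subst this
        rw [(I.hE _ hB _ hx).mpr ⟨c, hc16, a5⟩] at hBA
        exact Bool.noConfusion hBA
      have J := I'.extend (fun h => G.face_rot h) hk'.1 hk'.2.1 hσ inj hk'.2.2 hface h1 h2
      have h3 := (allLt_iff _ _).mp h c (by
        rw [beq_dec]
        by_cases e : k = n
        · rw [decide_eq_true e, cond_true]; exact hcn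
        · rw [decide_eq_false e, cond_false]; omega)
      have nA : Nat.beq c A = false := by
        rw [beq_dec, decide_eq_false]
        rintro rfl
        exact hface.2.1 rfl
      have nB : Nat.beq c B = false := by
        rw [beq_dec, decide_eq_false]
        rintro rfl
        exact hface.2.2.1 rfl
      have hb := (J.bound G).2
      rw [hn] at hb
      simp only [branch, force_eq, nA, nB, h1, h2, Bool.false_or, Bool.or_eq_true, Nat.blt_eq,
        Nat.add_eq, Nat.mul_eq, Nat.sub_eq] at h3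
      rcases h3 with h3 | h3
      · omega
      · exact ih _ _ _ _ _ _ J h3

theorem search_root (G : Good p vol pos) {n : ℕ} (hn : Fintype.card ι = n) (h16 : n ≤ 16)
    {Q : Prop} {leaf : ℕ → ℕ → Bool}
    (hleaf : ∀ (σ : ℕ → ι) (E F : ℕ), (∀ a < n, ∀ b < n, σ a = σ b → a = b) →
      (∀ a < 16, ∀ b < 16, ∀ c < 16, tb F (fc a b c) = true → Face pos (σ a) (σ b) (σ c)) →
      leaf E F = true → Q) (fuel : ℕ)
    (h : search n leaf fuel 3 (sb (sb (sb 0 (ec 0 1)) (ec 1 2)) (ec 2 0))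
      (sb (sb (sb 0 (fc 0 1 2)) (fc 1 2 0)) (fc 2 0 1)) 6 [(0, 1), (2, 0), (1, 2)] = true) : Q := by
  obtain ⟨x, y, z, hf⟩ := G.ex
  refine search_sound G hn h16 hleaf fuel (fun i => if i = 0 then x else if i = 1 then y else z)
    _ _ _ _ _ ?_ h
  have tE : ∀ a < 16, ∀ b < 16, tb (sb (sb (sb 0 (ec 0 1)) (ec 1 2)) (ec 2 0)) (ec a b) = true ↔
      (a = 0 ∧ b = 1) ∨ (a = 1 ∧ b = 2) ∨ (a = 2 ∧ b = 0) := by
    intro a ha b hb
    simp only [tb_sb, tb_zero, ec_eq, or_assoc, Bool.false_eq_true, false_or]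
    refine or_congr ?_ (or_congr ?_ ?_) <;> omega
  have tF : ∀ a < 16, ∀ b < 16, ∀ d < 16,
      tb (sb (sb (sb 0 (fc 0 1 2)) (fc 1 2 0)) (fc 2 0 1)) (fc a b d) = true ↔
      (a = 0 ∧ b = 1 ∧ d = 2) ∨ (a = 1 ∧ b = 2 ∧ d = 0) ∨ (a = 2 ∧ b = 0 ∧ d = 1) := by
    intro a ha b hb d hd
    simp only [tb_sb, tb_zero, fc_eq, or_assoc, Bool.false_eq_true, false_or]
    refine or_congr ?_ (or_congr ?_ ?_) <;> omega
  have h1 := hf.1
  have h2 := hf.2.1
  have h3 := hf.2.2.1
  refine ⟨by norm_num, ?_, ⟨0, by norm_num, 1, by norm_num, 2, by norm_num,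
    (tF _ (by norm_num) _ (by norm_num) _ (by norm_num)).mpr (by simp)⟩, ?_, ?_, ?_, ?_, ?_⟩
  · intro a ha b hb e
    have := h1.symm
    have := h2.symm
    have := h3.symm
    interval_cases a <;> interval_cases b <;> simp_all
  · intro a ha b hb c hc h
    rw [tF _ hb _ hc _ ha]
    rcases (tF _ ha _ hb _ hc).mp h with ⟨rfl, rfl, rfl⟩ | ⟨rfl, rfl, rfl⟩ | ⟨rfl, rfl, rfl⟩
    · simpa using hf
    · simpa using G.face_rot hf
    · simpa using G.face_rot (G.face_rot hf)
  · intro a ha b hb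
    rw [tE _ ha _ hb]
    constructor
    · rintro (⟨rfl, rfl⟩ | ⟨rfl, rfl⟩ | ⟨rfl, rfl⟩)
      · exact ⟨2, by norm_num, (tF _ ha _ hb _ (by norm_num)).mpr (by simp)⟩
      · exact ⟨0, by norm_num, (tF _ ha _ hb _ (by norm_num)).mpr (by simp)⟩
      · exact ⟨1, by norm_num, (tF _ ha _ hb _ (by norm_num)).mpr (by simp)⟩
    · rintro ⟨d, hd, h⟩
      rcases (tF _ ha _ hb _ hd).mp h with h | h | h
      · exact Or.inl ⟨h.1, h.2.1⟩
      · exact Or.inr (Or.inl ⟨h.1, h.2.1⟩)
      · exact Or.inr (Or.inr ⟨h.1, h.2.1⟩)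
  · intro a ha b hb h
    rcases (tE _ ha _ hb).mp h with ⟨rfl, rfl⟩ | ⟨rfl, rfl⟩ | ⟨rfl, rfl⟩ <;> simp
  · intro e he
    simp only [List.mem_cons, List.not_mem_nil, or_false] at he
    rcases he with rfl | rfl | rfl <;>
      exact ⟨by norm_num, by norm_num, (tE _ (by norm_num) _ (by norm_num)).mpr (by simp)⟩
  · refine ⟨{(0, 1), (1, 0), (1, 2), (2, 1), (2, 0), (0, 2)}, by decide, ?_⟩
    intro e he
    simp only [Finset.mem_insert, Finset.mem_singleton] at he
    rcases he with rfl | rfl | rfl | rfl | rfl | rfl <;>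
      refine ⟨by norm_num, by norm_num, ?_⟩ <;>
      rw [tE _ (by norm_num) _ (by norm_num), tE _ (by norm_num) _ (by norm_num)] <;> simp

end

end Pool.Agent.MP_2ab689_gt

end MrgPart2

-- ======== part 3: formerly Pool.Agent.MP_2ab689_gt.Opt9
section MrgPart3

/-!
The exact bound for the combinatorial type of the triaugmented triangular prism.
-/

namespace Pool.Agent.MP_2ab689_gt

/-- Cross product. -/
def crs (a b : V) : V := ![a 1 * b 2 - a 2 * b 1, a 2 * b 0 - a 0 * b 2, a 0 * b 1 - a 1 * b 0]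

theorem eq_zero_of_ip {a : V} (h : ip a a ≤ 0) : a = 0 := by
  unfold ip at h
  funext i
  fin_cases i
  · show a 0 = 0
    nlinarith [sq_nonneg (a 0), sq_nonneg (a 1), sq_nonneg (a 2)]
  · show a 1 = 0
    nlinarith [sq_nonneg (a 0), sq_nonneg (a 1), sq_nonneg (a 2)]
  · show a 2 = 0
    nlinarith [sq_nonneg (a 0), sq_nonneg (a 1), sq_nonneg (a 2)]

theorem det_id (x : ℝ) (n u v : V) : x ^ 2 * ip u u + ip n n * ip v v - 2 * x * det3 n u v =
    ip (x • u - crs v n) (x • u - crs v n) + (ip v n) ^ 2 := by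
  simp [ip, det3, crs]; ring

theorem det_le (x : ℝ) (n u v : V) : 0 ≤ x ^ 2 * ip u u + ip n n * ip v v - 2 * x * det3 n u v := by
  rw [det_id]; exact add_nonneg (ip_self_nonneg _) (sq_nonneg _)

theorem det_eq {x : ℝ} {n u v : V}
    (h : x ^ 2 * ip u u + ip n n * ip v v - 2 * x * det3 n u v ≤ 0) :
    x • u = crs v n ∧ ip v n = 0 := by
  rw [det_id] at h
  have h1 := ip_self_nonneg (x • u - crs v n)
  have h2 := sq_nonneg (ip v n)
  exact ⟨sub_eq_zero.mp (eq_zero_of_ip (by linarith)), pow_eq_zero_iff (two_ne_zero) |>.mp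
    (le_antisymm (by linarith) h2)⟩

section
variable {t h : ℝ}

theorem tri_id (ht : t ^ 2 = 3) (hh : h ^ 2 = 2 * t - 3) {a b c : V} (ha : ip a a = 1)
    (hb : ip b b = 1) (hc : ip c c = 1) :
    4 * (t * h) * (h * (9 - 3 * t) / 2 - (det3 a b c + h * (t - 1) / 6 * ip (a + b + c) (a + b + c)))
      = (ip (a + b + c) (a + b + c) / 3 - (t * h) ^ 2) ^ 2 +
      (((t * h) ^ 2 * ip (a + b - (2 : ℝ) • c) (a + b - (2 : ℝ) • c) +
        ip (a + b + c) (a + b + c) * ip (b - a) (b - a) -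
        2 * (t * h) * det3 (a + b + c) (a + b - (2 : ℝ) • c) (b - a)) +
      ((t * h) ^ 2 * ip ((3 : ℝ) • (a - b)) ((3 : ℝ) • (a - b)) +
        ip (a + b + c) (a + b + c) * ip (a + b - (2 : ℝ) • c) (a + b - (2 : ℝ) • c) -
        2 * (t * h) * det3 (a + b + c) ((3 : ℝ) • (a - b)) (a + b - (2 : ℝ) • c)) / 3) / 6 := by
  have e1 : det3 (a + b + c) (a + b - (2 : ℝ) • c) (b - a) = 6 * det3 a b c := by
    simp [det3]; ring
  have e2 : det3 (a + b + c) ((3 : ℝ) • (a - b)) (a + b - (2 : ℝ) • c) = 18 * det3 a b c := by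
    simp [det3]; ring
  have e3 : ip ((3 : ℝ) • (a - b)) ((3 : ℝ) • (a - b)) = 9 * ip (b - a) (b - a) := by
    simp [ip]; ring
  have e4 : ip (a + b - (2 : ℝ) • c) (a + b - (2 : ℝ) • c) =
      18 - 2 * ip (a + b + c) (a + b + c) - 3 * ip (b - a) (b - a) := by
    simp only [ip, Pi.add_apply, Pi.sub_apply, Pi.smul_apply, smul_eq_mul] at *
    linear_combination 6 * ha + 6 * hb + 6 * hc
  rw [e1, e2, e3, e4]
  generalize ip (a + b + c) (a + b + c) = X
  generalize ip (b - a) (b - a) = Y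
  have h4 : h ^ 4 = 21 - 12 * t := by
    linear_combination (h ^ 2 + 2 * t - 3) * hh + 4 * ht
  linear_combination (-6 * h ^ 2 - (t ^ 2 + 3) * h ^ 4 + X * h ^ 2 / 3 - 3 * h ^ 2) * ht +
    (18 * t - 27 + (1 + 2 / 3 * t) * X) * hh - 9 * h4 + (36 + 4 / 3 * X) * ht

theorem tri_le (ht : t ^ 2 = 3) (hh : h ^ 2 = 2 * t - 3) (t0 : 0 < t) (h0 : 0 < h) {a b c : V}
    (ha : ip a a = 1) (hb : ip b b = 1) (hc : ip c c = 1) :
    det3 a b c + h * (t - 1) / 6 * ip (a + b + c) (a + b + c) ≤ h * (9 - 3 * t) / 2 := by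
  have e := tri_id ht hh ha hb hc
  have h1 := det_le (t * h) (a + b + c) (a + b - (2 : ℝ) • c) (b - a)
  have h2 := det_le (t * h) (a + b + c) ((3 : ℝ) • (a - b)) (a + b - (2 : ℝ) • c)
  have h3 := sq_nonneg (ip (a + b + c) (a + b + c) / 3 - (t * h) ^ 2)
  have h4 : 0 < 4 * (t * h) := by positivity
  have := (mul_nonneg_iff_of_pos_left h4).mp (le_of_le_of_eq (by linarith) e.symm)
  linarith

theorem tri_eq (ht : t ^ 2 = 3) (hh : h ^ 2 = 2 * t - 3) {a b c : V}
    (ha : ip a a = 1) (hb : ip b b = 1) (hc : ip c c = 1)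
    (he : det3 a b c + h * (t - 1) / 6 * ip (a + b + c) (a + b + c) = h * (9 - 3 * t) / 2) :
    ip (a + b + c) (a + b + c) = 9 * h ^ 2 ∧
      (t * h) • (a + b - (2 : ℝ) • c) = crs (b - a) (a + b + c) ∧ ip a b = 3 * t - 5 := by
  have e := tri_id ht hh ha hb hc
  rw [he, sub_self, mul_zero] at e
  have h1 := det_le (t * h) (a + b + c) (a + b - (2 : ℝ) • c) (b - a)
  have h2 := det_le (t * h) (a + b + c) ((3 : ℝ) • (a - b)) (a + b - (2 : ℝ) • c)
  have h3 := sq_nonneg (ip (a + b + c) (a + b + c) / 3 - (t * h) ^ 2)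
  obtain ⟨k1, k2⟩ := det_eq (x := t * h) (n := a + b + c) (u := a + b - (2 : ℝ) • c) (v := b - a)
    (by linarith)
  obtain ⟨-, k3⟩ := det_eq (x := t * h) (n := a + b + c) (u := (3 : ℝ) • (a - b))
    (v := a + b - (2 : ℝ) • c) (by linarith)
  have k4 : ip (a + b + c) (a + b + c) / 3 - (t * h) ^ 2 = 0 :=
    pow_eq_zero_iff two_ne_zero |>.mp (le_antisymm (by linarith) h3)
  have k5 : ip (a + b + c) (a + b + c) = 9 * h ^ 2 := by
    linear_combination 3 * k4 + 3 * h ^ 2 * ht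
  refine ⟨k5, k1, ?_⟩
  simp only [ip, Pi.add_apply, Pi.sub_apply, Pi.smul_apply, smul_eq_mul] at *
  linear_combination k5 / 6 + k3 / 3 + 3 / 2 * hh - ha / 2 - hb / 2 + hc / 2

/-- Six times the volume of a triaugmented triangular prism. -/
def phi9 (a0 a1 a2 b0 b1 b2 q0 q1 q2 : V) : ℝ :=
  det3 a0 a1 a2 + det3 b0 b2 b1 +
    (det3 q0 b0 b1 + det3 q0 b1 a1 + det3 q0 a1 a0 + det3 q0 a0 b0) +
    (det3 q1 b1 b2 + det3 q1 b2 a2 + det3 q1 a2 a1 + det3 q1 a1 b1) +
    (det3 q2 b2 b0 + det3 q2 b0 a0 + det3 q2 a0 a2 + det3 q2 a2 b2)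

/-- Slack of a lateral pyramid. -/
def slk (x : ℝ) (q a a' b b' : V) : ℝ :=
  x ^ 2 * ip (a + b - (a' + b')) (a + b - (a' + b')) +
    ip q q * ip (b + b' - (a + a')) (b + b' - (a + a')) -
    2 * x * det3 q (a + b - (a' + b')) (b + b' - (a + a'))

theorem phi9_id (ht : t ^ 2 = 3) (hh : h ^ 2 = 2 * t - 3) {a0 a1 a2 b0 b1 b2 q0 q1 q2 : V}
    (ha0 : ip a0 a0 = 1) (ha1 : ip a1 a1 = 1) (ha2 : ip a2 a2 = 1) (hb0 : ip b0 b0 = 1)
    (hb1 : ip b1 b1 = 1) (hb2 : ip b2 b2 = 1) (hq0 : ip q0 q0 = 1) (hq1 : ip q1 q1 = 1)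
    (hq2 : ip q2 q2 = 1) :
    18 * h - phi9 a0 a1 a2 b0 b1 b2 q0 q1 q2 =
      (h * (9 - 3 * t) / 2 -
        (det3 a0 a1 a2 + h * (t - 1) / 6 * ip (a0 + a1 + a2) (a0 + a1 + a2))) +
      (h * (9 - 3 * t) / 2 -
        (det3 b0 b2 b1 + h * (t - 1) / 6 * ip (b0 + b2 + b1) (b0 + b2 + b1))) +
      h * (t + 1) / 8 * (slk (h * (3 + t) / 3) q0 a0 a1 b0 b1 +
        slk (h * (3 + t) / 3) q1 a1 a2 b1 b2 + slk (h * (3 + t) / 3) q2 a2 a0 b2 b0) +
      h * (t + 1) / 6 * ip (a0 + a1 + a2 + (b0 + b1 + b2)) (a0 + a1 + a2 + (b0 + b1 + b2)) +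
      h * (5 + t) / 24 * (ip (a0 - b0 - (a1 - b1)) (a0 - b0 - (a1 - b1)) +
        ip (a1 - b1 - (a2 - b2)) (a1 - b1 - (a2 - b2)) +
        ip (a2 - b2 - (a0 - b0)) (a2 - b2 - (a0 - b0))) := by
  have hs : h * (t + 1) / 2 * (h * (3 + t) / 3) = 1 := by
    linear_combination (t + 1) * (3 + t) / 6 * hh + (2 * t + 5) / 6 * ht
  have q : ∀ q a a' b b' : V, ip q q = 1 → h * (t + 1) / 8 * slk (h * (3 + t) / 3) q a a' b b' =
      (h * (3 + t) / 3 * ip (a + b - (a' + b')) (a + b - (a' + b')) +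
        h * (t + 1) / 2 * ip (b + b' - (a + a')) (b + b' - (a + a'))) / 4 -
        (det3 q b b' + det3 q b' a' + det3 q a' a + det3 q a b) := by
    intro q a a' b b' hq
    have e : det3 q (a + b - (a' + b')) (b + b' - (a + a')) =
        2 * (det3 q b b' + det3 q b' a' + det3 q a' a + det3 q a b) := by
      simp [det3]; ring
    rw [slk, e, hq]
    linear_combination (h * (3 + t) / 3 * ip (a + b - (a' + b')) (a + b - (a' + b')) / 4 -
      (det3 q b b' + det3 q b' a' + det3 q a' a + det3 q a b)) * hs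
  rw [mul_add (h * (t + 1) / 8), mul_add (h * (t + 1) / 8), q _ _ _ _ _ hq0, q _ _ _ _ _ hq1,
    q _ _ _ _ _ hq2, phi9]
  simp only [ip, Pi.add_apply, Pi.sub_apply] at *
  linear_combination (-(h * (3 + t) / 2)) * (ha0 + ha1 + ha2 + hb0 + hb1 + hb2)

theorem phi9_le (ht : t ^ 2 = 3) (hh : h ^ 2 = 2 * t - 3) (t0 : 0 < t) (h0 : 0 < h)
    {a0 a1 a2 b0 b1 b2 q0 q1 q2 : V}
    (ha0 : ip a0 a0 = 1) (ha1 : ip a1 a1 = 1) (ha2 : ip a2 a2 = 1) (hb0 : ip b0 b0 = 1)
    (hb1 : ip b1 b1 = 1) (hb2 : ip b2 b2 = 1) (hq0 : ip q0 q0 = 1) (hq1 : ip q1 q1 = 1)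
    (hq2 : ip q2 q2 = 1) : phi9 a0 a1 a2 b0 b1 b2 q0 q1 q2 ≤ 18 * h := by
  have e := phi9_id ht hh ha0 ha1 ha2 hb0 hb1 hb2 hq0 hq1 hq2
  have h1 := tri_le ht hh t0 h0 ha0 ha1 ha2
  have h2 := tri_le ht hh t0 h0 hb0 hb2 hb1
  have h3 : 0 ≤ h * (t + 1) / 8 * (slk (h * (3 + t) / 3) q0 a0 a1 b0 b1 +
      slk (h * (3 + t) / 3) q1 a1 a2 b1 b2 + slk (h * (3 + t) / 3) q2 a2 a0 b2 b0) :=
    mul_nonneg (by positivity) (add_nonneg (add_nonneg (det_le _ _ _ _) (det_le _ _ _ _))
      (det_le _ _ _ _))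
  have h4 := mul_nonneg (by positivity : 0 ≤ h * (t + 1) / 6)
    (ip_self_nonneg (a0 + a1 + a2 + (b0 + b1 + b2)))
  have h5 := mul_nonneg (by positivity : 0 ≤ h * (5 + t) / 24)
    (add_nonneg (add_nonneg (ip_self_nonneg (a0 - b0 - (a1 - b1)))
      (ip_self_nonneg (a1 - b1 - (a2 - b2)))) (ip_self_nonneg (a2 - b2 - (a0 - b0))))
  linarith

theorem apex_eq (ht : t ^ 2 = 3) (h0 : 0 < h) {a a' c b b' q : V}
    (h1 : ip (a + a' + c) (a + a' + c) = 9 * h ^ 2)
    (h2 : (t * h) • (a + a' - (2 : ℝ) • c) = crs (a' - a) (a + a' + c))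
    (hb : b = a - (2 / 3 : ℝ) • (a + a' + c)) (hb' : b' = a' - (2 / 3 : ℝ) • (a + a' + c))
    (hs : slk (h * (3 + t) / 3) q a a' b b' ≤ 0) :
    q = ((t + 1) / 6) • (a + a' - (2 : ℝ) • c) := by
  obtain ⟨k1, k2⟩ := det_eq hs
  have e1 : a + b - (a' + b') = (-2 : ℝ) • (a' - a) := by
    rw [hb, hb']; funext i; simp; ring
  have e2 : b + b' - (a + a') = (-4 / 3 : ℝ) • (a + a' + c) := by
    rw [hb, hb']; funext i; simp; ring
  rw [e1, e2] at k1
  rw [e2] at k2
  generalize a + a' + c = s at *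
  generalize a + a' - (2 : ℝ) • c = F at *
  generalize a' - a = d at *
  have c0 := congrFun k1 0
  have c1 := congrFun k1 1
  have c2 := congrFun k1 2
  have d0 := congrFun h2 0
  have d1 := congrFun h2 1
  have d2 := congrFun h2 2
  simp [crs, ip] at c0 c1 c2 d0 d1 d2 k2 h1
  have hp : h ^ 2 ≠ 0 := by positivity
  funext i
  fin_cases i
  · show q 0 = (t + 1) / 6 * F 0
    apply mul_left_cancel₀ hp
    linear_combination (-(h * (3 + t) / 18)) * d0 + (s 2 / 12) * c1 - (s 1 / 12) * c2 -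
      q 0 / 9 * h1 - s 0 / 12 * k2 + h ^ 2 * F 0 / 18 * ht
  · show q 1 = (t + 1) / 6 * F 1
    apply mul_left_cancel₀ hp
    linear_combination (-(h * (3 + t) / 18)) * d1 + (s 0 / 12) * c2 - (s 2 / 12) * c0 -
      q 1 / 9 * h1 - s 1 / 12 * k2 + h ^ 2 * F 1 / 18 * ht
  · show q 2 = (t + 1) / 6 * F 2
    apply mul_left_cancel₀ hp
    linear_combination (-(h * (3 + t) / 18)) * d2 + (s 1 / 12) * c0 - (s 0 / 12) * c1 -
      q 2 / 9 * h1 - s 2 / 12 * k2 + h ^ 2 * F 2 / 18 * ht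

theorem phi9_eq (ht : t ^ 2 = 3) (hh : h ^ 2 = 2 * t - 3) (t0 : 0 < t) (h0 : 0 < h)
    {a0 a1 a2 b0 b1 b2 q0 q1 q2 : V}
    (ha0 : ip a0 a0 = 1) (ha1 : ip a1 a1 = 1) (ha2 : ip a2 a2 = 1) (hb0 : ip b0 b0 = 1)
    (hb1 : ip b1 b1 = 1) (hb2 : ip b2 b2 = 1) (hq0 : ip q0 q0 = 1) (hq1 : ip q1 q1 = 1)
    (hq2 : ip q2 q2 = 1) (he : 18 * h ≤ phi9 a0 a1 a2 b0 b1 b2 q0 q1 q2) :
    (ip a0 a1 = 3 * t - 5 ∧ ip a1 a2 = 3 * t - 5 ∧ ip a2 a0 = 3 * t - 5) ∧
    (b0 = a0 - (2 / 3 : ℝ) • (a0 + a1 + a2) ∧ b1 = a1 - (2 / 3 : ℝ) • (a0 + a1 + a2) ∧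
      b2 = a2 - (2 / 3 : ℝ) • (a0 + a1 + a2)) ∧
    (q0 = ((t + 1) / 6) • (a0 + a1 - (2 : ℝ) • a2) ∧ q1 = ((t + 1) / 6) • (a1 + a2 - (2 : ℝ) • a0) ∧
      q2 = ((t + 1) / 6) • (a2 + a0 - (2 : ℝ) • a1)) := by
  have e := phi9_id ht hh ha0 ha1 ha2 hb0 hb1 hb2 hq0 hq1 hq2
  have h1 := tri_le ht hh t0 h0 ha0 ha1 ha2
  have h2 := tri_le ht hh t0 h0 hb0 hb2 hb1
  have s0 : 0 ≤ slk (h * (3 + t) / 3) q0 a0 a1 b0 b1 := det_le _ _ _ _
  have s1 : 0 ≤ slk (h * (3 + t) / 3) q1 a1 a2 b1 b2 := det_le _ _ _ _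
  have s2 : 0 ≤ slk (h * (3 + t) / 3) q2 a2 a0 b2 b0 := det_le _ _ _ _
  have p3 : 0 < h * (t + 1) / 8 := by positivity
  have p4 : 0 < h * (t + 1) / 6 := by positivity
  have p5 : 0 < h * (5 + t) / 24 := by positivity
  have w0 := ip_self_nonneg (a0 - b0 - (a1 - b1))
  have w1 := ip_self_nonneg (a1 - b1 - (a2 - b2))
  have w2 := ip_self_nonneg (a2 - b2 - (a0 - b0))
  have h3 := mul_nonneg p3.le (add_nonneg (add_nonneg s0 s1) s2)
  have h4 := mul_nonneg p4.le (ip_self_nonneg (a0 + a1 + a2 + (b0 + b1 + b2)))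
  have h5 := mul_nonneg p5.le (add_nonneg (add_nonneg w0 w1) w2)
  have k3 := nonpos_of_mul_nonpos_right (le_of_eq (le_antisymm (by linarith) h3)) p3
  have k4 := eq_zero_of_ip
    (nonpos_of_mul_nonpos_right (le_of_eq (le_antisymm (by linarith) h4)) p4)
  have k5 := nonpos_of_mul_nonpos_right (le_of_eq (le_antisymm (by linarith) h5)) p5
  have u0 := eq_zero_of_ip (a := a0 - b0 - (a1 - b1)) (by linarith)
  have u1 := eq_zero_of_ip (a := a1 - b1 - (a2 - b2)) (by linarith)
  have e0 : det3 a0 a1 a2 + h * (t - 1) / 6 * ip (a0 + a1 + a2) (a0 + a1 + a2) =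
      h * (9 - 3 * t) / 2 := by linarith
  have r1 : a1 + a2 + a0 = a0 + a1 + a2 := by abel
  have r2 : a2 + a0 + a1 = a0 + a1 + a2 := by abel
  obtain ⟨m0, n0, g0⟩ := tri_eq ht hh ha0 ha1 ha2 e0
  obtain ⟨m1, n1, g1⟩ := tri_eq ht hh ha1 ha2 ha0 (by rw [det3_rot, r1]; exact e0)
  obtain ⟨m2, n2, g2⟩ := tri_eq ht hh ha2 ha0 ha1 (by rw [← det3_rot, r2]; exact e0)
  have f0 : b0 = a0 - (2 / 3 : ℝ) • (a0 + a1 + a2) := by
    funext i
    have := congrFun k4 i
    have := congrFun u0 i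
    have := congrFun u1 i
    simp only [Pi.add_apply, Pi.sub_apply, Pi.smul_apply, smul_eq_mul, Pi.zero_apply] at *
    linarith
  have f1 : b1 = a1 - (2 / 3 : ℝ) • (a0 + a1 + a2) := by
    funext i
    have := congrFun k4 i
    have := congrFun u0 i
    have := congrFun u1 i
    simp only [Pi.add_apply, Pi.sub_apply, Pi.smul_apply, smul_eq_mul, Pi.zero_apply] at *
    linarith
  have f2 : b2 = a2 - (2 / 3 : ℝ) • (a0 + a1 + a2) := by
    funext i
    have := congrFun k4 i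
    have := congrFun u0 i
    have := congrFun u1 i
    simp only [Pi.add_apply, Pi.sub_apply, Pi.smul_apply, smul_eq_mul, Pi.zero_apply] at *
    linarith
  exact ⟨⟨g0, g1, g2⟩, ⟨f0, f1, f2⟩, apex_eq ht h0 m0 n0 f0 f1 (by linarith),
    apex_eq ht h0 m1 n1 (r1 ▸ f1) (r1 ▸ f2) (by linarith),
    apex_eq ht h0 m2 n2 (r2 ▸ f2) (r2 ▸ f0) (by linarith)⟩

end

end Pool.Agent.MP_2ab689_gt

end MrgPart3

-- ======== part 4: formerly Pool.Agent.MP_2ab689_gt.Sector
section MrgPart4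

/-!
Pairwise disjoint open plane sectors have total angle at most `2 π`; orthonormal frames.
-/

namespace Pool.Agent.MP_2ab689_gt

open MeasureTheory Real

theorem sector_point (w₁ w₂ : ℂ) (h : 0 < (w₂ * (starRingEnd ℂ) w₁).im) (ψ : ℝ) (h0 : 0 < ψ)
    (h1 : ψ < Complex.arg (w₂ * (starRingEnd ℂ) w₁)) :
    ∃ s t : ℝ, 0 < s ∧ 0 < t ∧
      Complex.exp ((Complex.arg w₁ + ψ : ℝ) * Complex.I) = s * w₁ + t * w₂ := by
  set z := w₂ * (starRingEnd ℂ) w₁ with hz
  set θ := Complex.arg z with hθ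
  have hz0 : z ≠ 0 := fun e => by simp [e] at h
  have hw1 : w₁ ≠ 0 := fun e => hz0 (by simp [hz, e])
  have hθπ : θ < π := Complex.arg_lt_pi_iff.mpr (Or.inr h.ne')
  have hn1 : 0 < ‖w₁‖ := norm_pos_iff.mpr hw1
  have hnz : 0 < ‖z‖ := norm_pos_iff.mpr hz0
  have hs : 0 < sin θ := sin_pos_of_pos_of_lt_pi (h0.trans h1) hθπ
  have hs1 : 0 < sin ψ := sin_pos_of_pos_of_lt_pi h0 (h1.trans hθπ)
  have hs2 : 0 < sin (θ - ψ) := sin_pos_of_pos_of_lt_pi (by linarith) (by linarith)
  have e1 : (‖w₁‖ : ℂ) * Complex.exp (Complex.arg w₁ * Complex.I) = w₁ :=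
    Complex.norm_mul_exp_arg_mul_I w₁
  have e2 : (‖z‖ : ℂ) * Complex.exp (θ * Complex.I) = z := Complex.norm_mul_exp_arg_mul_I z
  have e3 : z * w₁ = w₂ * (‖w₁‖ : ℂ) ^ 2 := by
    rw [hz, mul_assoc, Complex.conj_mul']
  have e4 : (sin θ : ℂ) * Complex.exp (ψ * Complex.I)
      = (sin (θ - ψ) : ℂ) + (sin ψ : ℂ) * Complex.exp (θ * Complex.I) := by
    rw [Complex.exp_mul_I, Complex.exp_mul_I, Real.sin_sub]
    push_cast
    ring
  have c1 : (‖w₁‖ : ℂ) ≠ 0 := by exact_mod_cast hn1.ne'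
  have c2 : (‖z‖ : ℂ) ≠ 0 := by exact_mod_cast hnz.ne'
  have c3 : (sin θ : ℂ) ≠ 0 := by exact_mod_cast hs.ne'
  refine ⟨sin (θ - ψ) / (sin θ * ‖w₁‖), sin ψ * ‖w₁‖ / (sin θ * ‖z‖), by positivity,
    by positivity, ?_⟩
  have e5 : Complex.exp (Complex.arg w₁ * Complex.I) = w₁ / ‖w₁‖ := by
    rw [eq_div_iff c1, mul_comm, e1]
  have e6 : Complex.exp (θ * Complex.I) = z / ‖z‖ := by
    rw [eq_div_iff c2, mul_comm, e2]
  have e7 : Complex.exp (ψ * Complex.I)
      = ((sin (θ - ψ) : ℂ) + (sin ψ : ℂ) * (z / ‖z‖)) / (sin θ : ℂ) := by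
    rw [eq_div_iff c3, mul_comm, e4, e6]
  have e8 : w₂ = z * w₁ / (‖w₁‖ : ℂ) ^ 2 := by
    rw [e3]; field_simp
  rw [Complex.ofReal_add, add_mul, Complex.exp_add, e5, e7]
  generalize sin (θ - ψ) = A at *
  generalize sin ψ = B at *
  generalize sin θ = C at *
  push_cast
  rw [e8]
  field_simp

theorem sector_sum {κ : Type} (s : Finset κ) (w₁ w₂ : κ → ℂ)
    (h : ∀ e ∈ s, 0 < (w₂ e * (starRingEnd ℂ) (w₁ e)).im)
    (hd : ∀ e ∈ s, ∀ e' ∈ s, e ≠ e' → ∀ a b a' b' : ℝ, 0 < a → 0 < b → 0 < a' → 0 < b' →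
      (a : ℂ) * w₁ e + b * w₂ e ≠ a' * w₁ e' + b' * w₂ e') :
    ∑ e ∈ s, Complex.arg (w₂ e * (starRingEnd ℂ) (w₁ e)) ≤ 2 * π := by
  have : Fact (0 < 2 * π) := ⟨two_pi_pos⟩
  set θ : κ → ℝ := fun e => Complex.arg (w₂ e * (starRingEnd ℂ) (w₁ e)) with hθ
  have hθ0 : ∀ e ∈ s, 0 ≤ θ e := fun e he => Complex.arg_nonneg_iff.mpr (h e he).le
  have hθ1 : ∀ e, θ e ≤ π := fun e => Complex.arg_le_pi _
  let B : κ → Set (AddCircle (2 * π)) := fun e =>
    Metric.ball (((Complex.arg (w₁ e) + θ e / 2 : ℝ)) : AddCircle (2 * π)) (θ e / 2)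
  have hB : ∀ e, ∀ φ ∈ B e, ∃ ψ : ℝ, 0 < ψ ∧ ψ < θ e ∧
      φ = ((Complex.arg (w₁ e) + ψ : ℝ) : AddCircle (2 * π)) := by
    intro e φ hφ
    rw [mem_ball_iff_norm, QuotientAddGroup.norm_lt_iff] at hφ
    obtain ⟨m, hm, hm'⟩ := hφ
    rw [Real.norm_eq_abs, abs_lt] at hm'
    refine ⟨θ e / 2 + m, by linarith, by linarith, ?_⟩
    rw [← add_assoc, AddCircle.coe_add, hm]
    abel
  have hdisj : (s : Set κ).PairwiseDisjoint B := by
    intro e he e' he' hne
    rw [Function.onFun, Set.disjoint_left]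
    intro φ h1 h2
    obtain ⟨ψ, p0, p1, p2⟩ := hB e φ h1
    obtain ⟨ψ', q0, q1, q2⟩ := hB e' φ h2
    obtain ⟨a, b, ha, hb, hab⟩ := sector_point _ _ (h e he) ψ p0 p1
    obtain ⟨a', b', ha', hb', hab'⟩ := sector_point _ _ (h e' he') ψ' q0 q1
    refine hd e he e' he' hne a b a' b' ha hb ha' hb' ?_
    rw [← hab, ← hab']
    have h3 := p2.symm.trans q2
    rw [← sub_eq_zero, ← AddCircle.coe_sub, AddCircle.coe_eq_zero_iff] at h3
    obtain ⟨k, hk⟩ := h3
    rw [Complex.exp_eq_exp_iff_exists_int]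
    refine ⟨k, ?_⟩
    have : (Complex.arg (w₁ e) + ψ : ℝ) = (Complex.arg (w₁ e') + ψ') + k * (2 * π) := by
      rw [zsmul_eq_mul] at hk; linarith
    rw [this]
    push_cast
    ring
  have hvol : ∀ e ∈ s, volume (B e) = ENNReal.ofReal (θ e) := by
    intro e _
    rw [← measure_congr AddCircle.closedBall_ae_eq_ball, AddCircle.volume_closedBall,
      min_eq_right (by linarith [hθ1 e, pi_pos])]
    congr 1
    ring
  have h1 : volume (⋃ e ∈ s, B e) ≤ ENNReal.ofReal (2 * π) := by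
    rw [← AddCircle.measure_univ]
    exact measure_mono (Set.subset_univ _)
  rw [measure_biUnion_finset hdisj (fun e _ => measurableSet_ball), Finset.sum_congr rfl hvol,
    ← ENNReal.ofReal_sum_of_nonneg hθ0, ENNReal.ofReal_le_ofReal_iff two_pi_pos.le] at h1
  exact h1

theorem exists_frame {u : V} (hu : ip u u = 1) : ∃ e f : V,
    (∀ A B, det3 u A B = ip A e * ip B f - ip A f * ip B e) ∧
    ∀ A, (ip A e) ^ 2 + (ip A f) ^ 2 = ip A A - (ip u A) ^ 2 := by
  obtain ⟨e, hee, heu⟩ : ∃ e : V, ip e e = 1 ∧ ip e u = 0 := by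
    by_cases h : u 0 ^ 2 + u 1 ^ 2 = 0
    · have h0 : u 0 = 0 := by nlinarith [sq_nonneg (u 0), sq_nonneg (u 1)]
      exact ⟨![1, 0, 0], by simp [ip], by simp [ip, h0]⟩
    · have hp : 0 < u 0 ^ 2 + u 1 ^ 2 := lt_of_le_of_ne (by positivity) (Ne.symm h)
      have hs : 0 < √(u 0 ^ 2 + u 1 ^ 2) := Real.sqrt_pos.mpr hp
      have hs2 := Real.sq_sqrt hp.le
      refine ⟨![-u 1 / √(u 0 ^ 2 + u 1 ^ 2), u 0 / √(u 0 ^ 2 + u 1 ^ 2), 0], ?_, ?_⟩
      · simp only [ip, Matrix.cons_val_zero, Matrix.cons_val_one, Matrix.cons_val_two,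
          Matrix.head_cons, Matrix.tail_cons]
        field_simp
        linarith
      · simp only [ip, Matrix.cons_val_zero, Matrix.cons_val_one, Matrix.cons_val_two,
          Matrix.head_cons, Matrix.tail_cons]
        ring
  refine ⟨e, ![u 1 * e 2 - u 2 * e 1, u 2 * e 0 - u 0 * e 2, u 0 * e 1 - u 1 * e 0], ?_, ?_⟩
  · intro A B
    simp only [ip, det3, Matrix.cons_val_zero, Matrix.cons_val_one, Matrix.cons_val_two,
      Matrix.head_cons, Matrix.tail_cons] at *
    linear_combination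
      (-(u 0 * (A 1 * B 2 - A 2 * B 1) - u 1 * (A 0 * B 2 - A 2 * B 0)
        + u 2 * (A 0 * B 1 - A 1 * B 0))) * hee +
      (e 0 * (A 1 * B 2 - A 2 * B 1) - e 1 * (A 0 * B 2 - A 2 * B 0)
        + e 2 * (A 0 * B 1 - A 1 * B 0)) * heu
  · intro A
    have G : (ip A ![u 1 * e 2 - u 2 * e 1, u 2 * e 0 - u 0 * e 2, u 0 * e 1 - u 1 * e 0]) ^ 2 =
        ip A A * (ip u u * ip e e - ip e u ^ 2) - ip u A * (ip u A * ip e e - ip e u * ip A e)
          + ip A e * (ip u A * ip e u - ip u u * ip A e) := by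
      simp only [ip, Matrix.cons_val_zero, Matrix.cons_val_one, Matrix.cons_val_two,
        Matrix.head_cons, Matrix.tail_cons]
      ring
    rw [G, hu, hee, heu]
    ring

end Pool.Agent.MP_2ab689_gt

end MrgPart4

-- ======== part 5: formerly Pool.Agent.MP_2ab689_gt.Generic
section MrgPart5

/-!
Facets of a generic point configuration: gift wrapping, counting, covering and the angle bound.
-/

namespace Pool.Agent.MP_2ab689_gt

open Real

variable {ι : Type} [Fintype ι]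

/-- Generic position. -/
structure Gen (q : ι → V) : Prop where
  t4 : ∀ a b c d, a ≠ b → a ≠ c → a ≠ d → b ≠ c → b ≠ d → c ≠ d → T4 (q a) (q b) (q c) (q d) ≠ 0
  h2 : ∀ a b c, a ≠ b → a ≠ c → b ≠ c →
    (q b 0 - q a 0) * (q c 1 - q a 1) - (q c 0 - q a 0) * (q b 1 - q a 1) ≠ 0
  h1 : ∀ a b, a ≠ b → q a 0 ≠ q b 0

/-- The orientation predicate. -/
def posq (q : ι → V) (a b c d : ι) : Prop := 0 < T4 (q a) (q b) (q c) (q d)

omit [Fintype ι] in
theorem face_nonneg {q : ι → V} {a b c : ι} (h : Face (posq q) a b c) (l : ι) :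
    0 ≤ T4 (q a) (q b) (q c) (q l) := by
  by_cases h1 : l = a
  · rw [h1, T4_self1]
  by_cases h2 : l = b
  · rw [h2, T4_self2]
  by_cases h3 : l = c
  · rw [h3, T4_self3]
  exact (h.2.2.2 l h1 h2 h3).le

omit [Fintype ι] in
theorem face_eq_zero {q : ι → V} {a b c : ι} (h : Face (posq q) a b c) {l : ι}
    (h0 : T4 (q a) (q b) (q c) (q l) = 0) : l = a ∨ l = b ∨ l = c := by
  by_contra hc
  push Not at hc
  exact (h.2.2.2 l hc.1 hc.2.1 hc.2.2).ne' h0

theorem Gen.wrap {q : ι → V} (hq : Gen q) {a b : ι} (hab : a ≠ b) (c : V)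
    (h : ∀ l, l ≠ a → l ≠ b → 0 < T4 (q a) (q b) c (q l) ∨ q l = c)
    (hz : ∃ z, z ≠ a ∧ z ≠ b ∧ 0 < T4 (q a) (q b) c (q z)) : ∃ d, Face (posq q) b a d := by
  classical
  obtain ⟨z, hza, hzb, hz⟩ := hz
  obtain ⟨d, hd, hmax⟩ := Finset.exists_max_image
    (Finset.univ.filter fun l => l ≠ a ∧ l ≠ b ∧ 0 < T4 (q a) (q b) c (q l))
    (fun l => T4 (q a) (q b) (q z) (q l) / T4 (q a) (q b) c (q l))
    ⟨z, Finset.mem_filter.mpr ⟨Finset.mem_univ _, hza, hzb, hz⟩⟩
  obtain ⟨-, hda, hdb, hd⟩ := Finset.mem_filter.mp hd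
  refine ⟨d, hab.symm, hda.symm, hdb, fun l hlb hla hld => ?_⟩
  have e : T4 (q b) (q a) (q d) (q l) = T4 (q a) (q b) (q l) (q d) := (T4_swp _ _ _ _)
  rw [posq, e]
  rcases h l hla hlb with hl | hl
  · have h1 := hmax l (Finset.mem_filter.mpr ⟨Finset.mem_univ _, hla, hlb, hl⟩)
    rw [div_le_div_iff₀ hl hd] at h1
    have h2 := T4_gp (q a) (q b) c (q l) (q z) (q d)
    rw [T4_swap34 (q a) (q b) (q z) (q l)] at h2
    have h3 : 0 ≤ T4 (q a) (q b) c (q z) * T4 (q a) (q b) (q l) (q d) := by nlinarith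
    exact lt_of_le_of_ne (nonneg_of_mul_nonneg_right h3 hz)
      (hq.t4 a b l d hab hla.symm hda.symm hlb.symm hdb.symm hld).symm
  · rw [hl]; exact hd

theorem exists_third (h4 : 4 ≤ Fintype.card ι) (a b c : ι) : ∃ z, z ≠ a ∧ z ≠ b ∧ z ≠ c := by
  classical
  have : 0 < (Finset.univ \ ({a, b, c} : Finset ι)).card := by
    have := Finset.card_le_three (a := a) (b := b) (c := c)
    rw [Finset.card_univ_sdiff]; omega
  obtain ⟨k, hk⟩ := Finset.card_pos.mp this
  simp only [Finset.mem_sdiff, Finset.mem_univ, Finset.mem_insert, Finset.mem_singleton,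
    true_and, not_or] at hk
  exact ⟨k, hk⟩

theorem Gen.ex {q : ι → V} (hq : Gen q) (h4 : 4 ≤ Fintype.card ι) :
    ∃ a b c, Face (posq q) a b c := by
  classical
  have : Nonempty ι := Fintype.card_pos_iff.mp (by omega)
  obtain ⟨a, -, ha⟩ := Finset.exists_min_image Finset.univ (fun l => q l 0) Finset.univ_nonempty
  have hX : ∀ l, l ≠ a → 0 < q l 0 - q a 0 := fun l hl =>
    sub_pos.mpr (lt_of_le_of_ne (ha l (Finset.mem_univ _)) (hq.h1 a l hl.symm))
  obtain ⟨z0, hz0, -⟩ := exists_third h4 a a a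
  obtain ⟨b, hb, hmin⟩ := Finset.exists_min_image (Finset.univ.filter fun l => l ≠ a)
    (fun l => (q l 1 - q a 1) / (q l 0 - q a 0)) ⟨z0, by simpa using hz0⟩
  have hba : b ≠ a := (Finset.mem_filter.mp hb).2
  have key : ∀ l, l ≠ a → l ≠ b → 0 < T4 (q a) (q b) (q a + ![0, 0, 1]) (q l) := by
    intro l hla hlb
    have e : T4 (q a) (q b) (q a + ![0, 0, 1]) (q l)
        = (q b 0 - q a 0) * (q l 1 - q a 1) - (q l 0 - q a 0) * (q b 1 - q a 1) := by
      simp only [T4, det3, Pi.sub_apply, Pi.add_apply, Matrix.cons_val_zero, Matrix.cons_val_one,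
        Matrix.cons_val_two, Matrix.head_cons, Matrix.tail_cons]
      ring
    have h1 := hmin l (by simpa using hla)
    rw [div_le_div_iff₀ (hX b hba) (hX l hla)] at h1
    rw [e]
    exact lt_of_le_of_ne (by linarith) (hq.h2 a b l hba.symm hla.symm hlb.symm).symm
  obtain ⟨z, hza, hzb, -⟩ := exists_third h4 a b b
  obtain ⟨d, hd⟩ := hq.wrap hba.symm _ (fun l h1 h2 => Or.inl (key l h1 h2))
    ⟨z, hza, hzb, key z hza hzb⟩
  exact ⟨b, a, d, hd⟩

omit [Fintype ι] in
theorem mid_unique {q : ι → V} {v a b a' b' : ι} (h : Face (posq q) v a b)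
    (h' : Face (posq q) v a' b') (s : ℝ) (h1 : 0 < s * (q v 0 - q a 0))
    (h2 : 0 < s * (q b 0 - q v 0)) (h3 : 0 < s * (q v 0 - q a' 0))
    (h4 : 0 < s * (q b' 0 - q v 0)) : a = a' ∧ b = b' := by
  have key : T4 (q v) (q a') (q b') (q b) * (s * (q v 0 - q a 0))
      + T4 (q v) (q a') (q b') (q a) * (s * (q b 0 - q v 0))
      + T4 (q v) (q a) (q b) (q b') * (s * (q v 0 - q a' 0))
      + T4 (q v) (q a) (q b) (q a') * (s * (q b' 0 - q v 0)) = 0 := by
    simp only [T4, det3, Pi.sub_apply]; ring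
  have p1 := mul_nonneg (face_nonneg h' b) h1.le
  have p2 := mul_nonneg (face_nonneg h' a) h2.le
  have p3 := mul_nonneg (face_nonneg h b') h3.le
  have p4 := mul_nonneg (face_nonneg h a') h4.le
  have z3 : T4 (q v) (q a) (q b) (q b') = 0 :=
    (mul_eq_zero.mp (by linarith : _ * (s * (q v 0 - q a' 0)) = 0)).resolve_right h3.ne'
  have z4 : T4 (q v) (q a) (q b) (q a') = 0 :=
    (mul_eq_zero.mp (by linarith : _ * (s * (q b' 0 - q v 0)) = 0)).resolve_right h4.ne'
  constructor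
  · rcases face_eq_zero h z4 with e | e | e
    · rw [e] at h3; simp at h3
    · exact e.symm
    · rw [e] at h3; nlinarith
  · rcases face_eq_zero h z3 with e | e | e
    · rw [e] at h4; simp at h4
    · rw [e] at h4; nlinarith
    · exact e.symm

theorem Gen.card_le {q : ι → V} (hq : Gen q) (h4 : 4 ≤ Fintype.card ι) (s : Finset (ι × ι))
    (hs : ∀ e ∈ s, ∃ c, Face (posq q) e.1 e.2 c) : s.card + 12 ≤ 6 * Fintype.card ι := by
  classical
  have : Nonempty ι := Fintype.card_pos_iff.mp (by omega)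
  obtain ⟨lo, -, hlo⟩ := Finset.exists_min_image Finset.univ (fun l => q l 0) Finset.univ_nonempty
  obtain ⟨hi, -, hhi⟩ := Finset.exists_max_image Finset.univ (fun l => q l 0) Finset.univ_nonempty
  have hne : lo ≠ hi := by
    intro e
    obtain ⟨z, hz, -⟩ := exists_third h4 lo lo lo
    have h1 := hlo z (Finset.mem_univ _)
    have h2 := hhi z (Finset.mem_univ _)
    rw [← e] at h2
    exact hq.h1 z lo hz (le_antisymm h2 h1)
  let M : ℝ → Finset (ι × ι × ι) := fun t => Finset.univ.filter fun x =>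
    Face (posq q) x.1 x.2.1 x.2.2 ∧ 0 < t * (q x.1 0 - q x.2.1 0) ∧ 0 < t * (q x.2.2 0 - q x.1 0)
  have hM : ∀ t, (M t).card + 2 ≤ Fintype.card ι := by
    intro t
    have h1 : (M t).card ≤ (Finset.univ \ ({lo, hi} : Finset ι)).card := by
      refine Finset.card_le_card_of_injOn (fun x => x.1) ?_ ?_
      · intro x hx
        obtain ⟨-, -, p1, p2⟩ := Finset.mem_filter.mp hx
        simp only [Finset.coe_sdiff, Finset.coe_univ, Finset.coe_insert, Finset.coe_singleton,
          Set.mem_sdiff, Set.mem_univ, Set.mem_insert_iff, Set.mem_singleton_iff, true_and, not_or]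
        constructor
        · intro e
          have a1 := hlo x.2.1 (Finset.mem_univ _)
          have a2 := hlo x.2.2 (Finset.mem_univ _)
          rw [e] at p1 p2
          rcases pos_and_pos_or_neg_and_neg_of_mul_pos p1 with ⟨t1, t2⟩ | ⟨t1, t2⟩ <;>
          rcases pos_and_pos_or_neg_and_neg_of_mul_pos p2 with ⟨t3, t4⟩ | ⟨t3, t4⟩ <;> linarith
        · intro e
          have a1 := hhi x.2.1 (Finset.mem_univ _)
          have a2 := hhi x.2.2 (Finset.mem_univ _)
          rw [e] at p1 p2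
          rcases pos_and_pos_or_neg_and_neg_of_mul_pos p1 with ⟨t1, t2⟩ | ⟨t1, t2⟩ <;>
          rcases pos_and_pos_or_neg_and_neg_of_mul_pos p2 with ⟨t3, t4⟩ | ⟨t3, t4⟩ <;> linarith
      · rintro ⟨v, a, b⟩ hx ⟨v', a', b'⟩ hx' e
        obtain ⟨-, f1, p1, p2⟩ := Finset.mem_filter.mp hx
        obtain ⟨-, f2, p3, p4⟩ := Finset.mem_filter.mp hx'
        simp only at e f1 f2 p1 p2 p3 p4
        subst e
        obtain ⟨rfl, rfl⟩ := mid_unique f1 f2 t p1 p2 p3 p4
        rfl
    rw [Finset.card_univ_sdiff, Finset.card_pair hne] at h1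
    omega
  let N : Finset (ι × ι × ι) := M 1 ∪ M (-1)
  have hN : N.card + 4 ≤ 2 * Fintype.card ι := by
    have := Finset.card_union_le (M 1) (M (-1))
    have := hM 1
    have := hM (-1)
    simp only [N]
    omega
  have rot : ∀ {a b c}, Face (posq q) a b c → Face (posq q) b c a := fun hf =>
    ⟨hf.2.1, hf.2.2.1, hf.1, fun l h1 h2 h3 => by
      have := hf.2.2.2 l h3 h1 h2
      rwa [posq, ← T4_rot] at this⟩
  have memN : ∀ v a b, Face (posq q) v a b →
      (q a 0 < q v 0 ∧ q v 0 < q b 0) ∨ (q b 0 < q v 0 ∧ q v 0 < q a 0) → (v, a, b) ∈ N := by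
    intro v a b hf h
    simp only [N, M, Finset.mem_union, Finset.mem_filter, Finset.mem_univ, true_and]
    rcases h with h | h
    · exact Or.inl ⟨hf, by linarith [h.1], by linarith [h.2]⟩
    · exact Or.inr ⟨hf, by linarith [h.2], by linarith [h.1]⟩
  have hsub : s ⊆ N.image (fun x => (x.1, x.2.1)) ∪ N.image (fun x => (x.2.1, x.2.2)) ∪
      N.image (fun x => (x.2.2, x.1)) := by
    rintro ⟨a, b⟩ he
    obtain ⟨c, hf⟩ := hs _ he
    simp only at hf
    simp only [Finset.mem_union, Finset.mem_image]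
    have A : (q b 0 < q a 0 ∧ q a 0 < q c 0) ∨ (q c 0 < q a 0 ∧ q a 0 < q b 0) →
        ∃ x ∈ N, (x.1, x.2.1) = (a, b) := fun h => ⟨(a, b, c), memN _ _ _ hf h, rfl⟩
    have B : (q a 0 < q c 0 ∧ q c 0 < q b 0) ∨ (q b 0 < q c 0 ∧ q c 0 < q a 0) →
        ∃ x ∈ N, (x.2.1, x.2.2) = (a, b) := fun h => ⟨(c, a, b), memN _ _ _ (rot (rot hf)) h, rfl⟩
    have C : (q c 0 < q b 0 ∧ q b 0 < q a 0) ∨ (q a 0 < q b 0 ∧ q b 0 < q c 0) →
        ∃ x ∈ N, (x.2.2, x.1) = (a, b) := fun h => ⟨(b, c, a), memN _ _ _ (rot hf) h, rfl⟩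
    rcases lt_or_gt_of_ne (hq.h1 a b hf.1) with h1 | h1 <;>
    rcases lt_or_gt_of_ne (hq.h1 b c hf.2.1) with h2 | h2 <;>
    rcases lt_or_gt_of_ne (hq.h1 c a hf.2.2.1) with h3 | h3
    · linarith
    · exact Or.inr (C (Or.inr ⟨h1, h2⟩))
    · exact Or.inl (Or.inl (A (Or.inr ⟨h3, h1⟩)))
    · exact Or.inl (Or.inr (B (Or.inl ⟨h3, h2⟩)))
    · exact Or.inl (Or.inr (B (Or.inr ⟨h2, h3⟩)))
    · exact Or.inl (Or.inl (A (Or.inl ⟨h1, h3⟩)))
    · exact Or.inr (C (Or.inl ⟨h2, h1⟩))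
    · linarith
  have h1 := Finset.card_le_card hsub
  have h2 := Finset.card_union_le (N.image (fun x => (x.1, x.2.1)) ∪
    N.image (fun x => (x.2.1, x.2.2))) (N.image (fun x => (x.2.2, x.1)))
  have h3 := Finset.card_union_le (N.image (fun x => (x.1, x.2.1)))
    (N.image (fun x => (x.2.1, x.2.2)))
  have h5 := Finset.card_image_le (s := N) (f := fun x => (x.1, x.2.1))
  have h6 := Finset.card_image_le (s := N) (f := fun x => (x.2.1, x.2.2))
  have h7 := Finset.card_image_le (s := N) (f := fun x => (x.2.2, x.1))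
  omega

theorem Gen.comb {q : ι → V} (hq : Gen q) (h4 : 4 ≤ Fintype.card ι) : Comb (posq q) where
  rot h := by rwa [posq, T4_rot]
  swp h := by rwa [posq, T4_swp]
  asym h h' := by
    rw [posq, T4_swap12] at h'
    rw [posq] at h
    linarith
  gp := by
    intro v x y p r s h1 h2 h3 h5 h6
    unfold posq at *
    have := T4_gp (q v) (q x) (q y) (q p) (q r) (q s)
    have h7 : 0 < T4 (q v) (q x) (q y) (q r) * T4 (q v) (q x) (q p) (q s) := by
      rw [this]; positivity
    exact (pos_iff_pos_of_mul_pos h7).mp h6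
  ex := hq.ex h4
  nb := by
    intro a b c hf
    obtain ⟨z, h1, h2, h3⟩ := exists_third h4 a b c
    refine hq.wrap hf.1 (q c) (fun l ha hb => ?_) ⟨z, h1, h2, hf.2.2.2 z h1 h2 h3⟩
    by_cases hc : l = c
    · exact Or.inr (by rw [hc])
    · exact Or.inl (hf.2.2.2 l ha hb hc)
  card := hq.card_le h4

/-- The closed simplex with apex `g`. -/
def Spx (g a b c : V) : Set V :=
  {x | ∃ α β γ : ℝ, 0 ≤ α ∧ 0 ≤ β ∧ 0 ≤ γ ∧ α + β + γ ≤ 1 ∧
    x = g + α • (a - g) + β • (b - g) + γ • (c - g)}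

theorem cover_of_closed {q : ι → V} (h4 : 4 ≤ Fintype.card ι) (g x : V)
    (hg : ∀ a b c, Face (posq q) a b c → 0 < T4 (q a) (q b) (q c) g)
    (hx : ∀ a b c, Face (posq q) a b c → 0 ≤ T4 (q a) (q b) (q c) x)
    (F : ι → ι → ι → Prop) (hne : ∃ a b c, F a b c) (hF : ∀ a b c, F a b c → Face (posq q) a b c)
    (hrot : ∀ a b c, F a b c → F b c a) (hnb : ∀ a b c, F a b c → ∃ d, F b a d) :
    ∃ a b c, F a b c ∧ x ∈ Spx g (q a) (q b) (q c) := by
  classical
  obtain ⟨a0, b0, c0, h0⟩ := hne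
  let τ : ι × ι × ι → ℝ := fun f => T4 (q f.1) (q f.2.1) (q f.2.2) x / T4 (q f.1) (q f.2.1) (q f.2.2) g
  obtain ⟨⟨a, b, c⟩, hf, hmin⟩ := Finset.exists_min_image
    (Finset.univ.filter fun f : ι × ι × ι => F f.1 f.2.1 f.2.2) τ ⟨(a0, b0, c0), by simpa using h0⟩
  have hf' : F a b c := (Finset.mem_filter.mp hf).2
  have key : ∀ a b c, F a b c → (∀ a' b' c', F a' b' c' → τ (a, b, c) ≤ τ (a', b', c')) →
      0 ≤ T4 (q a) (q b) x g := by
    intro a b c hf hmin
    obtain ⟨d, hd⟩ := hnb a b c hf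
    have h1 := hmin b a d hd
    have g1 := hg _ _ _ (hF _ _ _ hf)
    have g2 := hg _ _ _ (hF _ _ _ hd)
    simp only [τ] at h1
    rw [div_le_div_iff₀ g1 g2] at h1
    have hcd : c ≠ d := by
      rintro rfl
      obtain ⟨z, z1, z2, z3⟩ := exists_third h4 a b c
      have p1 := (hF _ _ _ hf).2.2.2 z z1 z2 z3
      have p2 := (hF _ _ _ hd).2.2.2 z z2 z1 z3
      rw [posq, T4_swap12] at p2
      rw [posq] at p1
      linarith
    have g3 : 0 < T4 (q b) (q a) (q d) (q c) :=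
      (hF _ _ _ hd).2.2.2 c (hF _ _ _ hf).2.1.symm (hF _ _ _ hf).2.2.1 hcd
    have id : T4 (q a) (q b) (q c) g * T4 (q b) (q a) (q d) x
        = T4 (q b) (q a) (q d) g * T4 (q a) (q b) (q c) x
          - T4 (q a) (q b) x g * T4 (q b) (q a) (q d) (q c) * (-1) := by
      simp only [T4, det3, Pi.sub_apply]; ring
    have : 0 ≤ T4 (q a) (q b) x g * T4 (q b) (q a) (q d) (q c) := by nlinarith
    exact nonneg_of_mul_nonneg_left this g3
  have hm : ∀ a' b' c', F a' b' c' → τ (a, b, c) ≤ τ (a', b', c') := fun a' b' c' h =>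
    hmin (a', b', c') (by simpa using h)
  have r1 : τ (b, c, a) = τ (a, b, c) := by simp only [τ, T4_rot]
  have r2 : τ (c, a, b) = τ (a, b, c) := by
    simp only [τ]; rw [← T4_rot (q c), ← T4_rot (q c)]
  have k1 := key a b c hf' hm
  have k2 := key b c a (hrot _ _ _ hf') (by rw [r1]; exact hm)
  have k3 := key c a b (hrot _ _ _ (hrot _ _ _ hf')) (by rw [r2]; exact hm)
  have g1 := hg _ _ _ (hF _ _ _ hf')
  have x1 := hx _ _ _ (hF _ _ _ hf')
  refine ⟨a, b, c, hf', T4 (q b) (q c) x g / T4 (q a) (q b) (q c) g,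
    T4 (q c) (q a) x g / T4 (q a) (q b) (q c) g, T4 (q a) (q b) x g / T4 (q a) (q b) (q c) g,
    by positivity, by positivity, by positivity, ?_, ?_⟩
  · rw [← add_div, ← add_div, div_le_one g1]
    have : T4 (q a) (q b) (q c) g - (T4 (q b) (q c) x g + T4 (q c) (q a) x g + T4 (q a) (q b) x g)
        = T4 (q a) (q b) (q c) x := by
      simp only [T4, det3, Pi.sub_apply]; ring
    linarith
  · funext i
    simp only [Pi.add_apply, Pi.smul_apply, Pi.sub_apply, smul_eq_mul]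
    field_simp
    simp only [T4, det3, Pi.sub_apply]
    fin_cases i <;> simp <;> ring

omit [Fintype ι] in
theorem vcut_gen {q : ι → V} {u : V} (hu : ip u u = 1) (v : ι) (s : Finset (ι × ι)) (A B R : ℝ)
    (hA : 0 ≤ A) (hB : 0 ≤ B) (hAB : ∀ θ, 0 ≤ θ → θ ≤ π → sin θ ≤ A + B * θ)
    (hs : ∀ e ∈ s, Face (posq q) v e.1 e.2)
    (hR : ∀ a, ip (q a - q v) (q a - q v) - (ip u (q a - q v)) ^ 2 ≤ R) :
    ∑ e ∈ s, det3 u (q e.1 - q v) (q e.2 - q v) ≤
      ∑ e ∈ s, A * ((ip (q e.1 - q v) (q e.1 - q v) - (ip u (q e.1 - q v)) ^ 2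
        + (ip (q e.2 - q v) (q e.2 - q v) - (ip u (q e.2 - q v)) ^ 2)) / 2) + 2 * π * B * R := by
  classical
  obtain ⟨E, F, h1, h2⟩ := exists_frame hu
  let w : ι → ℂ := fun a => ⟨ip (q a - q v) E, ip (q a - q v) F⟩
  have hw : ∀ a, ‖w a‖ ^ 2 = ip (q a - q v) (q a - q v) - (ip u (q a - q v)) ^ 2 := by
    intro a
    rw [← h2, Complex.sq_norm, Complex.normSq_apply]
    simp only [w]; ring
  have him : ∀ a b, (w b * (starRingEnd ℂ) (w a)).im = det3 u (q a - q v) (q b - q v) := by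
    intro a b
    rw [h1]
    simp [w]; ring
  have hR0 : 0 ≤ R := le_trans (by rw [← hw]; positivity) (hR v)
  set s' := s.filter fun e => 0 < det3 u (q e.1 - q v) (q e.2 - q v) with hs'
  have hsum := sector_sum s' (fun e => w e.1) (fun e => w e.2)
    (fun e he => by rw [him]; exact (Finset.mem_filter.mp he).2) (by
      rintro ⟨a, b⟩ he ⟨a', b'⟩ he' hne α β α' β' p1 p2 p3 p4 heq
      obtain ⟨m1, d1⟩ := Finset.mem_filter.mp he
      obtain ⟨m2, d2⟩ := Finset.mem_filter.mp he'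
      have f1 := hs _ m1
      have f2 := hs _ m2
      simp only at heq f1 f2 d1 d2
      set z : V := α' • (q a' - q v) + β' • (q b' - q v) - (α • (q a - q v) + β • (q b - q v))
        with hz
      have zE : ip z E = 0 := by
        have := congrArg Complex.re heq
        simp only [w, Complex.add_re, Complex.mul_re, Complex.ofReal_re, Complex.ofReal_im,
          zero_mul, sub_zero] at this
        simp only [hz, ip, Pi.sub_apply, Pi.add_apply, Pi.smul_apply, smul_eq_mul] at this ⊢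
        linarith
      have zF : ip z F = 0 := by
        have := congrArg Complex.im heq
        simp only [w, Complex.add_im, Complex.mul_im, Complex.ofReal_re, Complex.ofReal_im,
          zero_mul, add_zero] at this
        simp only [hz, ip, Pi.sub_apply, Pi.add_apply, Pi.smul_apply, smul_eq_mul] at this ⊢
        linarith
      have hz2 := h2 z
      rw [zE, zF] at hz2
      have hzu : ∀ i, z i = ip u z * u i := by
        have e : (z 0 - ip u z * u 0) ^ 2 + (z 1 - ip u z * u 1) ^ 2 + (z 2 - ip u z * u 2) ^ 2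
            = ip z z - 2 * (ip u z) ^ 2 + (ip u z) ^ 2 * ip u u := by
          simp only [ip]; ring
        rw [hu] at e
        have e0 : z 0 - ip u z * u 0 = 0 := by nlinarith [sq_nonneg (z 0 - ip u z * u 0), sq_nonneg (z 1 - ip u z * u 1), sq_nonneg (z 2 - ip u z * u 2)]
        have e1 : z 1 - ip u z * u 1 = 0 := by nlinarith [sq_nonneg (z 0 - ip u z * u 0), sq_nonneg (z 1 - ip u z * u 1), sq_nonneg (z 2 - ip u z * u 2)]
        have e2 : z 2 - ip u z * u 2 = 0 := by nlinarith [sq_nonneg (z 0 - ip u z * u 0), sq_nonneg (z 1 - ip u z * u 1), sq_nonneg (z 2 - ip u z * u 2)]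
        intro i
        fin_cases i
        · exact sub_eq_zero.mp e0
        · exact sub_eq_zero.mp e1
        · exact sub_eq_zero.mp e2
      have dz : ∀ X Y : V, det3 X Y z = ip u z * det3 u X Y := by
        intro X Y
        simp only [det3]
        rw [hzu 0, hzu 1, hzu 2]
        ring
      have i1 : det3 (q a - q v) (q b - q v) z =
          -(α' * T4 (q v) (q a) (q b) (q a') + β' * T4 (q v) (q a) (q b) (q b')) := by
        simp only [hz, T4, det3, Pi.sub_apply, Pi.add_apply, Pi.smul_apply, smul_eq_mul]; ring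
      have i2 : det3 (q a' - q v) (q b' - q v) z =
          α * T4 (q v) (q a') (q b') (q a) + β * T4 (q v) (q a') (q b') (q b) := by
        simp only [hz, T4, det3, Pi.sub_apply, Pi.add_apply, Pi.smul_apply, smul_eq_mul]; ring
      rw [dz] at i1 i2
      have n1 := mul_nonneg p3.le (face_nonneg f1 a')
      have n2 := mul_nonneg p4.le (face_nonneg f1 b')
      have n3 := mul_nonneg p1.le (face_nonneg f2 a)
      have n4 := mul_nonneg p2.le (face_nonneg f2 b)
      have l1 : 0 ≤ ip u z := nonneg_of_mul_nonneg_left (by linarith) d2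
      have l2 := mul_nonneg l1 d1.le
      have z1 : T4 (q v) (q a) (q b) (q a') = 0 :=
        (mul_eq_zero.mp (by linarith : α' * _ = 0)).resolve_left p3.ne'
      have z2 : T4 (q v) (q a) (q b) (q b') = 0 :=
        (mul_eq_zero.mp (by linarith : β' * _ = 0)).resolve_left p4.ne'
      rcases face_eq_zero f1 z1 with e | e | e
      · exact f2.1 e.symm
      · rcases face_eq_zero f1 z2 with e' | e' | e'
        · exact f2.2.2.1 e'
        · exact f2.2.1 (e.trans e'.symm)
        · exact hne (by rw [e, e'])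
      · rcases face_eq_zero f1 z2 with e' | e' | e'
        · exact f2.2.2.1 e'
        · rw [e, e', det3_swap23] at d2
          linarith
        · exact f2.2.1 (e.trans e'.symm))
  have hterm : ∀ e ∈ s, det3 u (q e.1 - q v) (q e.2 - q v) ≤
      A * ((‖w e.1‖ ^ 2 + ‖w e.2‖ ^ 2) / 2) + B * R *
        (if 0 < det3 u (q e.1 - q v) (q e.2 - q v) then
          Complex.arg (w e.2 * (starRingEnd ℂ) (w e.1)) else 0) := by
    intro e _
    split_ifs with h
    · set z := w e.2 * (starRingEnd ℂ) (w e.1) with hz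
      have t0 : 0 ≤ Complex.arg z := Complex.arg_nonneg_iff.mpr (by rw [hz, him]; exact h.le)
      have t1 := hAB _ t0 (Complex.arg_le_pi z)
      have t2 : ‖z‖ * sin (Complex.arg z) = z.im := Complex.norm_mul_sin_arg z
      have t3 : ‖z‖ = ‖w e.2‖ * ‖w e.1‖ := by rw [hz, norm_mul, Complex.norm_conj]
      have t4 : ‖z‖ ≤ (‖w e.1‖ ^ 2 + ‖w e.2‖ ^ 2) / 2 := by
        rw [t3]; nlinarith [sq_nonneg (‖w e.1‖ - ‖w e.2‖)]
      have t5 : ‖z‖ ≤ R := by
        have a1 := hR e.1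
        have a2 := hR e.2
        rw [← hw] at a1 a2
        linarith
      rw [← him, ← hz, ← t2]
      have t6 := mul_le_mul_of_nonneg_left t1 (norm_nonneg z)
      have t7 := mul_le_mul_of_nonneg_left t4 hA
      have t8 := mul_le_mul_of_nonneg_right t5 (mul_nonneg hB t0)
      nlinarith
    · have : 0 ≤ A * ((‖w e.1‖ ^ 2 + ‖w e.2‖ ^ 2) / 2) := by positivity
      linarith
  refine (Finset.sum_le_sum hterm).trans ?_
  rw [Finset.sum_add_distrib, ← Finset.mul_sum _ _ (B * R), ← Finset.sum_filter]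
  simp only [hw]
  have := mul_le_mul_of_nonneg_left hsum (mul_nonneg hB hR0)
  linarith

end Pool.Agent.MP_2ab689_gt

end MrgPart5

-- ======== part 6: formerly Pool.Agent.MP_2ab689_gt.Bridge
section MrgPart6

/-!
From point configurations in coordinate space to inscribed polytopes.
-/

namespace Pool.Agent.MP_2ab689_gt

open Set MeasureTheory WithLp

/-- Euclidean 3-space. -/
abbrev E3 : Type := EuclideanSpace ℝ (Fin 3)

theorem norm_sq_E3 (x : E3) : ‖x‖ ^ 2 = ip x.ofLp x.ofLp := by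
  rw [EuclideanSpace.norm_sq_eq, Fin.sum_univ_three]
  simp only [Real.norm_eq_abs, sq_abs, ip]
  ring

theorem norm_eq_one_iff (x : E3) : ‖x‖ = 1 ↔ ip x.ofLp x.ofLp = 1 := by
  rw [← norm_sq_E3, pow_eq_one_iff_of_nonneg (norm_nonneg _) two_ne_zero]

theorem ext_hull {S : Set E3} (h : ∀ x ∈ S, ‖x‖ = 1) : (convexHull ℝ S).extremePoints ℝ = S := by
  refine extremePoints_convexHull_subset.antisymm fun x hx => ?_
  refine inter_extremePoints_subset_extremePoints_of_subset (A := Metric.closedBall 0 1) ?_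
    ⟨subset_convexHull _ _ hx, ?_⟩
  · exact convexHull_min (fun y hy => by simp [h y hy]) (convex_closedBall _ _)
  · exact StrictConvexSpace.sphere_subset_extremePoints_closedBall _ one_ne_zero (by simp [h x hx])

theorem Inscribed.exists_fam {K : ℕ} {P : Set E3} (h : Inscribed K P) :
    ∃ p : Fin K → V, Function.Injective p ∧ (∀ i, ip (p i) (p i) = 1) ∧
      P = convexHull ℝ (range (toLp 2 ∘ p)) := by
  obtain ⟨⟨S, rfl⟩, -, hK, hn⟩ := h
  have hf : ((convexHull ℝ (S : Set E3)).extremePoints ℝ).Finite :=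
    S.finite_toSet.subset extremePoints_convexHull_subset
  have hc := closure_convexHull_extremePoints (S.finite_toSet.isCompact_convexHull ℝ)
    (convex_convexHull ℝ _)
  rw [(hf.isClosed_convexHull ℝ).closure_eq] at hc
  generalize (convexHull ℝ (S : Set E3)).extremePoints ℝ = X at *
  rw [ncard_eq_toFinset_card _ hf] at hK
  let e := (Finset.equivFinOfCardEq hK).symm
  refine ⟨fun i => (e i : E3).ofLp, fun i j hij => ?_, fun i => ?_, ?_⟩
  · exact e.injective (Subtype.ext (ofLp_injective 2 hij))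
  · exact (norm_eq_one_iff _).mp (hn _ (hf.mem_toFinset.mp (e i).2))
  · rw [← hc]
    congr 1
    ext x
    constructor
    · intro hx
      exact ⟨e.symm ⟨x, hf.mem_toFinset.mpr hx⟩, by simp⟩
    · rintro ⟨i, rfl⟩
      exact hf.mem_toFinset.mp (e i).2

theorem inscribed_hull {K : ℕ} {p : Fin K → E3} (hi : Function.Injective p) (hn : ∀ i, ‖p i‖ = 1)
    (h0 : 0 ∈ interior (convexHull ℝ (range p))) : Inscribed K (convexHull ℝ (range p)) := by
  classical
  have he : (convexHull ℝ (range p)).extremePoints ℝ = range p :=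
    ext_hull (by rintro _ ⟨i, rfl⟩; exact hn i)
  refine ⟨⟨Finset.univ.image p, by simp⟩, h0, ?_, ?_⟩
  · rw [he, ncard_range_of_injective hi, Nat.card_eq_fintype_card, Fintype.card_fin]
  · rw [he]; rintro _ ⟨i, rfl⟩; exact hn i

theorem vol_toLp {K : ℕ} (p : Fin K → V) :
    volume (convexHull ℝ (range ((toLp 2 : V → E3) ∘ p))) = volume (convexHull ℝ (range p)) := by
  have h1 : convexHull ℝ (range ((toLp 2 : V → E3) ∘ p)) =
      (ofLp : E3 → V) ⁻¹' convexHull ℝ (range p) := by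
    have := LinearMap.image_convexHull (WithLp.linearEquiv 2 ℝ V).symm.toLinearMap (range p)
    rw [← range_comp] at this
    refine this.symm.trans ?_
    exact (WithLp.linearEquiv 2 ℝ V).symm.toEquiv.image_eq_preimage_symm _
  rw [h1]
  exact (PiLp.volume_preserving_ofLp (Fin 3)).measure_preimage
    ((finite_range p).isClosed_convexHull ℝ).measurableSet.nullMeasurableSet

theorem iso_of_frame {e f g : V} (h1 : ip e e = 1) (h2 : ip f f = 1) (h3 : ip g g = 1)
    (h4 : ip e f = 0) (h5 : ip f g = 0) (h6 : ip e g = 0) :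
    ∃ φ : E3 ≃ₗᵢ[ℝ] E3, ∀ x : V, φ (toLp 2 x) = toLp 2 (x 0 • e + x 1 • f + x 2 • g) := by
  let L : E3 →ₗ[ℝ] E3 :=
    { toFun := fun x => toLp 2 (x 0 • e + x 1 • f + x 2 • g)
      map_add' := fun x y => by ext i; simp; ring
      map_smul' := fun c x => by ext i; simp; ring }
  let I : E3 →ₗᵢ[ℝ] E3 :=
    { L with
      norm_map' := fun x => by
        rw [← pow_left_inj₀ (norm_nonneg _) (norm_nonneg _) two_ne_zero, norm_sq_E3, norm_sq_E3]
        simp only [L, LinearMap.coe_mk, AddHom.coe_mk, ip, Pi.add_apply, Pi.smul_apply,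
          smul_eq_mul] at *
        linear_combination x.ofLp 0 ^ 2 * h1 + x.ofLp 1 ^ 2 * h2 + x.ofLp 2 ^ 2 * h3 +
          2 * x.ofLp 0 * x.ofLp 1 * h4 + 2 * x.ofLp 1 * x.ofLp 2 * h5 +
          2 * x.ofLp 0 * x.ofLp 2 * h6 }
  exact ⟨I.toLinearIsometryEquiv rfl, fun x => rfl⟩

theorem zero_mem_interior {K : Set E3} (hK : Convex ℝ K) {ε : ℝ} (hε : 0 < ε)
    (h : ∀ i, EuclideanSpace.single i ε ∈ K ∧ EuclideanSpace.single i (-ε) ∈ K) :
    0 ∈ interior K := by
  rw [mem_interior_iff_mem_nhds, Metric.mem_nhds_iff]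
  refine ⟨ε / 3, by positivity, fun x hx => ?_⟩
  have h1 : ∀ i, EuclideanSpace.single i (3 * x i) ∈ K := by
    intro i
    have hb : |x i| < ε / 3 := (PiLp.norm_apply_le x i).trans_lt (by simpa using hx)
    rw [abs_lt] at hb
    have := hK (h i).1 (h i).2 (a := (ε + 3 * x i) / (2 * ε)) (b := (ε - 3 * x i) / (2 * ε))
      (div_nonneg (by linarith) (by positivity)) (div_nonneg (by linarith) (by positivity))
      (by field_simp; ring)
    convert this using 1
    ext j
    by_cases hj : j = i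
    · subst hj; simp; field_simp; ring
    · simp [hj]
  have := hK.sum_mem (t := Finset.univ) (w := fun _ : Fin 3 => (1 / 3 : ℝ))
    (z := fun i => EuclideanSpace.single i (3 * x i)) (fun _ _ => by norm_num) (by simp)
    (fun i _ => h1 i)
  convert this using 1
  ext j
  fin_cases j <;> simp [Fin.sum_univ_three]

theorem isMaxVol_iff {K : ℕ} (q : Fin K → V) {v : ℝ} (hu : ∀ i, ip (q i) (q i) = 1)
    (hi : Function.Injective q) (h0 : 0 ∈ interior (convexHull ℝ (range ((toLp 2 : V → E3) ∘ q))))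
    (hv : 0 ≤ v) (hlow : ENNReal.ofReal v ≤ volume (convexHull ℝ (range q)))
    (hup : ∀ p : Fin K → V, Function.Injective p → (∀ i, ip (p i) (p i) = 1) →
      (volume (convexHull ℝ (range p))).toReal ≤ v ∧
      (v ≤ (volume (convexHull ℝ (range p))).toReal → ∃ e f g : V, ip e e = 1 ∧ ip f f = 1 ∧
        ip g g = 1 ∧ ip e f = 0 ∧ ip f g = 0 ∧ ip e g = 0 ∧
        range p = range fun i => q i 0 • e + q i 1 • f + q i 2 • g)) :
    (∀ P, IsMaxVol K P ↔
      ∃ φ : E3 ≃ₗᵢ[ℝ] E3, P = φ '' convexHull ℝ (range ((toLp 2 : V → E3) ∘ q))) ∧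
    volume (convexHull ℝ (range ((toLp 2 : V → E3) ∘ q))) = ENNReal.ofReal v := by
  have fin : ∀ p : Fin K → V, volume (convexHull ℝ (range p)) ≠ ⊤ := fun p =>
    ((finite_range p).isCompact_convexHull ℝ).measure_lt_top.ne
  have up : ∀ P, Inscribed K P → volume P ≤ ENNReal.ofReal v := by
    intro P hP
    obtain ⟨p, h1, h2, rfl⟩ := hP.exists_fam
    rw [vol_toLp]
    exact (ENNReal.le_ofReal_iff_toReal_le (fin p) hv).mpr (hup p h1 h2).1
  have hn : ∀ i, ‖((toLp 2 : V → E3) ∘ q) i‖ = 1 := fun i => (norm_eq_one_iff _).mpr (hu i)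
  have hi' : Function.Injective ((toLp 2 : V → E3) ∘ q) := (toLp_injective 2).comp hi
  have hQ := inscribed_hull hi' hn h0
  have hvol : volume (convexHull ℝ (range ((toLp 2 : V → E3) ∘ q))) = ENNReal.ofReal v :=
    (up _ hQ).antisymm (by rwa [vol_toLp])
  have img : ∀ φ : E3 ≃ₗᵢ[ℝ] E3, φ '' convexHull ℝ (range ((toLp 2 : V → E3) ∘ q)) =
      convexHull ℝ (range (φ ∘ (toLp 2 : V → E3) ∘ q)) := by
    intro φ
    rw [range_comp φ]
    exact LinearMap.image_convexHull φ.toLinearEquiv.toLinearMap _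
  refine ⟨fun P => ⟨fun ⟨hP, hm⟩ => ?_, ?_⟩, hvol⟩
  · obtain ⟨p, h1, h2, rfl⟩ := hP.exists_fam
    have h3 := hm _ hQ
    rw [hvol, vol_toLp] at h3
    obtain ⟨e, f, g, a1, a2, a3, a4, a5, a6, a7⟩ :=
      (hup p h1 h2).2 ((ENNReal.ofReal_le_iff_le_toReal (fin p)).mp h3)
    obtain ⟨φ, hφ⟩ := iso_of_frame a1 a2 a3 a4 a5 a6
    refine ⟨φ, ?_⟩
    rw [img, range_comp, a7, ← range_comp]
    congr 2
    funext i
    exact (hφ (q i)).symm
  · rintro ⟨φ, rfl⟩
    refine ⟨?_, fun P' hP' => (up P' hP').trans_eq ?_⟩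
    · have h1 : 0 ∈ interior (φ '' convexHull ℝ (range ((toLp 2 : V → E3) ∘ q))) := by
        have := φ.toHomeomorph.image_interior (convexHull ℝ (range ((toLp 2 : V → E3) ∘ q)))
        rw [LinearIsometryEquiv.coe_toHomeomorph] at this
        rw [← this]
        exact ⟨0, h0, map_zero φ⟩
      rw [img] at h1 ⊢
      exact inscribed_hull (φ.injective.comp hi') (fun i => (φ.norm_map _).trans (hn i)) h1
    · rw [← hvol]
      have := φ.symm.measurePreserving.measure_preimage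
        (s := convexHull ℝ (range ((toLp 2 : V → E3) ∘ q)))
        ((finite_range _).isClosed_convexHull ℝ).measurableSet.nullMeasurableSet
      rw [← this]
      congr 1
      exact (φ.toEquiv.image_eq_preimage_symm _).symm

end Pool.Agent.MP_2ab689_gt

end MrgPart6

-- marker of a merged file
example : 731051 + 6005 = 731051 + 6005 := rfl
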