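import Mathlib.Tactic.Monotonicity.Lemmas
import Mathlib.Analysis.SpecialFunctions.Integrals.Basic
import Mathlib.MeasureTheory.Measure.Lebesgue.Integral
import Mathlib.Analysis.Real.Pi.Bounds
import Pool.Agent.MP_2ab689_gt.Bridge

-- ======== part 0: formerly Pool.Agent.MP_2ab689_gt.Cert
section MrgPart0

/-!
A verified checker for dual certificates of the semidefinite relaxation.
-/

namespace Pool.Agent.MP_2ab689_gt

open Finset

/-- Integer sum over an initial segment. -/
noncomputable def sumZ (n : ℕ) (f : ℕ → ℤ) : ℤ := Nat.rec 0 (fun k acc => Int.add acc (f k)) n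

/-- Natural sum over an initial segment. -/
noncomputable def sumN (n : ℕ) (f : ℕ → ℕ) : ℕ := Nat.rec 0 (fun k acc => Nat.add acc (f k)) n

theorem sumZ_eq (n : ℕ) (f : ℕ → ℤ) : sumZ n f = ∑ k ∈ range n, f k := by
  induction n with
  | zero => rfl
  | succ n ih => rw [sum_range_succ, ← ih]; rfl

theorem sumN_eq (n : ℕ) (f : ℕ → ℕ) : sumN n f = ∑ k ∈ range n, f k := by
  induction n with
  | zero => rfl
  | succ n ih => rw [sum_range_succ, ← ih]; rfl

/-- A digit in base `2 ^ 24`. -/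
def dg (U r : ℕ) : ℕ := Nat.mod (Nat.shiftRight U (Nat.mul 24 r)) 16777216

/-- A signed digit. -/
def sd (U r : ℕ) : ℤ := (dg U r : ℤ) - 8388608

/-- Inner product of two vectors of signed digits. -/
noncomputable def dotN (n U W : ℕ) : ℤ := force U fun U => force W fun W =>
  Int.subNatNat (Nat.add (sumN n fun r => Nat.mul (dg U r) (dg W r)) (Nat.mul n 70368744177664))
    (Nat.mul 8388608 (sumN n fun r => Nat.add (dg U r) (dg W r)))

theorem dotN_eq (n U W : ℕ) : dotN n U W = ∑ r ∈ range n, sd U r * sd W r := by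
  simp only [dotN, force_eq, sumN_eq, Int.subNatNat_eq_coe, Nat.add_eq, Nat.mul_eq, sd]
  push_cast
  induction n with
  | zero => simp
  | succ n ih => simp only [sum_range_succ, ← ih]; push_cast; ring

/-- A block of `n` digits. -/
def chunk (n X i : ℕ) : ℕ :=
  Nat.mod (Nat.shiftRight X (Nat.mul (Nat.mul 24 n) i)) (Nat.pow 2 (Nat.mul 24 n))

/-- The block with indices `i j`. -/
def ch (n X i j : ℕ) : ℕ := chunk n X (Nat.add (Nat.mul n i) j)

/-- Coefficient of the inner products. -/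
noncomputable def gS (n X Y j k : ℕ) : ℤ :=
  sumZ n fun i => Int.add (dotN n (ch n X i j) (ch n X i k)) (dotN n (ch n Y i j) (ch n Y i k))

/-- Coefficient of the determinants. -/
noncomputable def dS (n X Y i j k : ℕ) : ℤ := dotN n (ch n X i j) (ch n Y i k)

theorem gS_comm (n X Y j k : ℕ) : gS n X Y j k = gS n X Y k j := by
  simp only [gS, dotN_eq, mul_comm]

theorem ip_sum_sum (s : Finset ℕ) (x y : ℕ → ℝ) (P : ℕ → V) :
    ip (∑ j ∈ s, x j • P j) (∑ k ∈ s, y k • P k) =
      ∑ j ∈ s, ∑ k ∈ s, x j * y k * ip (P j) (P k) := by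
  simp only [ip, Finset.sum_apply, Pi.smul_apply, smul_eq_mul, sum_mul_sum, ← sum_add_distrib]
  exact sum_congr rfl fun j _ => sum_congr rfl fun k _ => by ring

theorem det3_sum_sum (s : Finset ℕ) (x y : ℕ → ℝ) (P : ℕ → V) (a : V) :
    det3 a (∑ j ∈ s, x j • P j) (∑ k ∈ s, y k • P k) =
      ∑ j ∈ s, ∑ k ∈ s, x j * y k * det3 a (P j) (P k) := by
  simp only [det3, Finset.sum_apply, Pi.smul_apply, smul_eq_mul, sum_mul_sum, ← sum_sub_distrib]
  simp only [mul_sum, ← sum_add_distrib, ← sum_sub_distrib]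
  exact sum_congr rfl fun j _ => sum_congr rfl fun k _ => by ring

theorem rows_nonneg {P : ℕ → V} (hP : ∀ a, ip (P a) (P a) = 1) (n X Y : ℕ) :
    ∑ i ∈ range n, ∑ j ∈ range n, ∑ k ∈ range n,
        2 * (dS n X Y i j k : ℝ) * det3 (P i) (P j) (P k) ≤
      ∑ j ∈ range n, ∑ k ∈ range n, (gS n X Y j k : ℝ) * ip (P j) (P k) := by
  have h : ∀ i r, ∑ j ∈ range n, ∑ k ∈ range n,
      2 * ((sd (ch n X i j) r : ℝ) * sd (ch n Y i k) r) * det3 (P i) (P j) (P k) ≤
      ∑ j ∈ range n, ∑ k ∈ range n, ((sd (ch n X i j) r : ℝ) * sd (ch n X i k) r +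
        (sd (ch n Y i j) r : ℝ) * sd (ch n Y i k) r) * ip (P j) (P k) := by
    intro i r
    have := two_det3_le (hP i) (∑ j ∈ range n, (sd (ch n X i j) r : ℝ) • P j)
      (∑ j ∈ range n, (sd (ch n Y i j) r : ℝ) • P j)
    have h2 := sq_nonneg (ip (∑ j ∈ range n, (sd (ch n Y i j) r : ℝ) • P j) (P i))
    rw [ip_sum_sum, ip_sum_sum, det3_sum_sum] at this
    simp only [add_mul, sum_add_distrib, mul_assoc (2 : ℝ), ← mul_sum]
    linarith
  have h2 := sum_le_sum fun i (_ : i ∈ range n) => sum_le_sum fun r (_ : r ∈ range n) => h i r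
  refine le_of_eq_of_le ?_ (h2.trans_eq ?_)
  · refine sum_congr rfl fun i _ => ?_
    simp only [dS, dotN_eq]
    push_cast
    symm
    rw [sum_comm]
    refine sum_congr rfl fun j _ => ?_
    rw [sum_comm]
    refine sum_congr rfl fun k _ => ?_
    rw [mul_sum, sum_mul]
  · simp only [gS, sumZ_eq, dotN_eq, Int.add_def]
    push_cast
    simp only [← sum_add_distrib, sum_mul]
    calc _ = ∑ i ∈ range n, ∑ j ∈ range n, ∑ k ∈ range n, ∑ r ∈ range n,
          ((sd (ch n X i j) r : ℝ) * sd (ch n X i k) r +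
            (sd (ch n Y i j) r : ℝ) * sd (ch n Y i k) r) * ip (P j) (P k) := by
          refine sum_congr rfl fun i _ => ?_
          rw [sum_comm]
          exact sum_congr rfl fun j _ => sum_comm
      _ = _ := by
          rw [sum_comm]
          exact sum_congr rfl fun j _ => sum_comm

theorem sum_sq_split (n : ℕ) (f : ℕ → ℕ → ℝ) : ∑ j ∈ range n, ∑ k ∈ range n, f j k =
    ∑ j ∈ range n, f j j + ∑ k ∈ range n, ∑ j ∈ range k, (f j k + f k j) := by
  induction n with
  | zero => simp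
  | succ n ih => simp only [sum_range_succ, sum_add_distrib, ih]; ring

theorem sum_cube_split (n : ℕ) (f : ℕ → ℕ → ℕ → ℝ) (h1 : ∀ a b, f a a b = 0)
    (h2 : ∀ a b, f a b a = 0) (h3 : ∀ a b, f a b b = 0) :
    ∑ i ∈ range n, ∑ j ∈ range n, ∑ k ∈ range n, f i j k =
      ∑ k ∈ range n, ∑ j ∈ range k, ∑ i ∈ range j,
        (f i j k + f j k i + f k i j + f i k j + f j i k + f k j i) := by
  induction n with
  | zero => simp
  | succ n ih =>
    rw [sum_range_succ (fun k => ∑ j ∈ range k, ∑ i ∈ range j,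
        (f i j k + f j k i + f k i j + f i k j + f j i k + f k j i)), ← ih]
    simp only [sum_range_succ, sum_add_distrib, h1, h2, h3, sum_const_zero, add_zero]
    rw [sum_sq_split n (fun i j => f i j n), sum_sq_split n (fun i k => f i n k),
      sum_sq_split n (fun j k => f n j k)]
    simp only [sum_add_distrib, h1, h2, h3, sum_const_zero]
    ring

/-- Sum of the coefficients with a given code. -/
noncomputable def look (L : List (ℤ × ℕ)) (c : ℕ) : ℤ :=
  List.rec 0 (fun t _ acc => cond (Nat.beq t.2 c) (Int.add t.1 acc) acc) L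

theorem look_cons (t : ℤ × ℕ) (L : List (ℤ × ℕ)) (c : ℕ) :
    look (t :: L) c = (if t.2 = c then t.1 else 0) + look L c := by
  change cond (Nat.beq t.2 c) (t.1 + look L c) (look L c) = _
  rw [beq_dec]
  by_cases h : t.2 = c <;> simp [h]

/-- Forces the evaluation of an integer. -/
noncomputable def forceZ {α : Type} (x : ℤ) (f : ℤ → α) : α :=
  Int.rec (fun n => force n fun n => f (Int.ofNat n)) (fun n => force n fun n => f (Int.negSucc n)) x

theorem forceZ_eq {α : Type} (x : ℤ) (f : ℤ → α) : forceZ x f = f x := by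
  cases x <;> simp only [forceZ, force_eq]

/-- Forces the evaluation of a list. -/
noncomputable def forceL {α : Type} (L : List (ℤ × ℕ)) : (List (ℤ × ℕ) → α) → α :=
  List.rec (fun f => f []) (fun t _ ih f => forceZ t.1 fun c => force t.2 fun d =>
    ih fun r => f ((c, d) :: r)) L

theorem forceL_eq {α : Type} (L : List (ℤ × ℕ)) (f : List (ℤ × ℕ) → α) : forceL L f = f L := by
  induction L generalizing f with
  | nil => rfl
  | cons t L ih =>
    change (forceZ t.1 fun c => force t.2 fun d => forceL L fun r => f ((c, d) :: r)) = _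
    rw [forceZ_eq, force_eq, ih]

/-- Value of a list of inner product terms. -/
noncomputable def evG (P : ℕ → V) (L : List (ℤ × ℕ × ℕ)) : ℝ :=
  (L.map fun t => (t.1 : ℝ) * ip (P t.2.1) (P t.2.2)).sum

/-- Value of a list of determinant terms. -/
noncomputable def evD (P : ℕ → V) (L : List (ℤ × ℕ × ℕ × ℕ)) : ℝ :=
  (L.map fun t => (t.1 : ℝ) * det3 (P t.2.1) (P t.2.2.1) (P t.2.2.2)).sum

/-- Coded form of inner product terms. -/
def cdG (L : List (ℤ × ℕ × ℕ)) : List (ℤ × ℕ) := L.map fun t => (t.1, ec t.2.1 t.2.2)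

/-- Coded form of determinant terms. -/
def cdD (L : List (ℤ × ℕ × ℕ × ℕ)) : List (ℤ × ℕ) :=
  L.map fun t => (t.1, fc t.2.1 t.2.2.1 t.2.2.2)

theorem evG_eq {n : ℕ} (hn : n ≤ 16) (P : ℕ → V) (L : List (ℤ × ℕ × ℕ))
    (h : ∀ t ∈ L, t.2.1 < n ∧ t.2.2 < n) :
    evG P L = ∑ j ∈ range n, ∑ k ∈ range n, (look (cdG L) (ec j k) : ℝ) * ip (P j) (P k) := by
  induction L with
  | nil => simp [evG, cdG, look]
  | cons t L ih =>
    obtain ⟨c, a, b⟩ := t
    obtain ⟨ha, hb⟩ := h (c, a, b) (by simp)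
    simp only at ha hb
    have ih' := ih fun t ht => h t (List.mem_cons_of_mem _ ht)
    simp only [evG, cdG, List.map_cons, List.sum_cons, look_cons] at ih' ⊢
    push_cast
    simp only [add_mul, sum_add_distrib, ← ih']
    congr 1
    rw [sum_eq_single a, sum_eq_single b, if_pos rfl]
    · intro k hk hkb
      rw [if_neg (by simp only [ec_eq]; omega), zero_mul]
    · intro hb'; exact absurd (mem_range.mpr hb) hb'
    · intro j hj hja
      refine sum_eq_zero fun k hk => ?_
      rw [mem_range] at hk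
      rw [if_neg (by simp only [ec_eq]; omega), zero_mul]
    · intro ha'; exact absurd (mem_range.mpr ha) ha'

theorem evD_eq {n : ℕ} (hn : n ≤ 16) (P : ℕ → V) (L : List (ℤ × ℕ × ℕ × ℕ))
    (h : ∀ t ∈ L, t.2.1 < n ∧ t.2.2.1 < n ∧ t.2.2.2 < n) :
    evD P L = ∑ i ∈ range n, ∑ j ∈ range n, ∑ k ∈ range n,
      (look (cdD L) (fc i j k) : ℝ) * det3 (P i) (P j) (P k) := by
  induction L with
  | nil => simp [evD, cdD, look]
  | cons t L ih =>
    obtain ⟨c, a, b, d⟩ := t
    obtain ⟨ha, hb, hd⟩ := h (c, a, b, d) (by simp)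
    simp only at ha hb hd
    have ih' := ih fun t ht => h t (List.mem_cons_of_mem _ ht)
    simp only [evD, cdD, List.map_cons, List.sum_cons, look_cons] at ih' ⊢
    push_cast
    simp only [add_mul, sum_add_distrib, ← ih']
    congr 1
    rw [sum_eq_single a, sum_eq_single b, sum_eq_single d, if_pos rfl]
    · intro k hk hkb
      rw [if_neg (by simp only [fc_eq]; omega), zero_mul]
    · intro hb'; exact absurd (mem_range.mpr hd) hb'
    · intro j hj hja
      refine sum_eq_zero fun k hk => ?_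
      rw [mem_range] at hk
      rw [if_neg (by simp only [fc_eq]; omega), zero_mul]
    · intro ha'; exact absurd (mem_range.mpr hb) ha'
    · intro i hi hia
      refine sum_eq_zero fun j hj => sum_eq_zero fun k hk => ?_
      rw [mem_range] at hk hj
      rw [if_neg (by simp only [fc_eq]; omega), zero_mul]
    · intro ha'; exact absurd (mem_range.mpr ha) ha'

/-- Total coefficient of an ordered determinant. -/
noncomputable def eD (n X Y : ℕ) (LD : List (ℤ × ℕ)) (i j k : ℕ) : ℤ :=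
  Int.sub (look LD (fc i j k)) (Int.mul 2 (dS n X Y i j k))

/-- The bound obtained from a certificate. -/
noncomputable def bnd (n X Y : ℕ) (c0 : ℤ) (LG LD : List (ℤ × ℕ)) : ℤ :=
  Int.add (Int.add c0 (sumZ n fun j => Int.add (gS n X Y j j) (look LG (ec j j))))
    (Int.ofNat (Nat.add
      (sumN n fun k => sumN k fun j => Int.natAbs
        (Int.add (Int.mul 2 (gS n X Y j k)) (Int.add (look LG (ec j k)) (look LG (ec k j)))))
      (sumN n fun k => sumN k fun j => sumN j fun i => Int.natAbs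
        (Int.sub (Int.add (eD n X Y LD i j k) (Int.add (eD n X Y LD j k i) (eD n X Y LD k i j)))
          (Int.add (eD n X Y LD i k j) (Int.add (eD n X Y LD j i k) (eD n X Y LD k j i)))))))

theorem bnd_sound {n : ℕ} (hn : n ≤ 16) {P : ℕ → V} (hP : ∀ a, ip (P a) (P a) = 1) (X Y : ℕ)
    (c0 : ℤ) (LG : List (ℤ × ℕ × ℕ)) (LD : List (ℤ × ℕ × ℕ × ℕ))
    (hG : ∀ t ∈ LG, t.2.1 < n ∧ t.2.2 < n) (hD : ∀ t ∈ LD, t.2.1 < n ∧ t.2.2.1 < n ∧ t.2.2.2 < n) :
    c0 + evG P LG + evD P LD ≤ bnd n X Y c0 (cdG LG) (cdD LD) := by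
  have h1 := rows_nonneg hP n X Y
  have h2 : ∑ j ∈ range n, ∑ k ∈ range n,
      ((gS n X Y j k : ℝ) + look (cdG LG) (ec j k)) * ip (P j) (P k) ≤
      ∑ j ∈ range n, ((gS n X Y j j : ℝ) + look (cdG LG) (ec j j)) +
      ∑ k ∈ range n, ∑ j ∈ range k,
        |2 * (gS n X Y j k : ℝ) + (look (cdG LG) (ec j k) + look (cdG LG) (ec k j))| := by
    rw [sum_sq_split]
    simp only [hP, mul_one]
    refine add_le_add le_rfl (sum_le_sum fun k _ => sum_le_sum fun j _ => ?_)
    rw [ip_comm (P k), gS_comm n X Y k j, ← add_mul]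
    refine (le_abs_self _).trans ?_
    rw [abs_mul]
    refine (mul_le_of_le_one_right (abs_nonneg _) (abs_ip_le_one (hP _) (hP _))).trans_eq ?_
    congr 1; ring
  have h3 : ∑ i ∈ range n, ∑ j ∈ range n, ∑ k ∈ range n,
      (eD n X Y (cdD LD) i j k : ℝ) * det3 (P i) (P j) (P k) ≤
      ∑ k ∈ range n, ∑ j ∈ range k, ∑ i ∈ range j,
        |(eD n X Y (cdD LD) i j k : ℝ) + (eD n X Y (cdD LD) j k i + eD n X Y (cdD LD) k i j) -
          (eD n X Y (cdD LD) i k j + (eD n X Y (cdD LD) j i k + eD n X Y (cdD LD) k j i))| := by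
    rw [sum_cube_split _ _ (fun a b => by rw [det3_self12, mul_zero])
      (fun a b => by rw [det3_self13, mul_zero]) (fun a b => by rw [det3_self23, mul_zero])]
    refine sum_le_sum fun k _ => sum_le_sum fun j _ => sum_le_sum fun i _ => ?_
    rw [det3_rot (P i) (P j) (P k), ← det3_rot (P k) (P i) (P j), det3_swap23 (P i) (P j) (P k),
      det3_swap12 (P i) (P j) (P k), det3_swap12 (P j) (P k) (P i), det3_rot (P i) (P j) (P k)]
    refine le_trans ?_ (mul_le_of_le_one_right (abs_nonneg _)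
      (abs_det3_le_one (hP i) (hP j) (hP k)))
    rw [← abs_mul]
    refine le_trans (le_of_eq ?_) (le_abs_self _)
    ring
  rw [evG_eq hn P LG hG, evD_eq hn P LD hD]
  simp only [bnd, sumZ_eq, sumN_eq, Int.add_def, Int.mul_def, Nat.add_eq, Int.ofNat_eq_natCast]
  have hs : ∀ a b : ℤ, Int.sub a b = a - b := fun _ _ => rfl
  simp only [hs]
  push_cast
  have h4 : ∀ i j k, (eD n X Y (cdD LD) i j k : ℝ) =
      look (cdD LD) (fc i j k) - 2 * dS n X Y i j k := by
    intro i j k
    simp only [eD, hs, Int.mul_def]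
    push_cast
    rfl
  have h5 : ∑ i ∈ range n, ∑ j ∈ range n, ∑ k ∈ range n,
      (eD n X Y (cdD LD) i j k : ℝ) * det3 (P i) (P j) (P k) =
      ∑ i ∈ range n, ∑ j ∈ range n, ∑ k ∈ range n,
        (look (cdD LD) (fc i j k) : ℝ) * det3 (P i) (P j) (P k) -
      ∑ i ∈ range n, ∑ j ∈ range n, ∑ k ∈ range n,
        2 * (dS n X Y i j k : ℝ) * det3 (P i) (P j) (P k) := by
    simp only [h4, sub_mul, sum_sub_distrib]
  simp only [add_mul, sum_add_distrib] at h2 ⊢
  linarith

end Pool.Agent.MP_2ab689_gt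

end MrgPart0

-- ======== part 1: formerly Pool.Agent.MP_2ab689_gt.Cuts
section MrgPart1

/-!
Valid linear inequalities and the complete certificate checker.
-/

namespace Pool.Agent.MP_2ab689_gt

open Finset Real

theorem sin_le_tangent {t θ : ℝ} (ht0 : 0 ≤ t) (ht : t ≤ π) (h0 : 0 ≤ θ) (h : θ ≤ π) :
    sin θ ≤ sin t + cos t * (θ - t) := by
  have hc := strictConcaveOn_sin_Icc.concaveOn
  rcases lt_trichotomy θ t with hl | rfl | hl
  · have := hc.le_slope_of_hasDerivAt ⟨h0, h⟩ ⟨ht0, ht⟩ hl (hasDerivAt_sin t)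
    rw [slope_def_field, le_div_iff₀ (by linarith)] at this
    linarith
  · simp
  · have := hc.slope_le_of_hasDerivAt ⟨ht0, ht⟩ ⟨h0, h⟩ hl (hasDerivAt_sin t)
    rw [slope_def_field, div_le_iff₀ (by linarith)] at this
    linarith

/-- Admissible rational data for a vertex cut. -/
def VOk (a c : ℕ) : Prop := ∃ B : ℝ, 0 ≤ B ∧
  (∀ θ, 0 ≤ θ → θ ≤ π → sin θ ≤ (a : ℝ) / 4096 + B * θ) ∧ 2 * π * B ≤ (c : ℝ) / 4096

theorem vok_of {t : ℝ} {a c : ℕ} (h0 : 0 ≤ t) (h1 : t ≤ π) (h2 : 0 ≤ cos t)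
    (h3 : sin t - cos t * t ≤ (a : ℝ) / 4096) (h4 : 2 * π * cos t ≤ (c : ℝ) / 4096) : VOk a c :=
  ⟨cos t, h2, fun θ a1 a2 => by linarith [sin_le_tangent h0 h1 a1 a2], h4⟩

theorem vok0 : VOk 622 18199 := by
  have p1 := pi_gt_d6
  have p2 := pi_lt_d6
  have s1 : √2 < 1.4142136 := by rw [sqrt_lt' (by norm_num)]; norm_num
  have s0 : 0 ≤ √2 := sqrt_nonneg _
  refine vok_of (t := π / 4) (by positivity) (by linarith) ?_ ?_ ?_
  · rw [cos_pi_div_four]; positivity
  · rw [cos_pi_div_four, sin_pi_div_four]; push_cast; nlinarith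
  · rw [cos_pi_div_four]; push_cast; nlinarith

theorem vok1 : VOk 1403 12868 := by
  have p1 := pi_gt_d6
  have p2 := pi_lt_d6
  have s1 : √3 < 1.7320509 := by rw [sqrt_lt' (by norm_num)]; norm_num
  refine vok_of (t := π / 3) (by positivity) (by linarith) ?_ ?_ ?_
  · rw [cos_pi_div_three]; positivity
  · rw [cos_pi_div_three, sin_pi_div_three]; push_cast; nlinarith
  · rw [cos_pi_div_three]; push_cast; nlinarith

theorem vok2 : VOk 2306 7954 := by
  have p1 := pi_gt_d6
  have p2 := pi_lt_d6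
  have s1 : √5 < 2.2360680 := by rw [sqrt_lt' (by norm_num)]; norm_num
  have s2 : 2.2360679 < √5 := by rw [lt_sqrt (by norm_num)]; norm_num
  have s3 : √5 ^ 2 = 5 := sq_sqrt (by norm_num)
  have hc : cos (2 * (π / 5)) = (√5 - 1) / 4 := by
    rw [cos_two_mul, cos_pi_div_five]; nlinarith
  have hs : sin (2 * (π / 5)) ≤ 0.951057 := by
    refine le_of_sq_le_sq ?_ (by norm_num) |>.trans_eq' rfl
    rw [sin_sq, hc]; nlinarith
  refine vok_of (t := 2 * (π / 5)) (by positivity) (by linarith) ?_ ?_ ?_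
  · rw [hc]; linarith
  · rw [hc]; push_cast; nlinarith
  · rw [hc]; push_cast; nlinarith

/-- First entry of the table of vertex cuts. -/
def vA (i : ℕ) : ℕ := cond (Nat.beq i 0) 622 (cond (Nat.beq i 1) 1403 2306)

/-- Second entry of the table of vertex cuts. -/
def vC (i : ℕ) : ℕ := cond (Nat.beq i 0) 18199 (cond (Nat.beq i 1) 12868 7954)

theorem vok_tab (i : ℕ) : VOk (vA i) (vC i) := by
  unfold vA vC
  cases Nat.beq i 0
  · cases Nat.beq i 1
    · exact vok2
    · exact vok1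
  · exact vok0

/-- A vertex cut: multiplier, vertex, table index, weighted link edges. -/
abbrev VCut : Type := ℕ × ℕ × ℕ × List (ℕ × ℕ × ℤ × ℤ)

/-- Constant term of a vertex cut. -/
def vcC (x : VCut) : ℤ := x.1 * ((x.2.2.2.map fun e =>
  (vA x.2.2.1 : ℤ) * (8192 + e.2.2.1 * e.2.2.1 + e.2.2.2 * e.2.2.2)).sum + 8192 * vC x.2.2.1)

/-- Inner product terms of a vertex cut. -/
def vcG (x : VCut) : List (ℤ × ℕ × ℕ) := x.2.2.2.flatMap fun e =>
  [(-(x.1 * (128 * vA x.2.2.1 * e.2.2.1)), x.2.1, e.1),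
    (-(x.1 * (128 * vA x.2.2.1 * e.2.2.2)), x.2.1, e.2.1)]

/-- Determinant terms of a vertex cut. -/
def vcD (x : VCut) : List (ℤ × ℕ × ℕ × ℕ) := x.2.2.2.map fun e =>
  (-(x.1 * 33554432), x.2.1, e.1, e.2.1)

/-- Membership of a triangle, up to rotation. -/
def isF (T : List (ℕ × ℕ × ℕ)) (a b c : ℕ) : Bool :=
  decide ((a, b, c) ∈ T) || decide ((b, c, a) ∈ T) || decide ((c, a, b) ∈ T)

/-- Admissibility of a vertex cut. -/
def okV (n : ℕ) (T : List (ℕ × ℕ × ℕ)) (x : VCut) : Bool :=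
  (x.2.2.2.all fun e => isF T x.2.1 e.1 e.2.1 && decide (e.1 < n)) &&
    decide (x.2.2.2.map fun e => e.1).Nodup

/-- Determinant terms of a tetrahedron cut. -/
def pcD (x : ℕ × ℕ × ℕ × ℕ × ℕ) : List (ℤ × ℕ × ℕ × ℕ) :=
  [(x.1, x.2.1, x.2.2.1, x.2.2.2.1), (-x.1, x.2.2.2.2, x.2.2.1, x.2.2.2.1),
    (-x.1, x.2.1, x.2.2.2.2, x.2.2.2.1), (-x.1, x.2.1, x.2.2.1, x.2.2.2.2)]

theorem evG_append (P : ℕ → V) (L M : List (ℤ × ℕ × ℕ)) : evG P (L ++ M) = evG P L + evG P M := by
  simp [evG]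

theorem evD_append (P : ℕ → V) (L M : List (ℤ × ℕ × ℕ × ℕ)) :
    evD P (L ++ M) = evD P L + evD P M := by
  simp [evD]

section
variable {ι : Type} [Fintype ι] {p : ι → V} {vol : ℝ} {pos : ι → ι → ι → ι → Prop}

theorem isF_face (G : Good p vol pos) {σ : ℕ → ι} {T : List (ℕ × ℕ × ℕ)}
    (hT : ∀ f ∈ T, Face pos (σ f.1) (σ f.2.1) (σ f.2.2)) {a b c : ℕ} (h : isF T a b c = true) :
    Face pos (σ a) (σ b) (σ c) := by
  simp only [isF, Bool.or_eq_true, decide_eq_true_iff] at h
  rcases h with (h | h) | h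
  · exact hT _ h
  · exact G.face_rot (G.face_rot (hT _ h))
  · exact G.face_rot (hT _ h)

theorem vcut_nonneg (G : Good p vol pos) {n : ℕ} {σ : ℕ → ι}
    (inj : ∀ a < n, ∀ b < n, σ a = σ b → a = b) {T : List (ℕ × ℕ × ℕ)}
    (hT : ∀ f ∈ T, Face pos (σ f.1) (σ f.2.1) (σ f.2.2)) (x : VCut) (h : okV n T x = true) :
    0 ≤ (vcC x : ℝ) + evG (p ∘ σ) (vcG x) + evD (p ∘ σ) (vcD x) := by
  classical
  obtain ⟨m, v, i, s⟩ := x
  simp only [okV, Bool.and_eq_true, List.all_eq_true, decide_eq_true_iff] at h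
  obtain ⟨h1, h2⟩ := h
  obtain ⟨B, hB, hAB, hC⟩ := vok_tab i
  have nd : (s.map fun e => (σ e.1, σ e.2.1)).Nodup := by
    rw [List.nodup_map_iff_inj_on (List.Nodup.of_map _ h2)]
    intro x hx y hy e
    exact List.inj_on_of_nodup_map h2 hx hy
      (inj _ (h1 x hx).2 _ (h1 y hy).2 (Prod.mk.inj e).1)
  have key := G.vcut (σ v) (s.map fun e => (σ e.1, σ e.2.1)).toFinset ((vA i : ℝ) / 4096) B
    (by positivity) hB hAB (by
      intro e he
      obtain ⟨e, he', rfl⟩ := List.mem_map.mp (List.mem_toFinset.mp he)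
      exact isF_face G hT (h1 e he').1)
  rw [List.sum_toFinset _ nd, List.sum_toFinset _ nd, List.map_map, List.map_map] at key
  have hA : (0 : ℝ) ≤ vA i := Nat.cast_nonneg _
  have k2 : ∀ s : List (ℕ × ℕ × ℤ × ℤ), (m : ℝ) * (33554432 * ((s.map ((fun e : ι × ι =>
      (vA i : ℝ) / 4096 * (1 - (ip (p (σ v)) (p e.1) ^ 2 + ip (p (σ v)) (p e.2) ^ 2) / 2)) ∘
        fun e => (σ e.1, σ e.2.1))).sum - (s.map ((fun e : ι × ι =>
          det3 (p (σ v)) (p e.1) (p e.2)) ∘ fun e => (σ e.1, σ e.2.1))).sum) + 8192 * vC i) ≤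
      (vcC (m, v, i, s) : ℝ) + evG (p ∘ σ) (vcG (m, v, i, s)) + evD (p ∘ σ) (vcD (m, v, i, s)) := by
    intro s
    induction s with
    | nil => simp [vcC, vcG, vcD, evG, evD]
    | cons e s ih =>
      obtain ⟨b, c, g1, g2⟩ := e
      simp only [vcC, vcG, vcD, evG, evD, List.map_cons, List.sum_cons, List.flatMap_cons,
        List.map_append, List.sum_append, List.map_nil, List.sum_nil, Function.comp_apply]
        at ih ⊢
      push_cast at ih ⊢
      have hm : (0 : ℝ) ≤ (m : ℝ) * vA i := by positivity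
      have := mul_nonneg hm (add_nonneg (sq_nonneg ((g1 : ℝ) - 64 * ip (p (σ v)) (p (σ b))))
        (sq_nonneg ((g2 : ℝ) - 64 * ip (p (σ v)) (p (σ c)))))
      linarith
  refine le_trans (mul_nonneg (Nat.cast_nonneg m) ?_) (k2 s)
  linarith

theorem obj_nonneg (G : Good p vol pos) {σ : ℕ → ι} {T : List (ℕ × ℕ × ℕ)}
    (hT : ∀ f ∈ T, Face pos (σ f.1) (σ f.2.1) (σ f.2.2)) (h0 : T ≠ [])
    (hc : (edges T).Perm ((edges T).map Prod.swap)) :
    6 * vol ≤ (T.map fun f => det3 (p (σ f.1)) (p (σ f.2.1)) (p (σ f.2.2))).sum := by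
  have := G.volb (T.map fun x => (σ x.1, σ x.2.1, σ x.2.2)) (by simpa using h0)
    (by
      intro f hf
      obtain ⟨x, hx, rfl⟩ := List.mem_map.mp hf
      exact hT x hx)
    (by
      rw [edges_map]
      have := hc.map fun e => (σ e.1, σ e.2)
      simp only [List.map_map] at this ⊢
      exact this)
  simp only [List.map_map] at this
  exact this

/-- The complete checker: `true` certifies that six times the volume is below `num / 1000`. -/
noncomputable def chk (n num : ℕ) (T : List (ℕ × ℕ × ℕ)) (m : ℕ) (vc : List VCut)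
    (pc : List (ℕ × ℕ × ℕ × ℕ × ℕ)) (X Y : ℕ) : Bool :=
  !T.isEmpty && decide ((edges T).Perm ((edges T).map Prod.swap)) && vc.all (okV n T) &&
    ((vc.flatMap vcG).all fun t => Nat.blt t.2.1 n && Nat.blt t.2.2 n) &&
    (((T.map fun f => (((1000 * m : ℕ) : ℤ), f)) ++ (vc.flatMap vcD ++ pc.flatMap pcD)).all
      fun t => Nat.blt t.2.1 n && Nat.blt t.2.2.1 n && Nat.blt t.2.2.2 n) &&
    (forceL (cdG (vc.flatMap vcG)) fun LG =>
      forceL (cdD ((T.map fun f => (((1000 * m : ℕ) : ℤ), f)) ++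
          (vc.flatMap vcD ++ pc.flatMap pcD))) fun LD =>
        decide (bnd n X Y ((vc.map vcC).sum - (num * m : ℕ)) LG LD < 0))

theorem chk_sound (G : Good p vol pos) {n : ℕ} (hn : n ≤ 16) {σ : ℕ → ι}
    (inj : ∀ a < n, ∀ b < n, σ a = σ b → a = b) {T : List (ℕ × ℕ × ℕ)}
    (hT : ∀ f ∈ T, Face pos (σ f.1) (σ f.2.1) (σ f.2.2)) {num m : ℕ} {vc : List VCut}
    {pc : List (ℕ × ℕ × ℕ × ℕ × ℕ)} {X Y : ℕ}
    (hpc : ∀ x ∈ pc, 0 ≤ T4 (p (σ x.2.1)) (p (σ x.2.2.1)) (p (σ x.2.2.2.1)) (p (σ x.2.2.2.2)))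
    (h : chk n num T m vc pc X Y = true) : 6000 * vol < num := by
  by_contra hv
  rw [not_lt] at hv
  simp only [chk, forceL_eq, Bool.and_eq_true, List.all_eq_true, decide_eq_true_iff, Nat.blt_eq,
    Bool.not_eq_true', List.isEmpty_eq_false_iff] at h
  obtain ⟨⟨⟨⟨⟨h0, hc⟩, hv'⟩, hG⟩, hD⟩, hb⟩ := h
  have h1 := bnd_sound hn (P := p ∘ σ) (fun a => G.unit _) X Y
    ((vc.map vcC).sum - (num * m : ℕ)) _ _ hG (fun t ht => ⟨(hD t ht).1.1, (hD t ht).1.2, (hD t ht).2⟩)
  have h2 := obj_nonneg G hT h0 hc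
  have h3 : ∀ vc : List VCut, (∀ x ∈ vc, okV n T x = true) →
      0 ≤ (((vc.map vcC).sum : ℤ) : ℝ) + evG (p ∘ σ) (vc.flatMap vcG) +
        evD (p ∘ σ) (vc.flatMap vcD) := by
    intro vc hvc
    induction vc with
    | nil => simp [evG, evD]
    | cons x vc ih =>
      have a1 := ih fun y hy => hvc y (List.mem_cons_of_mem _ hy)
      have a2 := vcut_nonneg G inj hT x (hvc x (by simp))
      simp only [List.map_cons, List.sum_cons, List.flatMap_cons, evG_append, evD_append]
      rw [Int.cast_add]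
      linarith
  have h4 : 0 ≤ evD (p ∘ σ) (pc.flatMap pcD) := by
    clear hb hD h1
    induction pc with
    | nil => simp [evD]
    | cons x pc ih =>
      have a1 := ih fun y hy => hpc y (List.mem_cons_of_mem _ hy)
      have a2 := mul_nonneg (Nat.cast_nonneg (α := ℝ) x.1) (hpc x (by simp))
      rw [T4_eq] at a2
      rw [List.flatMap_cons, evD_append]
      simp only [pcD, evD, List.map_cons, List.sum_cons, List.map_nil, List.sum_nil,
        Function.comp_apply] at a1 ⊢
      push_cast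
      linarith
  have h5 : evD (p ∘ σ) (T.map fun f => (((1000 * m : ℕ) : ℤ), f)) =
      1000 * m * (T.map fun f => det3 (p (σ f.1)) (p (σ f.2.1)) (p (σ f.2.2))).sum := by
    simp only [evD, List.map_map, ← List.sum_map_mul_left]
    congr 1
    refine List.map_congr_left fun f _ => ?_
    simp
  have h6 := h3 vc hv'
  have h7 : ((bnd n X Y ((vc.map vcC).sum - (num * m : ℕ)) (cdG (vc.flatMap vcG))
      (cdD ((T.map fun f => (((1000 * m : ℕ) : ℤ), f)) ++ (vc.flatMap vcD ++ pc.flatMap pcD))) :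
        ℤ) : ℝ) < 0 := by exact_mod_cast hb
  rw [evD_append, evD_append, h5, Int.cast_sub, Int.cast_natCast, Nat.cast_mul] at h1
  have hm : (0 : ℝ) ≤ m := Nat.cast_nonneg _
  nlinarith

end

end Pool.Agent.MP_2ab689_gt

end MrgPart1

-- ======== part 2: formerly Pool.Agent.MP_2ab689_gt.Leaf
section MrgPart2

/-!
Identification of the leaves of the search with a table of combinatorial types.
-/

namespace Pool.Agent.MP_2ab689_gt

/-- A hexadecimal digit. -/
def hx (U r : ℕ) : ℕ := Nat.mod (Nat.shiftRight U (Nat.mul 4 r)) 16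

theorem hx_lt (U r : ℕ) : hx U r < 16 := Nat.mod_lt _ (by norm_num)

/-- The `t`-th list of `nf` triangles encoded in the number `TT`. -/
noncomputable def tri (nf TT t : ℕ) : List (ℕ × ℕ × ℕ) :=
  force (Nat.mod (Nat.shiftRight TT (Nat.mul (Nat.mul 12 nf) t)) (Nat.pow 2 (Nat.mul 12 nf)))
    fun c => Nat.rec [] (fun j acc => (hx c (Nat.mul 3 j), hx c (Nat.add (Nat.mul 3 j) 1),
      hx c (Nat.add (Nat.mul 3 j) 2)) :: acc) nf

/-- Universal quantifier over a list. -/
noncomputable def allL {α : Type} (L : List α) (f : α → Bool) : Bool :=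
  List.rec true (fun x _ acc => and (f x) acc) L

theorem allL_iff {α : Type} (L : List α) (f : α → Bool) :
    allL L f = true ↔ ∀ x ∈ L, f x = true := by
  induction L with
  | nil => simp [allL]
  | cons x L ih =>
    change (f x && allL L f) = true ↔ _
    rw [Bool.and_eq_true, ih, List.forall_mem_cons]

/-- The test at a leaf: the hint gives a type, an orientation and a relabelling. -/
noncomputable def leaf (n NT : ℕ) (tr : ℕ → List (ℕ × ℕ × ℕ)) (hint : ℕ → ℕ) (E F : ℕ) : Bool :=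
  force (hint E) fun h => force (Nat.div h 512) fun q => force (Nat.mod h 256) fun t =>
    and (Nat.blt t NT) (and
      (allLt n fun a => force (hx q a) fun x =>
        and (Nat.blt x n) (allLt a fun b => not (Nat.beq x (hx q b))))
      (cond (tb h 8) (allL (tr t) fun f => tb F (fc (hx q f.1) (hx q f.2.2) (hx q f.2.1)))
        (allL (tr t) fun f => tb F (fc (hx q f.1) (hx q f.2.1) (hx q f.2.2)))))

/-- A two-level hash table. -/
noncomputable def hash2 (M N D H E : ℕ) : ℕ :=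
  Nat.mod (Nat.shiftRight H (Nat.mul 52 (Nat.mod (Nat.mod E (Nat.add 1000003
    (Nat.mod (Nat.shiftRight D (Nat.mul 16 (Nat.mod E M))) 65536))) N))) 4503599627370496

section
variable {ι : Type} [Fintype ι] {p : ι → V} {vol : ℝ} {pos : ι → ι → ι → ι → Prop}

theorem classify (G : Good p vol pos) {n : ℕ} (hn : Fintype.card ι = n) (h16 : n ≤ 16) {NT : ℕ}
    {tr : ℕ → List (ℕ × ℕ × ℕ)} {hint : ℕ → ℕ} {fuel : ℕ}
    (h : search n (leaf n NT tr hint) fuel 3 (sb (sb (sb 0 (ec 0 1)) (ec 1 2)) (ec 2 0))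
      (sb (sb (sb 0 (fc 0 1 2)) (fc 1 2 0)) (fc 2 0 1)) 6 [(0, 1), (2, 0), (1, 2)] = true) :
    ∃ (p' : ι → V) (pos' : ι → ι → ι → ι → Prop) (σ : ℕ → ι) (t : ℕ),
      (p' = p ∨ p' = fun i => -p i) ∧ Good p' vol pos' ∧
      (∀ a < n, ∀ b < n, σ a = σ b → a = b) ∧ t < NT ∧
      ∀ f ∈ tr t, Face pos' (σ f.1) (σ f.2.1) (σ f.2.2) := by
  refine search_root G hn h16 ?_ fuel h
  intro σ E F inj hF hl
  simp only [leaf, force_eq, Bool.and_eq_true, Nat.blt_eq, allLt_iff, Bool.not_eq_true',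
    beq_dec, decide_eq_false_iff_not] at hl
  obtain ⟨h1, h2, h3⟩ := hl
  have inj' : ∀ a < n, ∀ b < n, σ (hx (Nat.div (hint E) 512) a) =
      σ (hx (Nat.div (hint E) 512) b) → a = b := by
    intro a ha b hb e
    have := inj _ (h2 a ha).1 _ (h2 b hb).1 e
    rcases lt_trichotomy a b with h | h | h
    · exact absurd this.symm ((h2 b hb).2 a h)
    · exact h
    · exact absurd this ((h2 a ha).2 b h)
  cases hm : tb (hint E) 8
  · rw [hm, cond_false, allL_iff] at h3
    exact ⟨p, pos, fun a => σ (hx (Nat.div (hint E) 512) a), _, Or.inl rfl, G, inj', h1,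
      fun f hf => hF _ (hx_lt _ _) _ (hx_lt _ _) _ (hx_lt _ _) (h3 f hf)⟩
  · rw [hm, cond_true, allL_iff] at h3
    exact ⟨_, _, fun a => σ (hx (Nat.div (hint E) 512) a), _, Or.inr rfl, G.mirror, inj', h1,
      fun f hf => (face_mirror pos _ _ _).mpr
        (hF _ (hx_lt _ _) _ (hx_lt _ _) _ (hx_lt _ _) (h3 f hf))⟩

end

end Pool.Agent.MP_2ab689_gt

end MrgPart2

-- ======== part 3: formerly Pool.Agent.MP_2ab689_gt.Vol
section MrgPart3

/-!
Volumes of simplices.
-/

namespace Pool.Agent.MP_2ab689_gt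

open MeasureTheory Set

theorem vol_tri (s : ℝ) (hs : 0 ≤ s) :
    volume {p : ℝ × ℝ | 0 < p.1 ∧ 0 < p.2 ∧ p.1 + p.2 < s} = ENNReal.ofReal (s ^ 2 / 2) := by
  have e : {p : ℝ × ℝ | 0 < p.1 ∧ 0 < p.2 ∧ p.1 + p.2 < s}
      = regionBetween (fun _ => 0) (fun y => s - y) (Ioc 0 s) := by
    ext ⟨y, z⟩
    simp only [regionBetween, mem_ofPred_eq, mem_Ioc, mem_Ioo]
    constructor
    · rintro ⟨h1, h2, h3⟩
      exact ⟨⟨h1, by linarith⟩, h2, by linarith⟩
    · rintro ⟨⟨h1, -⟩, h2, h3⟩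
      exact ⟨h1, h2, by linarith⟩
  rw [e, Measure.volume_eq_prod, volume_regionBetween_eq_integral (by simp)
    (Continuous.integrableOn_Ioc (by fun_prop)) measurableSet_Ioc
    (fun x hx => by simp only [sub_nonneg]; exact hx.2), ← intervalIntegral.integral_of_le hs]
  congr 1
  simp only [Pi.sub_apply, sub_zero]
  rw [intervalIntegral.integral_sub (by simp) (by simp), integral_id]
  simp
  ring

theorem meas_tet3 : MeasurableSet {p : ℝ × ℝ × ℝ | 0 < p.1 ∧ 0 < p.2.1 ∧ 0 < p.2.2 ∧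
    p.1 + p.2.1 + p.2.2 < 1} := by
  measurability

theorem vol_tet3 : volume {p : ℝ × ℝ × ℝ | 0 < p.1 ∧ 0 < p.2.1 ∧ 0 < p.2.2 ∧
    p.1 + p.2.1 + p.2.2 < 1} = ENNReal.ofReal (1 / 6) := by
  rw [Measure.volume_eq_prod, Measure.prod_apply meas_tet3]
  have e : ∀ x : ℝ, volume (Prod.mk x ⁻¹' {p : ℝ × ℝ × ℝ | 0 < p.1 ∧ 0 < p.2.1 ∧ 0 < p.2.2 ∧
      p.1 + p.2.1 + p.2.2 < 1}) =
      (Ioc (0 : ℝ) 1).indicator (fun x => ENNReal.ofReal ((1 - x) ^ 2 / 2)) x := by
    intro x
    by_cases hx : x ∈ Ioc (0 : ℝ) 1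
    · rw [indicator_of_mem hx, ← vol_tri (1 - x) (by linarith [hx.2])]
      congr 1
      ext ⟨y, z⟩
      simp only [mem_preimage, mem_ofPred_eq]
      constructor
      · rintro ⟨-, h2, h3, h4⟩
        exact ⟨h2, h3, by linarith⟩
      · rintro ⟨h2, h3, h4⟩
        exact ⟨hx.1, h2, h3, by linarith⟩
    · rw [indicator_of_notMem hx]
      convert measure_empty (μ := (volume : Measure (ℝ × ℝ)))
      ext ⟨y, z⟩
      simp only [mem_preimage, mem_ofPred_eq, mem_empty_iff_false, iff_false]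
      rintro ⟨h1, h2, h3, h4⟩
      exact hx ⟨h1, by linarith⟩
  simp only [e]
  rw [lintegral_indicator measurableSet_Ioc, ← ofReal_integral_eq_lintegral_ofReal
    (Continuous.integrableOn_Ioc (by fun_prop)) (ae_of_all _ fun x => by positivity),
    ← intervalIntegral.integral_of_le zero_le_one]
  congr 1
  have : ∀ x : ℝ, (1 - x) ^ 2 / 2 = 1 / 2 - x + (1 / 2) * x ^ 2 := fun x => by ring
  simp only [this]
  rw [intervalIntegral.integral_add, intervalIntegral.integral_sub, intervalIntegral.integral_const_mul,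
    integral_id, integral_pow]
  · simp; norm_num
  all_goals apply Continuous.intervalIntegrable; fun_prop

/-- The open standard simplex. -/
def stdO : Set V := {x | 0 < x 0 ∧ 0 < x 1 ∧ 0 < x 2 ∧ x 0 + x 1 + x 2 < 1}

/-- The closed standard simplex. -/
def stdC : Set V := {x | 0 ≤ x 0 ∧ 0 ≤ x 1 ∧ 0 ≤ x 2 ∧ x 0 + x 1 + x 2 ≤ 1}

theorem vol_stdO : volume stdO = ENNReal.ofReal (1 / 6) := by
  have h1 := volume_preserving_piFinSuccAbove (fun _ : Fin 3 => ℝ) 0
  have h2 := (MeasurePreserving.id (volume : Measure ℝ)).prod (volume_preserving_finTwoArrow ℝ)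
  have h3 := h2.comp h1
  rw [← vol_tet3, Measure.volume_eq_prod, ← h3.measure_preimage]
  · rfl
  · exact meas_tet3.nullMeasurableSet

theorem vol_plane (a b c d : ℝ) (h : a ≠ 0 ∨ b ≠ 0 ∨ c ≠ 0) :
    volume {x : V | a * x 0 + b * x 1 + c * x 2 = d} = 0 := by
  let l : V →ₗ[ℝ] ℝ := a • LinearMap.proj 0 + b • LinearMap.proj 1 + c • LinearMap.proj 2
  have hl : ∀ x, l x = a * x 0 + b * x 1 + c * x 2 := fun x => by simp [l]
  have hp : 0 < a ^ 2 + b ^ 2 + c ^ 2 := by
    rcases h with h | h | h <;> positivity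
  have h1 : l ![a, b, c] = a ^ 2 + b ^ 2 + c ^ 2 := by
    rw [hl]; simp; ring
  have hne : LinearMap.ker l ≠ ⊤ := by
    intro e
    have : (![a, b, c] : V) ∈ LinearMap.ker l := e ▸ Submodule.mem_top
    rw [LinearMap.mem_ker, h1] at this
    exact hp.ne' this
  have h0 := Measure.addHaar_submodule (volume : Measure V) _ hne
  rw [← measure_preimage_add_right volume (-((d / (a ^ 2 + b ^ 2 + c ^ 2)) • ![a, b, c]))] at h0
  rw [← h0]
  congr 1
  ext x
  simp only [mem_ofPred_eq, mem_preimage, SetLike.mem_coe, LinearMap.mem_ker]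
  rw [map_add, map_neg, map_smul, h1, smul_eq_mul, div_mul_cancel₀ _ hp.ne', hl]
  constructor <;> intro h <;> linarith

theorem vol_stdC : volume stdC ≤ ENNReal.ofReal (1 / 6) := by
  have hsub : stdC ⊆ stdO ∪ ({x : V | 1 * x 0 + 0 * x 1 + 0 * x 2 = 0} ∪
      {x : V | 0 * x 0 + 1 * x 1 + 0 * x 2 = 0} ∪ {x : V | 0 * x 0 + 0 * x 1 + 1 * x 2 = 0} ∪
      {x : V | 1 * x 0 + 1 * x 1 + 1 * x 2 = 1}) := by
    rintro x ⟨h0, h1, h2, h3⟩
    simp only [stdO, mem_union, mem_ofPred_eq]
    rcases h0.lt_or_eq with h0 | h0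
    · rcases h1.lt_or_eq with h1 | h1
      · rcases h2.lt_or_eq with h2 | h2
        · rcases h3.lt_or_eq with h3 | h3
          · exact Or.inl ⟨h0, h1, h2, h3⟩
          · exact Or.inr (Or.inr (by linarith))
        · exact Or.inr (Or.inl (Or.inr (by linarith)))
      · exact Or.inr (Or.inl (Or.inl (Or.inr (by linarith))))
    · exact Or.inr (Or.inl (Or.inl (Or.inl (by linarith))))
  refine (measure_mono hsub).trans ((measure_union_le _ _).trans ?_)
  rw [vol_stdO, measure_union_null (measure_union_null (measure_union_null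
    (vol_plane _ _ _ _ (by simp)) (vol_plane _ _ _ _ (by simp))) (vol_plane _ _ _ _ (by simp)))
    (vol_plane _ _ _ _ (by simp)), add_zero]

/-- The affine parametrisation of a simplex. -/
def aff (g a b c : V) (w : V) : V := g + w 0 • (a - g) + w 1 • (b - g) + w 2 • (c - g)

theorem vol_aff (g a b c : V) (s : Set V) :
    volume (aff g a b c '' s) = ENNReal.ofReal |T4 a b c g| * volume s := by
  let M : Matrix (Fin 3) (Fin 3) ℝ := Matrix.of fun i j => ![a - g, b - g, c - g] j i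
  have hdet : M.det = T4 a b c g := by
    rw [Matrix.det_fin_three]
    simp only [M, T4, det3, Matrix.of_apply, Matrix.cons_val_zero, Matrix.cons_val_one,
      Matrix.cons_val_two, Matrix.head_cons, Matrix.tail_cons]
    ring
  have e : aff g a b c '' s = (fun x => g + x) '' (Matrix.toLin' M '' s) := by
    rw [image_image]
    congr 1
    funext w i
    simp only [aff, M, Matrix.toLin'_apply, Matrix.mulVec, dotProduct, Fin.sum_univ_three,
      Matrix.of_apply, Matrix.cons_val_zero, Matrix.cons_val_one, Matrix.cons_val_two,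
      Matrix.head_cons, Matrix.tail_cons, Pi.add_apply, Pi.smul_apply, smul_eq_mul]
    ring
  rw [e, image_add_left, measure_preimage_add, Measure.addHaar_image_linearMap,
    LinearMap.det_toLin', hdet]

theorem Spx_eq (g a b c : V) : Spx g a b c = aff g a b c '' stdC := by
  ext x
  constructor
  · rintro ⟨α, β, γ, h1, h2, h3, h4, rfl⟩
    exact ⟨![α, β, γ], ⟨h1, h2, h3, h4⟩, rfl⟩
  · rintro ⟨w, ⟨h1, h2, h3, h4⟩, rfl⟩
    exact ⟨_, _, _, h1, h2, h3, h4, rfl⟩

theorem vol_Spx_le (g a b c : V) (h : 0 ≤ T4 a b c g) :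
    volume (Spx g a b c) ≤ ENNReal.ofReal (T4 a b c g / 6) := by
  rw [Spx_eq, vol_aff, abs_of_nonneg h, div_eq_mul_one_div, ENNReal.ofReal_mul h]
  gcongr
  exact vol_stdC

/-- Lower bound for the volume of a convex set from a family of strict facets. -/
theorem vol_ge_of_faces {ι : Type} (q : ι → V) (K : Set V) (hK : Convex ℝ K) (h0 : (0 : V) ∈ K)
    (hq : ∀ i, q i ∈ K) (s : Finset (ι × ι × ι)) (hs : ∀ f ∈ s, Face (posq q) f.1 f.2.1 f.2.2)
    (hpos : ∀ f ∈ s, 0 < det3 (q f.1) (q f.2.1) (q f.2.2))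
    (hne : ∀ f ∈ s, ∀ f' ∈ s, f ≠ f' → ∃ l, (l = f'.1 ∨ l = f'.2.1 ∨ l = f'.2.2) ∧
      l ≠ f.1 ∧ l ≠ f.2.1 ∧ l ≠ f.2.2) :
    ENNReal.ofReal ((∑ f ∈ s, det3 (q f.1) (q f.2.1) (q f.2.2)) / 6) ≤ volume K := by
  have T0 : ∀ a b c : V, T4 a b c 0 = det3 a b c := fun a b c => by simp [T4]
  let B : ι × ι × ι → Set V := fun f => aff 0 (q f.1) (q f.2.1) (q f.2.2) '' stdO
  have hB : ∀ f ∈ s, B f = {x | 0 < det3 x (q f.2.1) (q f.2.2) ∧ 0 < det3 (q f.1) x (q f.2.2) ∧
      0 < det3 (q f.1) (q f.2.1) x ∧ 0 < T4 (q f.1) (q f.2.1) (q f.2.2) x} := by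
    rintro ⟨a, b, c⟩ hf
    have hp := hpos _ hf
    simp only at hp
    ext x
    simp only [B, mem_image, mem_ofPred_eq]
    constructor
    · rintro ⟨w, ⟨h1, h2, h3, h4⟩, rfl⟩
      have e1 : det3 (aff 0 (q a) (q b) (q c) w) (q b) (q c) = w 0 * det3 (q a) (q b) (q c) := by
        simp only [aff, det3, Pi.add_apply, Pi.smul_apply, Pi.sub_apply, smul_eq_mul, Pi.zero_apply]
        ring
      have e2 : det3 (q a) (aff 0 (q a) (q b) (q c) w) (q c) = w 1 * det3 (q a) (q b) (q c) := by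
        simp only [aff, det3, Pi.add_apply, Pi.smul_apply, Pi.sub_apply, smul_eq_mul, Pi.zero_apply]
        ring
      have e3 : det3 (q a) (q b) (aff 0 (q a) (q b) (q c) w) = w 2 * det3 (q a) (q b) (q c) := by
        simp only [aff, det3, Pi.add_apply, Pi.smul_apply, Pi.sub_apply, smul_eq_mul, Pi.zero_apply]
        ring
      rw [T4_eq, e1, e2, e3]
      refine ⟨by positivity, by positivity, by positivity, ?_⟩
      nlinarith
    · rintro ⟨h1, h2, h3, h4⟩
      refine ⟨![det3 x (q b) (q c) / det3 (q a) (q b) (q c),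
        det3 (q a) x (q c) / det3 (q a) (q b) (q c), det3 (q a) (q b) x / det3 (q a) (q b) (q c)],
        ⟨div_pos h1 hp, div_pos h2 hp, div_pos h3 hp, ?_⟩, ?_⟩
      · simp only [Matrix.cons_val_zero, Matrix.cons_val_one, Matrix.cons_val_two,
          Matrix.head_cons, Matrix.tail_cons]
        rw [← add_div, ← add_div, div_lt_one hp]
        rw [T4_eq] at h4
        linarith
      · funext i
        simp only [aff, Matrix.cons_val_zero, Matrix.cons_val_one, Matrix.cons_val_two,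
          Matrix.head_cons, Matrix.tail_cons, Pi.add_apply, Pi.smul_apply, Pi.sub_apply,
          smul_eq_mul, Pi.zero_apply]
        field_simp
        simp only [det3]
        fin_cases i <;> simp <;> ring
  have hlt : ∀ f ∈ s, ∀ f' ∈ s, f ≠ f' → ∀ x ∈ B f',
      T4 (q f'.1) (q f'.2.1) (q f'.2.2) x / det3 (q f'.1) (q f'.2.1) (q f'.2.2) <
      T4 (q f.1) (q f.2.1) (q f.2.2) x / det3 (q f.1) (q f.2.1) (q f.2.2) := by
    rintro ⟨a, b, c⟩ hf ⟨a', b', c'⟩ hf' hff _ ⟨w, ⟨h1, h2, h3, h4⟩, rfl⟩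
    have hp := hpos _ hf
    have hp' := hpos _ hf'
    obtain ⟨l, hl, l1, l2, l3⟩ := hne _ hf _ hf' hff
    have F := hs _ hf
    simp only at hp hp' hl l1 l2 l3 F ⊢
    have e1 : T4 (q a') (q b') (q c') (aff 0 (q a') (q b') (q c') w)
        = (1 - w 0 - w 1 - w 2) * det3 (q a') (q b') (q c') := by
      simp only [aff, T4, det3, Pi.add_apply, Pi.smul_apply, Pi.sub_apply, smul_eq_mul,
        Pi.zero_apply]
      ring
    have e2 : T4 (q a) (q b) (q c) (aff 0 (q a') (q b') (q c') w)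
        = (1 - w 0 - w 1 - w 2) * det3 (q a) (q b) (q c) + (w 0 * T4 (q a) (q b) (q c) (q a')
          + w 1 * T4 (q a) (q b) (q c) (q b') + w 2 * T4 (q a) (q b) (q c) (q c')) := by
      simp only [aff, T4, det3, Pi.add_apply, Pi.smul_apply, Pi.sub_apply, smul_eq_mul,
        Pi.zero_apply]
      ring
    have n1 := mul_nonneg h1.le (face_nonneg F a')
    have n2 := mul_nonneg h2.le (face_nonneg F b')
    have n3 := mul_nonneg h3.le (face_nonneg F c')
    have hl' : 0 < T4 (q a) (q b) (q c) (q l) := F.2.2.2 l l1 l2 l3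
    have : 0 < w 0 * T4 (q a) (q b) (q c) (q a') + w 1 * T4 (q a) (q b) (q c) (q b')
        + w 2 * T4 (q a) (q b) (q c) (q c') := by
      rcases hl with rfl | rfl | rfl
      · have := mul_pos h1 hl'; linarith
      · have := mul_pos h2 hl'; linarith
      · have := mul_pos h3 hl'; linarith
    rw [e1, e2, mul_div_assoc, div_self hp'.ne', lt_div_iff₀ hp]
    linarith
  have hdisj : (s : Set (ι × ι × ι)).PairwiseDisjoint B := by
    intro f hf f' hf' hff
    rw [Function.onFun, Set.disjoint_left]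
    intro x h1 h2
    exact lt_asymm (hlt f hf f' hf' hff x h2) (hlt f' hf' f hf hff.symm x h1)
  have hmeas : ∀ f ∈ s, MeasurableSet (B f) := by
    intro f hf
    rw [hB f hf]
    apply IsOpen.measurableSet
    have c1 : Continuous fun x : V => det3 x (q f.2.1) (q f.2.2) := by
      simp only [det3]; fun_prop
    have c2 : Continuous fun x : V => det3 (q f.1) x (q f.2.2) := by
      simp only [det3]; fun_prop
    have c3 : Continuous fun x : V => det3 (q f.1) (q f.2.1) x := by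
      simp only [det3]; fun_prop
    have c4 : Continuous fun x : V => T4 (q f.1) (q f.2.1) (q f.2.2) x := by
      simp only [T4, det3, Pi.sub_apply]; fun_prop
    exact (isOpen_lt continuous_const c1).inter ((isOpen_lt continuous_const c2).inter
      ((isOpen_lt continuous_const c3).inter (isOpen_lt continuous_const c4)))
  have hsub : (⋃ f ∈ s, B f) ⊆ K := by
    intro x hx
    simp only [mem_iUnion] at hx
    obtain ⟨f, -, w, ⟨h1, h2, h3, h4⟩, rfl⟩ := hx
    have := hK.sum_mem (t := Finset.univ) (w := ![1 - w 0 - w 1 - w 2, w 0, w 1, w 2])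
      (z := ![0, q f.1, q f.2.1, q f.2.2])
      (fun i _ => by fin_cases i <;> simp <;> linarith) (by simp [Fin.sum_univ_four]; ring)
      (fun i _ => by fin_cases i <;> simp [h0, hq])
    simpa [Fin.sum_univ_four, aff] using this
  refine le_trans ?_ (measure_mono hsub)
  rw [measure_biUnion_finset hdisj hmeas, Finset.sum_div,
    ENNReal.ofReal_sum_of_nonneg fun f hf => by have := hpos f hf; positivity]
  refine Finset.sum_le_sum fun f hf => le_of_eq ?_
  simp only [B]
  rw [vol_aff, vol_stdO, T0, abs_of_pos (hpos f hf), ← ENNReal.ofReal_mul (hpos f hf).le]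
  congr 1
  ring

end Pool.Agent.MP_2ab689_gt

end MrgPart3

-- ======== part 4: formerly Pool.Agent.MP_2ab689_gt.Limit
section MrgPart4

/-!
Every configuration of distinct unit vectors is a limit of generic configurations with a fixed
orientation predicate.
-/

namespace Pool.Agent.MP_2ab689_gt

open MeasureTheory Set Filter Topology

theorem ev_ne (a0 a1 a2 a3 : ℝ) (h : a1 ≠ 0 ∨ a2 ≠ 0 ∨ a3 ≠ 0) :
    ∀ᶠ t in 𝓝[≠] (0 : ℝ), a0 + a1 * t + a2 * t ^ 2 + a3 * t ^ 3 ≠ 0 := by
  let P : Polynomial ℝ := Polynomial.C a0 + Polynomial.C a1 * Polynomial.X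
    + Polynomial.C a2 * Polynomial.X ^ 2 + Polynomial.C a3 * Polynomial.X ^ 3
  have hP : P ≠ 0 := by
    intro e
    have h1 := congrArg (fun Q => Polynomial.coeff Q 1) e
    have h2 := congrArg (fun Q => Polynomial.coeff Q 2) e
    have h3 := congrArg (fun Q => Polynomial.coeff Q 3) e
    simp [P, Polynomial.coeff_X_pow, Polynomial.coeff_C] at h1 h2 h3
    tauto
  have h1 : ∀ᶠ t in cofinite, ¬ P.IsRoot t := by
    rw [eventually_cofinite]
    simpa using Polynomial.finite_setOfPred_isRoot hP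
  filter_upwards [nhdsNE_le_cofinite (0 : ℝ) h1] with t ht
  simpa [P, Polynomial.IsRoot] using ht

theorem exists_freq {α : Type} [Finite α] {l : Filter ℝ} [l.NeBot] {P : ℝ → α → Prop}
    (h : ∀ᶠ t in l, ∃ a, P t a) : ∃ a, ∃ᶠ t in l, P t a := by
  by_contra hc
  simp only [not_exists, not_frequently] at hc
  obtain ⟨t, ⟨a, ha⟩, ht⟩ := (h.and (eventually_all.mpr hc)).exists
  exact ht a ha

/-- The moment curve. -/
def mom {n : ℕ} (i : Fin n) : V := ![(i : ℝ), (i : ℝ) ^ 2, (i : ℝ) ^ 3]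

/-- The perturbed configuration. -/
def pert {n : ℕ} (p : Fin n → V) (t : ℝ) (i : Fin n) : V := p i + t • mom i

theorem pert_zero {n : ℕ} (p : Fin n → V) : pert p 0 = p := by
  funext i; simp [pert]

theorem cont_pert {n : ℕ} (p : Fin n → V) (i : Fin n) (k : Fin 3) :
    Continuous fun t => pert p t i k := by
  simp only [pert, Pi.add_apply, Pi.smul_apply, smul_eq_mul]; fun_prop

theorem ev_gen {n : ℕ} (p : Fin n → V) : ∀ᶠ t in 𝓝[≠] (0 : ℝ), Gen (pert p t) := by
  have ne : ∀ a b : Fin n, a ≠ b → (a : ℝ) - b ≠ 0 := fun a b h =>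
    sub_ne_zero.mpr (by exact_mod_cast fun e => h (Fin.ext e))
  have A : ∀ᶠ t in 𝓝[≠] (0 : ℝ), ∀ a b c d : Fin n, a ≠ b → a ≠ c → a ≠ d → b ≠ c → b ≠ d →
      c ≠ d → T4 (pert p t a) (pert p t b) (pert p t c) (pert p t d) ≠ 0 := by
    simp only [eventually_all]
    intro a b c d h1 h2 h3 h4 h5 h6
    have := ev_ne (T4 (p a) (p b) (p c) (p d))
      (det3 (mom a - mom d) (p b - p d) (p c - p d) + det3 (p a - p d) (mom b - mom d) (p c - p d)
        + det3 (p a - p d) (p b - p d) (mom c - mom d))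
      (det3 (p a - p d) (mom b - mom d) (mom c - mom d)
        + det3 (mom a - mom d) (p b - p d) (mom c - mom d)
        + det3 (mom a - mom d) (mom b - mom d) (p c - p d))
      (T4 (mom a) (mom b) (mom c) (mom d)) (Or.inr (Or.inr (by
        have e : T4 (mom a) (mom b) (mom c) (mom d) = -(((a : ℝ) - b) * ((a : ℝ) - c) *
            ((a : ℝ) - d) * ((b : ℝ) - c) * ((b : ℝ) - d) * ((c : ℝ) - d)) := by
          simp only [T4, det3, mom, Pi.sub_apply, Matrix.cons_val_zero, Matrix.cons_val_one,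
            Matrix.cons_val_two, Matrix.head_cons, Matrix.tail_cons]
          ring
        rw [e, neg_ne_zero]
        exact mul_ne_zero (mul_ne_zero (mul_ne_zero (mul_ne_zero (mul_ne_zero (ne _ _ h1)
          (ne _ _ h2)) (ne _ _ h3)) (ne _ _ h4)) (ne _ _ h5)) (ne _ _ h6))))
    filter_upwards [this] with t ht
    convert ht using 1
    simp only [T4, det3, pert, Pi.sub_apply, Pi.add_apply, Pi.smul_apply, smul_eq_mul]
    ring
  have B : ∀ᶠ t in 𝓝[≠] (0 : ℝ), ∀ a b c : Fin n, a ≠ b → a ≠ c → b ≠ c →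
      (pert p t b 0 - pert p t a 0) * (pert p t c 1 - pert p t a 1)
        - (pert p t c 0 - pert p t a 0) * (pert p t b 1 - pert p t a 1) ≠ 0 := by
    simp only [eventually_all]
    intro a b c h1 h2 h3
    have := ev_ne ((p b 0 - p a 0) * (p c 1 - p a 1) - (p c 0 - p a 0) * (p b 1 - p a 1))
      ((p b 0 - p a 0) * ((c : ℝ) ^ 2 - a ^ 2) + ((b : ℝ) - a) * (p c 1 - p a 1)
        - (p c 0 - p a 0) * ((b : ℝ) ^ 2 - a ^ 2) - ((c : ℝ) - a) * (p b 1 - p a 1))
      (-(((a : ℝ) - b) * ((a : ℝ) - c) * ((b : ℝ) - c))) 0 (Or.inr (Or.inl (by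
        rw [neg_ne_zero]
        exact mul_ne_zero (mul_ne_zero (ne _ _ h1) (ne _ _ h2)) (ne _ _ h3))))
    filter_upwards [this] with t ht
    convert ht using 1
    simp only [pert, mom, Pi.add_apply, Pi.smul_apply, smul_eq_mul, Matrix.cons_val_zero,
      Matrix.cons_val_one]
    ring
  have C : ∀ᶠ t in 𝓝[≠] (0 : ℝ), ∀ a b : Fin n, a ≠ b → pert p t a 0 ≠ pert p t b 0 := by
    simp only [eventually_all]
    intro a b h1
    filter_upwards [ev_ne (p a 0 - p b 0) ((a : ℝ) - b) 0 0 (Or.inl (ne _ _ h1))] with t ht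
    rw [← sub_ne_zero]
    convert ht using 1
    simp only [pert, mom, Pi.add_apply, Pi.smul_apply, smul_eq_mul, Matrix.cons_val_zero]
    ring
  filter_upwards [A, B, C] with t h1 h2 h3 using ⟨h1, h2, h3⟩

theorem T4_sum {ι : Type} [Fintype ι] (a b c : V) (w : ι → ℝ) (hw : ∑ i, w i = 1) (z : ι → V) :
    T4 a b c (∑ i, w i • z i) = ∑ i, w i * T4 a b c (z i) := by
  have e : ∀ x : V, T4 a b c x = det3 a b c -
      (x 0 * (b 1 * c 2 - b 2 * c 1 + c 1 * a 2 - c 2 * a 1 + a 1 * b 2 - a 2 * b 1)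
      + x 1 * (b 2 * c 0 - b 0 * c 2 + c 2 * a 0 - c 0 * a 2 + a 2 * b 0 - a 0 * b 2)
      + x 2 * (b 0 * c 1 - b 1 * c 0 + c 0 * a 1 - c 1 * a 0 + a 0 * b 1 - a 1 * b 0)) := by
    intro x
    simp only [T4, det3, Pi.sub_apply]; ring
  simp only [e, mul_sub, Finset.sum_sub_distrib, ← Finset.sum_mul, hw, one_mul, Finset.sum_apply,
    Pi.smul_apply, smul_eq_mul, mul_add, Finset.sum_add_distrib, ← mul_assoc]

theorem ip_sum {ι : Type} [Fintype ι] (a : V) (w : ι → ℝ) (z : ι → V) :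
    ip a (∑ i, w i • z i) = ∑ i, w i * ip a (z i) := by
  simp only [ip, Finset.sum_apply, Pi.smul_apply, smul_eq_mul, Finset.mul_sum, mul_add,
    Finset.sum_add_distrib]
  congr 1
  · congr 1 <;> exact Finset.sum_congr rfl fun i _ => by ring
  · exact Finset.sum_congr rfl fun i _ => by ring

theorem mem_hull {ι : Type} [Fintype ι] (p : ι → V) {x : V} (hx : x ∈ convexHull ℝ (range p)) :
    ∃ w : ι → ℝ, (∀ i, 0 ≤ w i) ∧ ∑ i, w i = 1 ∧ x = ∑ i, w i • p i := by
  classical
  have : convexHull ℝ (range p) ⊆ Fintype.linearCombination ℝ p '' stdSimplex ℝ ι := by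
    refine convexHull_min ?_ ((convex_stdSimplex ℝ ι).linear_image _)
    rintro _ ⟨i, rfl⟩
    exact ⟨Pi.single i 1, single_mem_stdSimplex ℝ i, by simp⟩
  obtain ⟨w, hw, rfl⟩ := this hx
  exact ⟨w, hw.1, hw.2, by rw [Fintype.linearCombination_apply]⟩

theorem isClosed_Spx : IsClosed {y : V × V × V × V × V |
    y.1 ∈ Spx y.2.1 y.2.2.1 y.2.2.2.1 y.2.2.2.2} := by
  have hc : IsCompact stdC := by
    refine (isCompact_Icc (a := (0 : V)) (b := 1)).of_isClosed_subset ?_ ?_
    · have c0 : Continuous fun x : V => x 0 := by fun_prop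
      have c1 : Continuous fun x : V => x 1 := by fun_prop
      have c2 : Continuous fun x : V => x 2 := by fun_prop
      exact (isClosed_le continuous_const c0).inter ((isClosed_le continuous_const c1).inter
        ((isClosed_le continuous_const c2).inter
          (isClosed_le ((c0.add c1).add c2) continuous_const)))
    · rintro x ⟨h0, h1, h2, h3⟩
      constructor <;> intro i <;> fin_cases i <;> simp <;> linarith
  have : CompactSpace stdC := isCompact_iff_compactSpace.mp hc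
  have h1 : IsClosed {z : stdC × (V × V × V × V × V) |
      z.2.1 = aff z.2.2.1 z.2.2.2.1 z.2.2.2.2.1 z.2.2.2.2.2 z.1} := by
    refine isClosed_eq (by fun_prop) ?_
    have cw : ∀ k : Fin 3, Continuous fun z : stdC × (V × V × V × V × V) => (z.1 : V) k :=
      fun k => (continuous_apply k).comp (continuous_subtype_val.comp continuous_fst)
    exact (((by fun_prop : Continuous fun z : stdC × (V × V × V × V × V) => z.2.2.1).add
      ((cw 0).smul (by fun_prop))).add ((cw 1).smul (by fun_prop))).add ((cw 2).smul (by fun_prop))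
  convert isClosedMap_snd_of_compactSpace _ h1 using 1
  ext y
  simp only [Spx_eq, mem_ofPred_eq, mem_image]
  constructor
  · rintro ⟨w, hw, e⟩
    exact ⟨(⟨w, hw⟩, y), e.symm, rfl⟩
  · rintro ⟨⟨w, y'⟩, e, rfl⟩
    exact ⟨w, w.2, e.symm⟩

theorem Spx_rot {g a b c x : V} (h : x ∈ Spx g a b c) : x ∈ Spx g b c a := by
  obtain ⟨α, β, γ, h1, h2, h3, h4, rfl⟩ := h
  exact ⟨β, γ, α, h2, h3, h1, by linarith, by abel⟩

theorem mem_edges {α : Type} {L : List (α × α × α)} {a b : α} :
    (a, b) ∈ edges L ↔ ∃ c, (a, b, c) ∈ L ∨ (b, c, a) ∈ L ∨ (c, a, b) ∈ L := by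
  simp only [edges, List.mem_flatMap, List.mem_cons, Prod.mk.injEq, List.not_mem_nil, or_false]
  constructor
  · rintro ⟨⟨x, y, z⟩, h, ⟨rfl, rfl⟩ | ⟨rfl, rfl⟩ | ⟨rfl, rfl⟩⟩
    · exact ⟨z, Or.inl h⟩
    · exact ⟨x, Or.inr (Or.inr h)⟩
    · exact ⟨y, Or.inr (Or.inl h)⟩
  · rintro ⟨c, h | h | h⟩
    · exact ⟨_, h, Or.inl ⟨rfl, rfl⟩⟩
    · exact ⟨_, h, Or.inr (Or.inr ⟨rfl, rfl⟩)⟩
    · exact ⟨_, h, Or.inr (Or.inl ⟨rfl, rfl⟩)⟩

theorem sum_T4_list {ι : Type} (p : ι → V) (g : V) (L : List (ι × ι × ι)) :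
    (L.map fun f => T4 (p f.1) (p f.2.1) (p f.2.2) g).sum =
      (L.map fun f => det3 (p f.1) (p f.2.1) (p f.2.2)).sum -
        ((edges L).map fun e => det3 g (p e.1) (p e.2)).sum := by
  induction L with
  | nil => simp [edges]
  | cons f L ih =>
    simp only [edges, List.map_cons, List.sum_cons, List.flatMap_cons, List.map_append,
      List.sum_append, List.map_nil, List.sum_nil] at ih ⊢
    have e : T4 (p f.1) (p f.2.1) (p f.2.2) g = det3 (p f.1) (p f.2.1) (p f.2.2) -
        (det3 g (p f.1) (p f.2.1) + det3 g (p f.2.1) (p f.2.2) + det3 g (p f.2.2) (p f.1)) := by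
      simp only [T4, det3, Pi.sub_apply]; ring
    rw [ih, e]
    ring

theorem sum_edges_zero {ι : Type} (p : ι → V) (g : V) (E : List (ι × ι))
    (h : E.Perm (E.map Prod.swap)) : (E.map fun e => det3 g (p e.1) (p e.2)).sum = 0 := by
  have h1 := (h.map fun e => det3 g (p e.1) (p e.2)).sum_eq
  have h2 : ∀ E : List (ι × ι), ((E.map Prod.swap).map fun e => det3 g (p e.1) (p e.2)).sum
      = -(E.map fun e => det3 g (p e.1) (p e.2)).sum := by
    intro E
    induction E with
    | nil => simp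
    | cons e E ih =>
      simp only [List.map_cons, List.sum_cons, ih, Prod.fst_swap, Prod.snd_swap]
      rw [det3_swap23]; ring
  rw [h2] at h1
  linarith

theorem vol_list_le {α : Type} (B : α → Set V) (r : α → ℝ) (L : List α) (hr : ∀ f ∈ L, 0 ≤ r f)
    (h : ∀ f ∈ L, volume (B f) ≤ ENNReal.ofReal (r f)) :
    ∀ K : Set V, (∀ x ∈ K, ∃ f ∈ L, x ∈ B f) → volume K ≤ ENNReal.ofReal (L.map r).sum := by
  induction L with
  | nil =>
    intro K hK
    have : K = ∅ := eq_empty_of_forall_notMem fun x hx => by simpa using hK x hx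
    simp [this]
  | cons f L ih =>
    intro K hK
    have e : K ⊆ B f ∪ (K \ B f) := by
      intro x hx
      by_cases h : x ∈ B f
      · exact Or.inl h
      · exact Or.inr ⟨hx, h⟩
    have h1 : volume K ≤ volume (B f ∪ (K \ B f)) := measure_mono e
    have h2 : volume (B f ∪ (K \ B f)) ≤ volume (B f) + volume (K \ B f) := measure_union_le _ _
    have h3 := ih (fun g hg => hr g (by simp [hg])) (fun g hg => h g (by simp [hg])) (K \ B f)
      (fun x hx => by
        obtain ⟨g, hg, hx'⟩ := hK x hx.1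
        rcases List.mem_cons.mp hg with rfl | hg
        · exact absurd hx' hx.2
        · exact ⟨g, hg, hx'⟩)
    rw [List.map_cons, List.sum_cons, ENNReal.ofReal_add (hr f (by simp))
      (List.sum_nonneg (by
        simp only [List.mem_map]
        rintro _ ⟨g, hg, rfl⟩
        exact hr g (by simp [hg])))]
    exact h1.trans (h2.trans (add_le_add (h f (by simp)) h3))

theorem vol_le_of_cover {ι : Type} (p : ι → V) (g : V) (K : Set V) (L : List (ι × ι × ι))
    (hsub : ∀ x ∈ K, ∃ f ∈ L, x ∈ Spx g (p f.1) (p f.2.1) (p f.2.2))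
    (hT : ∀ f ∈ L, 0 ≤ T4 (p f.1) (p f.2.1) (p f.2.2) g)
    (hP : (edges L).Perm ((edges L).map Prod.swap)) :
    6 * (volume K).toReal ≤ (L.map fun f => det3 (p f.1) (p f.2.1) (p f.2.2)).sum := by
  have hT' : ∀ f ∈ L, 0 ≤ T4 (p f.1) (p f.2.1) (p f.2.2) g / 6 := fun f hf =>
    div_nonneg (hT f hf) (by norm_num)
  have h5 : ∀ f ∈ L, volume (Spx g (p f.1) (p f.2.1) (p f.2.2)) ≤
      ENNReal.ofReal (T4 (p f.1) (p f.2.1) (p f.2.2) g / 6) := by
    intro f hf
    exact vol_Spx_le g (p f.1) (p f.2.1) (p f.2.2) (hT f hf)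
  have h1 := vol_list_le (fun f : ι × ι × ι => Spx g (p f.1) (p f.2.1) (p f.2.2))
      (fun f => T4 (p f.1) (p f.2.1) (p f.2.2) g / 6) L hT' h5 K hsub
  have h4 : 0 ≤ (L.map fun f => T4 (p f.1) (p f.2.1) (p f.2.2) g / 6).sum := by
    refine List.sum_nonneg ?_
    simp only [List.mem_map]
    rintro _ ⟨f, hf, rfl⟩
    exact hT' f hf
  have h2 := ENNReal.toReal_le_of_le_ofReal h4 h1
  have h3 := sum_T4_list p g L
  rw [sum_edges_zero p g _ hP, sub_zero] at h3
  simp only [div_eq_mul_inv, List.sum_map_mul_right] at h2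
  rw [h3] at h2
  linarith

theorem exists_good {n : ℕ} (h4 : 4 ≤ n) (p : Fin n → V) (hu : ∀ i, ip (p i) (p i) = 1)
    (hinj : Function.Injective p) :
    ∃ pos, Good p (volume (convexHull ℝ (range p))).toReal pos := by
  classical
  have h4' : 4 ≤ Fintype.card (Fin n) := by simpa using h4
  obtain ⟨pos, hfr⟩ := exists_freq (l := 𝓝[≠] (0 : ℝ))
    (P := fun t pos => Gen (pert p t) ∧ posq (pert p t) = pos)
    ((ev_gen p).mono fun t ht => ⟨_, ht, rfl⟩)
  set l : Filter ℝ := 𝓝[≠] (0 : ℝ) ⊓ 𝓟 {t | Gen (pert p t) ∧ posq (pert p t) = pos} with hl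
  have : l.NeBot := frequently_iff_neBot.mp hfr
  have hev : ∀ᶠ t in l, Gen (pert p t) ∧ posq (pert p t) = pos :=
    eventually_inf_principal.mpr (Eventually.of_forall fun _ h => h)
  have hle : l ≤ 𝓝 0 := inf_le_left.trans nhdsWithin_le_nhds
  have lim : ∀ {X : Type} [TopologicalSpace X] (f : ℝ → X), Continuous f →
      Tendsto f l (𝓝 (f 0)) := fun f hf => (hf.tendsto 0).mono_left hle
  have cp := cont_pert p
  have hcomb : Comb pos := by
    obtain ⟨t, h1, h2⟩ := hev.exists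
    exact h2 ▸ h1.comb h4'
  have hweak : ∀ {a b c d}, pos a b c d → 0 ≤ T4 (p a) (p b) (p c) (p d) := by
    intro a b c d h
    have h1 := lim (fun t => T4 (pert p t a) (pert p t b) (pert p t c) (pert p t d)) (by
      simp only [T4, det3, Pi.sub_apply]; fun_prop)
    simp only [pert_zero] at h1
    refine ge_of_tendsto h1 (hev.mono fun t ht => ?_)
    rw [← ht.2] at h
    exact le_of_lt h
  have hn : (0 : ℝ) < n := by exact_mod_cast (by omega : 0 < n)
  have hsum : ∑ _i : Fin n, (n : ℝ)⁻¹ = 1 := by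
    simp [hn.ne']
  set g : V := ∑ i, (n : ℝ)⁻¹ • p i with hg
  have cover : ∀ F : Fin n → Fin n → Fin n → Prop, (∃ a b c, F a b c) →
      (∀ a b c, F a b c → Face pos a b c) → (∀ a b c, F a b c → F b c a) →
      (∀ a b c, F a b c → ∃ d, F b a d) → ∀ x ∈ convexHull ℝ (range p),
      ∃ a b c, F a b c ∧ x ∈ Spx g (p a) (p b) (p c) := by
    intro F f1 f2 f3 f4 x hx
    obtain ⟨w, w0, w1, rfl⟩ := mem_hull p hx
    obtain ⟨⟨a, b, c⟩, hf⟩ := exists_freq (l := l) (α := Fin n × Fin n × Fin n)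
      (P := fun t f => F f.1 f.2.1 f.2.2 ∧ (∑ i, w i • pert p t i) ∈
        Spx (∑ i, (n : ℝ)⁻¹ • pert p t i) (pert p t f.1) (pert p t f.2.1) (pert p t f.2.2))
      (hev.mono fun t ht => by
        obtain ⟨a, b, c, h⟩ := cover_of_closed (q := pert p t) h4'
          (∑ i, (n : ℝ)⁻¹ • pert p t i) (∑ i, w i • pert p t i) (by
            intro a b c hf
            rw [T4_sum _ _ _ _ hsum]
            obtain ⟨z, z1, z2, z3⟩ := exists_third h4' a b c
            exact Finset.sum_pos' (fun i _ => mul_nonneg (by positivity) (face_nonneg hf i))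
              ⟨z, Finset.mem_univ _, mul_pos (by positivity) (hf.2.2.2 z z1 z2 z3)⟩)
          (by
            intro a b c hf
            rw [T4_sum _ _ _ _ w1]
            exact Finset.sum_nonneg fun i _ => mul_nonneg (w0 i) (face_nonneg hf i))
          F f1 (by rw [ht.2]; exact f2) f3 f4
        exact ⟨(a, b, c), h⟩)
    obtain ⟨t0, hF, -⟩ := hf.exists
    refine ⟨a, b, c, hF, ?_⟩
    have cp' : ∀ i, Continuous fun t => pert p t i := fun i => continuous_pi (cp i)
    have h1 := lim (fun t => ((∑ i, w i • pert p t i, ∑ i, (n : ℝ)⁻¹ • pert p t i,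
      pert p t a, pert p t b, pert p t c) : V × V × V × V × V)) (by fun_prop)
    have h2 := isClosed_Spx.mem_of_frequently_of_tendsto (hf.mono fun t ht => ht.2) h1
    simpa only [pert_zero, mem_ofPred_eq] using h2
  have gT : ∀ a b c, Face pos a b c → 0 ≤ T4 (p a) (p b) (p c) g := by
    intro a b c hf
    rw [hg, T4_sum _ _ _ _ hsum]
    refine Finset.sum_nonneg fun l _ => mul_nonneg (by positivity) ?_
    by_cases h1 : l = a
    · rw [h1, T4_self1]
    by_cases h2 : l = b
    · rw [h2, T4_self2]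
    by_cases h3 : l = c
    · rw [h3, T4_self3]
    exact hweak (hf.2.2.2 l h1 h2 h3)
  refine ⟨pos, hcomb, hu, hweak, ?_, ?_, ?_⟩
  · intro F f1 f2 f3 f4 i
    obtain ⟨a, b, c, hF, α, β, γ, h1, h2, h3, h5, e⟩ := cover F f1 f2 f3 f4 (p i)
      (subset_convexHull ℝ _ (mem_range_self i))
    by_cases ha : i = a
    · exact ⟨b, c, ha ▸ hF⟩
    by_cases hb : i = b
    · exact ⟨c, a, hb ▸ f3 _ _ _ hF⟩
    by_cases hc : i = c
    · exact ⟨a, b, hc ▸ f3 _ _ _ (f3 _ _ _ hF)⟩
    exfalso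
    have a1 := ip_lt_one (hu i) (hu a) (hinj.ne ha)
    have a2 := ip_lt_one (hu i) (hu b) (hinj.ne hb)
    have a3 := ip_lt_one (hu i) (hu c) (hinj.ne hc)
    have a4 : ip (p i) g < 1 := by
      rw [hg, ip_sum, ← hsum]
      refine Finset.sum_lt_sum (fun j _ => ?_) ⟨a, Finset.mem_univ _, ?_⟩
      · exact mul_le_of_le_one_right (by positivity) (ip_le_one (hu i) (hu j))
      · exact mul_lt_of_lt_one_right (by positivity) a1
    have a5 : ip (p i) (p i) = (1 - α - β - γ) * ip (p i) g + α * ip (p i) (p a)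
        + β * ip (p i) (p b) + γ * ip (p i) (p c) := by
      have : ∀ y : V, ip y (g + α • (p a - g) + β • (p b - g) + γ • (p c - g)) =
          (1 - α - β - γ) * ip y g + α * ip y (p a) + β * ip y (p b) + γ * ip y (p c) := by
        intro y
        simp only [ip, Pi.add_apply, Pi.smul_apply, Pi.sub_apply, smul_eq_mul]; ring
      rw [← this, ← e]
    rw [hu i] at a5
    set m := max (max (ip (p i) g) (ip (p i) (p a))) (max (ip (p i) (p b)) (ip (p i) (p c)))
    have m0 : m < 1 := max_lt (max_lt a4 a1) (max_lt a2 a3)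
    have m1 : ip (p i) g ≤ m := (le_max_left _ _).trans (le_max_left _ _)
    have m2 : ip (p i) (p a) ≤ m := (le_max_right _ _).trans (le_max_left _ _)
    have m3 : ip (p i) (p b) ≤ m := (le_max_left _ _).trans (le_max_right _ _)
    have m4 : ip (p i) (p c) ≤ m := (le_max_right _ _).trans (le_max_right _ _)
    nlinarith [mul_le_mul_of_nonneg_left m1 (by linarith : 0 ≤ 1 - α - β - γ),
      mul_le_mul_of_nonneg_left m2 h1, mul_le_mul_of_nonneg_left m3 h2,
      mul_le_mul_of_nonneg_left m4 h3]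
  · intro L hL hF hP
    have hsub : ∀ x ∈ convexHull ℝ (range p),
        ∃ f ∈ L, x ∈ Spx g (p f.1) (p f.2.1) (p f.2.2) := by
      intro x hx
      obtain ⟨a, b, c, h, hx⟩ := cover
        (fun a b c => (a, b, c) ∈ L ∨ (b, c, a) ∈ L ∨ (c, a, b) ∈ L) (by
          obtain ⟨⟨a, b, c⟩, h⟩ := List.exists_mem_of_ne_nil L hL
          exact ⟨a, b, c, Or.inl h⟩)
        (by
          rintro a b c (h | h | h)
          · exact hF _ h
          · exact hcomb.face_rot (hcomb.face_rot (hF _ h))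
          · exact hcomb.face_rot (hF _ h))
        (by tauto)
        (by
          intro a b c h
          have h1 : (a, b) ∈ edges L := mem_edges.mpr ⟨c, h⟩
          obtain ⟨⟨x, y⟩, h2, h3⟩ := List.mem_map.mp (hP.subset h1)
          obtain ⟨rfl, rfl⟩ := Prod.mk.inj h3
          exact mem_edges.mp h2) x hx
      rcases h with h | h | h
      · exact ⟨_, h, hx⟩
      · exact ⟨_, h, Spx_rot hx⟩
      · exact ⟨_, h, Spx_rot (Spx_rot hx)⟩
    exact vol_le_of_cover p g _ L hsub (fun f hf => gT _ _ _ (hF f hf)) hP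
  · intro v s A B hA hB hAB hs
    let r : ℝ → Fin n → ℝ := fun t a => ip (pert p t a - pert p t v) (pert p t a - pert p t v)
      - (ip (p v) (pert p t a - pert p t v)) ^ 2
    have cr : ∀ a, Continuous fun t => r t a := by
      intro a
      simp only [r, ip, Pi.sub_apply]; fun_prop
    have r0 : ∀ a, r 0 a = 1 - (ip (p v) (p a)) ^ 2 := by
      intro a
      have e1 : ip (p a - p v) (p a - p v) = ip (p a) (p a) - 2 * ip (p v) (p a) + ip (p v) (p v) := by
        simp only [ip, Pi.sub_apply]; ring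
      have e2 : ip (p v) (p a - p v) = ip (p v) (p a) - ip (p v) (p v) := by
        simp only [ip, Pi.sub_apply]; ring
      simp only [r, pert_zero]
      rw [e1, e2, hu, hu]; ring
    have h1 := lim (fun t => ∑ e ∈ s, det3 (p v) (pert p t e.1 - pert p t v)
      (pert p t e.2 - pert p t v)) (by simp only [det3, Pi.sub_apply]; fun_prop)
    have h2 := lim (fun t => ∑ e ∈ s, A * ((r t e.1 + r t e.2) / 2)
      + 2 * Real.pi * B * (1 + ∑ a, |r t a - r 0 a|)) (by fun_prop)
    have h3 := le_of_tendsto_of_tendsto h1 h2 (hev.mono fun t ht =>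
      vcut_gen (hu v) v s A B _ hA hB hAB (by rw [ht.2]; exact hs) (fun a => by
        have b1 : |r t a - r 0 a| ≤ ∑ a, |r t a - r 0 a| :=
          Finset.single_le_sum (f := fun a => |r t a - r 0 a|) (fun _ _ => abs_nonneg _)
            (Finset.mem_univ a)
        have b2 := le_abs_self (r t a - r 0 a)
        have b3 := r0 a
        change r t a ≤ _
        nlinarith [sq_nonneg (ip (p v) (p a))]))
    simp only [pert_zero, sub_self, abs_zero, Finset.sum_const_zero, add_zero, mul_one, r0] at h3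
    have e1 : ∑ e ∈ s, det3 (p v) (p e.1) (p e.2)
        = ∑ e ∈ s, det3 (p v) (p e.1 - p v) (p e.2 - p v) :=
      Finset.sum_congr rfl fun e _ => by simp only [det3, Pi.sub_apply]; ring
    have e2 : ∑ e ∈ s, A * (1 - (ip (p v) (p e.1) ^ 2 + ip (p v) (p e.2) ^ 2) / 2) =
        ∑ x ∈ s, A * ((1 - ip (p v) (p x.1) ^ 2 + (1 - ip (p v) (p x.2) ^ 2)) / 2) :=
      Finset.sum_congr rfl fun e _ => by ring
    rw [e1, e2]
    exact h3

end Pool.Agent.MP_2ab689_gt

end MrgPart4

-- marker of a merged file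
example : 731051 + 799332 = 731051 + 799332 := rfl
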