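import Pool.Agent.MP_2ab689_gt.E10x0
import Pool.Agent.MP_2ab689_gt.E10x1
import Pool.Agent.MP_2ab689_gt.E10x2
import Pool.Agent.MP_2ab689_gt.E10x3
import Pool.Agent.MP_2ab689_gt.E10x4

/-!
The verified enumeration for ten vertices.
-/

namespace Pool.Agent.MP_2ab689_gt

theorem enum10 : search 10 leaf10 (9 + 8) 3
    (sb (sb (sb 0 (ec 0 1)) (ec 1 2)) (ec 2 0)) (sb (sb (sb 0 (fc 0 1 2)) (fc 1 2 0)) (fc 2 0 1)) 6
    [(0, 1), (2, 0), (1, 2)] = true :=
  search_of_split (L := fr0 ++ (fr1 ++ (fr2 ++ (fr3 ++ (fr4 ++ (fr5 ++ (fr6 ++ (fr7 ++ (fr8 ++ (fr9 ++ (fr10 ++ (fr11 ++ (fr12 ++ (fr13 ++ (fr14 ++ (fr15 ++ (fr16 ++ (fr17 ++ (fr18 ++ (fr19 ++ (fr20 ++ (fr21 ++ (fr22 ++ (fr23 ++ (fr24 ++ (fr25 ++ (fr26 ++ (fr27 ++ (fr28 ++ (fr29 ++ (fr30 ++ (fr31 ++ (fr32 ++ (fr33))))))))))))))))))))))))))))))))))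
    (allS_append fr0_ok (allS_append fr1_ok (allS_append fr2_ok (allS_append fr3_ok (allS_append fr4_ok (allS_append fr5_ok (allS_append fr6_ok (allS_append fr7_ok (allS_append fr8_ok (allS_append fr9_ok (allS_append fr10_ok (allS_append fr11_ok (allS_append fr12_ok (allS_append fr13_ok (allS_append fr14_ok (allS_append fr15_ok (allS_append fr16_ok (allS_append fr17_ok (allS_append fr18_ok (allS_append fr19_ok (allS_append fr20_ok (allS_append fr21_ok (allS_append fr22_ok (allS_append fr23_ok (allS_append fr24_ok (allS_append fr25_ok (allS_append fr26_ok (allS_append fr27_ok (allS_append fr28_ok (allS_append fr29_ok (allS_append fr30_ok (allS_append fr31_ok (allS_append fr32_ok (fr33_ok))))))))))))))))))))))))))))))))))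
    (by decide +kernel)

end Pool.Agent.MP_2ab689_gt
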