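import Pool.Agent.MP_2ab689_gt.Enum10
import Pool.Agent.MP_2ab689_gt.Opt10
import Pool.Agent.MP_2ab689_gt.Limit
import Pool.Agent.MP_2ab689_gt.Bridge

/-!
The case of ten vertices.
-/

namespace Pool.Agent.MP_2ab689_gt

open Set MeasureTheory WithLp

theorem tri10_zero : tri10 0 = [(8, 0, 1), (9, 5, 4), (1, 0, 4), (1, 4, 5), (8, 1, 2), (9, 6, 5), (2, 1, 5), (2, 5, 6),
    (8, 2, 3), (9, 7, 6), (3, 2, 6), (3, 6, 7), (8, 3, 0), (9, 4, 7), (0, 3, 7), (0, 7, 4)] := by decide +kernel

theorem other10 {ι : Type} [Fintype ι] {p : ι → V} {vol : ℝ} {pos : ι → ι → ι → ι → Prop}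
    (G : Good p vol pos) {σ : ℕ → ι} (inj : ∀ a < 10, ∀ b < 10, σ a = σ b → a = b) {t : ℕ}
    (h0 : 0 < t) (h1 : t < 233) (hT : ∀ f ∈ tri10 t, Face pos (σ f.1) (σ f.2.1) (σ f.2.2)) :
    6000 * vol < (13310 : ℕ) := by
  interval_cases t
  · exact chk2_sound G (by norm_num) inj hT c10_1
  · exact chk2_sound G (by norm_num) inj hT c10_2
  · exact chk2_sound G (by norm_num) inj hT c10_3
  · exact chk2_sound G (by norm_num) inj hT c10_4
  · exact chk2_sound G (by norm_num) inj hT c10_5
  · exact chk2_sound G (by norm_num) inj hT c10_6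
  · exact chk2_sound G (by norm_num) inj hT c10_7
  · exact chk2_sound G (by norm_num) inj hT c10_8
  · exact chk2_sound G (by norm_num) inj hT c10_9
  · exact chk2_sound G (by norm_num) inj hT c10_10
  · exact chk2_sound G (by norm_num) inj hT c10_11
  · exact chk2_sound G (by norm_num) inj hT c10_12
  · exact chk2_sound G (by norm_num) inj hT c10_13
  · exact chk2_sound G (by norm_num) inj hT c10_14
  · exact chk2_sound G (by norm_num) inj hT c10_15
  · exact chk2_sound G (by norm_num) inj hT c10_16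
  · exact chk2_sound G (by norm_num) inj hT c10_17
  · exact chk2_sound G (by norm_num) inj hT c10_18
  · exact chk2_sound G (by norm_num) inj hT c10_19
  · exact chk2_sound G (by norm_num) inj hT c10_20
  · exact chk2_sound G (by norm_num) inj hT c10_21
  · exact chk2_sound G (by norm_num) inj hT c10_22
  · exact chk2_sound G (by norm_num) inj hT c10_23
  · exact chk2_sound G (by norm_num) inj hT c10_24
  · exact chk2_sound G (by norm_num) inj hT c10_25
  · exact chk2_sound G (by norm_num) inj hT c10_26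
  · exact chk2_sound G (by norm_num) inj hT c10_27
  · exact chk2_sound G (by norm_num) inj hT c10_28
  · exact chk2_sound G (by norm_num) inj hT c10_29
  · exact chk2_sound G (by norm_num) inj hT c10_30
  · exact chk2_sound G (by norm_num) inj hT c10_31
  · exact chk2_sound G (by norm_num) inj hT c10_32
  · exact chk2_sound G (by norm_num) inj hT c10_33
  · exact chk2_sound G (by norm_num) inj hT c10_34
  · exact chk2_sound G (by norm_num) inj hT c10_35
  · exact chk2_sound G (by norm_num) inj hT c10_36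
  · exact chk2_sound G (by norm_num) inj hT c10_37
  · exact chk2_sound G (by norm_num) inj hT c10_38
  · exact chk2_sound G (by norm_num) inj hT c10_39
  · exact chk2_sound G (by norm_num) inj hT c10_40
  · exact chk2_sound G (by norm_num) inj hT c10_41
  · exact chk2_sound G (by norm_num) inj hT c10_42
  · exact chk2_sound G (by norm_num) inj hT c10_43
  · exact chk2_sound G (by norm_num) inj hT c10_44
  · exact chk2_sound G (by norm_num) inj hT c10_45
  · exact chk2_sound G (by norm_num) inj hT c10_46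
  · exact chk2_sound G (by norm_num) inj hT c10_47
  · exact chk2_sound G (by norm_num) inj hT c10_48
  · exact chk2_sound G (by norm_num) inj hT c10_49
  · exact chk2_sound G (by norm_num) inj hT c10_50
  · exact chk2_sound G (by norm_num) inj hT c10_51
  · exact chk2_sound G (by norm_num) inj hT c10_52
  · exact chk2_sound G (by norm_num) inj hT c10_53
  · exact chk2_sound G (by norm_num) inj hT c10_54
  · exact chk2_sound G (by norm_num) inj hT c10_55
  · exact chk2_sound G (by norm_num) inj hT c10_56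
  · exact chk2_sound G (by norm_num) inj hT c10_57
  · exact chk2_sound G (by norm_num) inj hT c10_58
  · exact chk2_sound G (by norm_num) inj hT c10_59
  · exact chk2_sound G (by norm_num) inj hT c10_60
  · exact chk2_sound G (by norm_num) inj hT c10_61
  · exact chk2_sound G (by norm_num) inj hT c10_62
  · exact chk2_sound G (by norm_num) inj hT c10_63
  · exact chk2_sound G (by norm_num) inj hT c10_64
  · exact chk2_sound G (by norm_num) inj hT c10_65
  · exact chk2_sound G (by norm_num) inj hT c10_66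
  · exact chk2_sound G (by norm_num) inj hT c10_67
  · exact chk2_sound G (by norm_num) inj hT c10_68
  · exact chk2_sound G (by norm_num) inj hT c10_69
  · exact chk2_sound G (by norm_num) inj hT c10_70
  · exact chk2_sound G (by norm_num) inj hT c10_71
  · exact chk2_sound G (by norm_num) inj hT c10_72
  · exact chk2_sound G (by norm_num) inj hT c10_73
  · exact chk2_sound G (by norm_num) inj hT c10_74
  · exact chk2_sound G (by norm_num) inj hT c10_75
  · exact chk2_sound G (by norm_num) inj hT c10_76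
  · exact chk2_sound G (by norm_num) inj hT c10_77
  · exact chk2_sound G (by norm_num) inj hT c10_78
  · exact chk2_sound G (by norm_num) inj hT c10_79
  · exact chk2_sound G (by norm_num) inj hT c10_80
  · exact chk2_sound G (by norm_num) inj hT c10_81
  · exact chk2_sound G (by norm_num) inj hT c10_82
  · exact chk2_sound G (by norm_num) inj hT c10_83
  · exact chk2_sound G (by norm_num) inj hT c10_84
  · exact chk2_sound G (by norm_num) inj hT c10_85
  · exact chk2_sound G (by norm_num) inj hT c10_86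
  · exact chk2_sound G (by norm_num) inj hT c10_87
  · exact chk2_sound G (by norm_num) inj hT c10_88
  · exact chk2_sound G (by norm_num) inj hT c10_89
  · exact chk2_sound G (by norm_num) inj hT c10_90
  · exact chk2_sound G (by norm_num) inj hT c10_91
  · exact chk2_sound G (by norm_num) inj hT c10_92
  · exact chk2_sound G (by norm_num) inj hT c10_93
  · exact chk2_sound G (by norm_num) inj hT c10_94
  · exact chk2_sound G (by norm_num) inj hT c10_95
  · exact chk2_sound G (by norm_num) inj hT c10_96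
  · exact chk2_sound G (by norm_num) inj hT c10_97
  · exact chk2_sound G (by norm_num) inj hT c10_98
  · exact chk2_sound G (by norm_num) inj hT c10_99
  · exact chk2_sound G (by norm_num) inj hT c10_100
  · exact chk2_sound G (by norm_num) inj hT c10_101
  · exact chk2_sound G (by norm_num) inj hT c10_102
  · exact chk2_sound G (by norm_num) inj hT c10_103
  · exact chk2_sound G (by norm_num) inj hT c10_104
  · exact chk2_sound G (by norm_num) inj hT c10_105
  · exact chk2_sound G (by norm_num) inj hT c10_106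
  · exact chk2_sound G (by norm_num) inj hT c10_107
  · exact chk2_sound G (by norm_num) inj hT c10_108
  · exact chk2_sound G (by norm_num) inj hT c10_109
  · exact chk2_sound G (by norm_num) inj hT c10_110
  · exact chk2_sound G (by norm_num) inj hT c10_111
  · exact chk2_sound G (by norm_num) inj hT c10_112
  · exact chk2_sound G (by norm_num) inj hT c10_113
  · exact chk2_sound G (by norm_num) inj hT c10_114
  · exact chk2_sound G (by norm_num) inj hT c10_115
  · exact chk2_sound G (by norm_num) inj hT c10_116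
  · exact chk2_sound G (by norm_num) inj hT c10_117
  · exact chk2_sound G (by norm_num) inj hT c10_118
  · exact chk2_sound G (by norm_num) inj hT c10_119
  · exact chk2_sound G (by norm_num) inj hT c10_120
  · exact chk2_sound G (by norm_num) inj hT c10_121
  · exact chk2_sound G (by norm_num) inj hT c10_122
  · exact chk2_sound G (by norm_num) inj hT c10_123
  · exact chk2_sound G (by norm_num) inj hT c10_124
  · exact chk2_sound G (by norm_num) inj hT c10_125
  · exact chk2_sound G (by norm_num) inj hT c10_126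
  · exact chk2_sound G (by norm_num) inj hT c10_127
  · exact chk2_sound G (by norm_num) inj hT c10_128
  · exact chk2_sound G (by norm_num) inj hT c10_129
  · exact chk2_sound G (by norm_num) inj hT c10_130
  · exact chk2_sound G (by norm_num) inj hT c10_131
  · exact chk2_sound G (by norm_num) inj hT c10_132
  · exact chk2_sound G (by norm_num) inj hT c10_133
  · exact chk2_sound G (by norm_num) inj hT c10_134
  · exact chk2_sound G (by norm_num) inj hT c10_135
  · exact chk2_sound G (by norm_num) inj hT c10_136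
  · exact chk2_sound G (by norm_num) inj hT c10_137
  · exact chk2_sound G (by norm_num) inj hT c10_138
  · exact chk2_sound G (by norm_num) inj hT c10_139
  · exact chk2_sound G (by norm_num) inj hT c10_140
  · exact chk2_sound G (by norm_num) inj hT c10_141
  · exact chk2_sound G (by norm_num) inj hT c10_142
  · exact chk2_sound G (by norm_num) inj hT c10_143
  · exact chk2_sound G (by norm_num) inj hT c10_144
  · exact chk2_sound G (by norm_num) inj hT c10_145
  · exact chk2_sound G (by norm_num) inj hT c10_146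
  · exact chk2_sound G (by norm_num) inj hT c10_147
  · exact chk2_sound G (by norm_num) inj hT c10_148
  · exact chk2_sound G (by norm_num) inj hT c10_149
  · exact chk2_sound G (by norm_num) inj hT c10_150
  · exact chk2_sound G (by norm_num) inj hT c10_151
  · exact chk2_sound G (by norm_num) inj hT c10_152
  · exact chk2_sound G (by norm_num) inj hT c10_153
  · exact chk2_sound G (by norm_num) inj hT c10_154
  · exact chk2_sound G (by norm_num) inj hT c10_155
  · exact chk2_sound G (by norm_num) inj hT c10_156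
  · exact chk2_sound G (by norm_num) inj hT c10_157
  · exact chk2_sound G (by norm_num) inj hT c10_158
  · exact chk2_sound G (by norm_num) inj hT c10_159
  · exact chk2_sound G (by norm_num) inj hT c10_160
  · exact chk2_sound G (by norm_num) inj hT c10_161
  · exact chk2_sound G (by norm_num) inj hT c10_162
  · exact chk2_sound G (by norm_num) inj hT c10_163
  · exact chk2_sound G (by norm_num) inj hT c10_164
  · exact chk2_sound G (by norm_num) inj hT c10_165
  · exact chk2_sound G (by norm_num) inj hT c10_166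
  · exact chk2_sound G (by norm_num) inj hT c10_167
  · exact chk2_sound G (by norm_num) inj hT c10_168
  · exact chk2_sound G (by norm_num) inj hT c10_169
  · exact chk2_sound G (by norm_num) inj hT c10_170
  · exact chk2_sound G (by norm_num) inj hT c10_171
  · exact chk2_sound G (by norm_num) inj hT c10_172
  · exact chk2_sound G (by norm_num) inj hT c10_173
  · exact chk2_sound G (by norm_num) inj hT c10_174
  · exact chk2_sound G (by norm_num) inj hT c10_175
  · exact chk2_sound G (by norm_num) inj hT c10_176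
  · exact chk2_sound G (by norm_num) inj hT c10_177
  · exact chk2_sound G (by norm_num) inj hT c10_178
  · exact chk2_sound G (by norm_num) inj hT c10_179
  · exact chk2_sound G (by norm_num) inj hT c10_180
  · exact chk2_sound G (by norm_num) inj hT c10_181
  · exact chk2_sound G (by norm_num) inj hT c10_182
  · exact chk2_sound G (by norm_num) inj hT c10_183
  · exact chk2_sound G (by norm_num) inj hT c10_184
  · exact chk2_sound G (by norm_num) inj hT c10_185
  · exact chk2_sound G (by norm_num) inj hT c10_186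
  · exact chk2_sound G (by norm_num) inj hT c10_187
  · exact chk2_sound G (by norm_num) inj hT c10_188
  · exact chk2_sound G (by norm_num) inj hT c10_189
  · exact chk2_sound G (by norm_num) inj hT c10_190
  · exact chk2_sound G (by norm_num) inj hT c10_191
  · exact chk2_sound G (by norm_num) inj hT c10_192
  · exact chk2_sound G (by norm_num) inj hT c10_193
  · exact chk2_sound G (by norm_num) inj hT c10_194
  · exact chk2_sound G (by norm_num) inj hT c10_195
  · exact chk2_sound G (by norm_num) inj hT c10_196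
  · exact chk2_sound G (by norm_num) inj hT c10_197
  · exact chk2_sound G (by norm_num) inj hT c10_198
  · exact chk2_sound G (by norm_num) inj hT c10_199
  · exact chk2_sound G (by norm_num) inj hT c10_200
  · exact chk2_sound G (by norm_num) inj hT c10_201
  · exact chk2_sound G (by norm_num) inj hT c10_202
  · exact chk2_sound G (by norm_num) inj hT c10_203
  · exact chk2_sound G (by norm_num) inj hT c10_204
  · exact chk2_sound G (by norm_num) inj hT c10_205
  · exact chk2_sound G (by norm_num) inj hT c10_206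
  · exact chk2_sound G (by norm_num) inj hT c10_207
  · exact chk2_sound G (by norm_num) inj hT c10_208
  · exact chk2_sound G (by norm_num) inj hT c10_209
  · exact chk2_sound G (by norm_num) inj hT c10_210
  · exact chk2_sound G (by norm_num) inj hT c10_211
  · exact chk2_sound G (by norm_num) inj hT c10_212
  · exact chk2_sound G (by norm_num) inj hT c10_213
  · exact chk2_sound G (by norm_num) inj hT c10_214
  · exact chk2_sound G (by norm_num) inj hT c10_215
  · exact chk2_sound G (by norm_num) inj hT c10_216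
  · exact chk2_sound G (by norm_num) inj hT c10_217
  · exact chk2_sound G (by norm_num) inj hT c10_218
  · exact chk2_sound G (by norm_num) inj hT c10_219
  · exact chk2_sound G (by norm_num) inj hT c10_220
  · exact chk2_sound G (by norm_num) inj hT c10_221
  · exact chk2_sound G (by norm_num) inj hT c10_222
  · exact chk2_sound G (by norm_num) inj hT c10_223
  · exact chk2_sound G (by norm_num) inj hT c10_224
  · exact chk2_sound G (by norm_num) inj hT c10_225
  · exact chk2_sound G (by norm_num) inj hT c10_226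
  · exact chk2_sound G (by norm_num) inj hT c10_227
  · exact chk2_sound G (by norm_num) inj hT c10_228
  · exact chk2_sound G (by norm_num) inj hT c10_229
  · exact chk2_sound G (by norm_num) inj hT c10_230
  · exact chk2_sound G (by norm_num) inj hT c10_231
  · exact chk2_sound G (by norm_num) inj hT c10_232

/-- The optimal configuration with parameters. -/
noncomputable def q10 (q h r : ℝ) : Fin 10 → V :=
  ![![r, 0, h], ![0, r, h], ![-r, 0, h], ![0, -r, h],
    ![q / 2 * r, q / 2 * r, -h], ![-(q / 2 * r), q / 2 * r, -h],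
    ![-(q / 2 * r), -(q / 2 * r), -h], ![q / 2 * r, -(q / 2 * r), -h], ![0, 0, 1], ![0, 0, -1]]

section
variable {q h r : ℝ}

theorem ip_smul' (x y : ℝ) (u v : V) : ip (x • u) (y • v) = x * y * ip u v := by
  simp only [ip, Pi.smul_apply, smul_eq_mul]; ring

theorem bounds10 (hq : q ^ 2 = 2) (hh : h ^ 2 = 1 / 3 - 2 / 3 * (q - 1) * h) (q0 : 0 < q)
    (h0 : 0 < h) : 1.414213 < q ∧ q < 1.414214 ∧ 0.45555 < h ∧ h < 0.45557 ∧ 0.64424 < h * q ∧
      h * q < 0.64428 := by
  have q1 : 1.414213 < q := by nlinarith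
  have q2 : q < 1.414214 := by nlinarith
  have h1 : 0.45555 < h := by nlinarith
  have h2 : h < 0.45557 := by nlinarith
  exact ⟨q1, q2, h1, h2, by nlinarith, by nlinarith⟩

theorem coords10 (h0 : 0 < h) (r0 : 0 < r) {P : ℕ → V} {m A B : V} (p0 : P 0 = m + A)
    (p1 : P 1 = m + B) (p2 : P 2 = m - A) (p3 : P 3 = m - B) (p4 : P 4 = (q / 2) • (A + B) - m)
    (p5 : P 5 = (q / 2) • (B - A) - m) (p6 : P 6 = -(q / 2) • (A + B) - m)
    (p7 : P 7 = (q / 2) • (A - B) - m) (p8 : h • P 8 = m) (p9 : h • P 9 = -m) (i : Fin 10) :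
    P i = q10 q h r i 0 • r⁻¹ • A + q10 q h r i 1 • r⁻¹ • B + q10 q h r i 2 • h⁻¹ • m := by
  have hr : r * r⁻¹ = 1 := mul_inv_cancel₀ r0.ne'
  have hh : h * h⁻¹ = 1 := mul_inv_cancel₀ h0.ne'
  funext j
  have p0 := congrFun p0 j
  have p1 := congrFun p1 j
  have p2 := congrFun p2 j
  have p3 := congrFun p3 j
  have p4 := congrFun p4 j
  have p5 := congrFun p5 j
  have p6 := congrFun p6 j
  have p7 := congrFun p7 j
  have p8 := congrFun p8 j
  have p9 := congrFun p9 j
  simp only [Pi.sub_apply, Pi.add_apply, Pi.smul_apply, Pi.neg_apply, smul_eq_mul] at *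
  generalize r⁻¹ = x at *
  generalize h⁻¹ = y at *
  fin_cases i <;> simp only [q10, Fin.zero_eta, Fin.mk_one, Fin.reduceFinMk, Matrix.cons_val,
    Fin.isValue]
  · linear_combination p0 - A j * hr - m j * hh
  · linear_combination p1 - B j * hr - m j * hh
  · linear_combination p2 + A j * hr - m j * hh
  · linear_combination p3 + B j * hr - m j * hh
  · linear_combination p4 - q / 2 * (A j + B j) * hr + m j * hh
  · linear_combination p5 - q / 2 * (B j - A j) * hr + m j * hh
  · linear_combination p6 + q / 2 * (A j + B j) * hr + m j * hh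
  · linear_combination p7 - q / 2 * (A j - B j) * hr + m j * hh
  · linear_combination y * p8 - P 8 j * hh
  · linear_combination y * p9 - P 9 j * hh

theorem upper10 (hq : q ^ 2 = 2) (hh : h ^ 2 = 1 / 3 - 2 / 3 * (q - 1) * h)
    (hr : r ^ 2 = 1 - h ^ 2) (q0 : 0 < q) (h0 : 0 < h) (r0 : 0 < r)
    (p : Fin 10 → V) (hi : Function.Injective p) (hu : ∀ i, ip (p i) (p i) = 1) :
    (volume (convexHull ℝ (range p))).toReal ≤ 4 / 3 * (1 - h ^ 2) * (1 + (1 + q) * h) ∧
    (4 / 3 * (1 - h ^ 2) * (1 + (1 + q) * h) ≤ (volume (convexHull ℝ (range p))).toReal →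
      ∃ e f g : V, ip e e = 1 ∧ ip f f = 1 ∧ ip g g = 1 ∧ ip e f = 0 ∧ ip f g = 0 ∧ ip e g = 0 ∧
      range p = range fun i => q10 q h r i 0 • e + q10 q h r i 1 • f + q10 q h r i 2 • g) := by
  obtain ⟨pos, G⟩ := exists_good (by norm_num) p hu hi
  generalize (volume (convexHull ℝ (range p))).toReal = vol at *
  obtain ⟨p', pos', σ, k, hp, G', inj, hk, hT⟩ :=
    classify G (Fintype.card_fin 10) (by norm_num) enum10
  obtain ⟨q1, q2, h1, h2, m1, m2⟩ := bounds10 hq hh q0 h0
  rcases Nat.eq_zero_or_pos k with rfl | hk0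
  swap
  · have := other10 G' inj hk0 hk hT
    push_cast at this
    have h3 : (0.79245 : ℝ) * 2.09979 ≤ (1 - h ^ 2) * (1 + (1 + q) * h) :=
      mul_le_mul (by nlinarith) (by linarith) (by norm_num) (by nlinarith)
    exact ⟨by linarith, fun h => by linarith⟩
  have hv := obj_nonneg G' hT (by rw [tri10_zero]; simp) (by rw [tri10_zero]; decide)
  rw [tri10_zero] at hv
  simp only [List.map_cons, List.map_nil, List.sum_cons, List.sum_nil] at hv
  have u := fun i => G'.unit (σ i)
  have hv' : 6 * vol ≤ phi10 fun i => p' (σ i) := by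
    unfold phi10; linarith
  have hle := phi10_le hq hh q0 h0 (P := fun i => p' (σ i)) u
  refine ⟨by linarith, fun he => ?_⟩
  obtain ⟨m, A, B, ⟨g0, g1, g2, g3, g4, g5⟩, p0, p1, p2, p3, p4, p5, p6, p7, p8, p9⟩ :=
    phi10_eq hq hh q0 h0 (P := fun i => p' (σ i)) u (by linarith)
  have hs := surj_of_inj (σ := σ) (by simpa using inj)
  rw [Fintype.card_fin] at hs
  obtain ⟨s, s2, hs'⟩ : ∃ s : ℝ, s ^ 2 = 1 ∧ ∀ i, p i = s • p' i := by
    rcases hp with rfl | rfl
    · exact ⟨1, by norm_num, fun i => by simp⟩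
    · exact ⟨-1, by norm_num, fun i => by simp⟩
  have key := coords10 (r := r) (P := fun i => p' (σ i)) h0 r0 p0 p1 p2 p3 p4 p5 p6 p7 p8 p9
  refine ⟨s • r⁻¹ • A, s • r⁻¹ • B, s • h⁻¹ • m, ?_, ?_, ?_, ?_, ?_, ?_, ?_⟩
  · rw [ip_smul', ip_smul', g1, ← sq, s2, ← hr]; field_simp
  · rw [ip_smul', ip_smul', g2, ← sq, s2, ← hr]; field_simp
  · rw [ip_smul', ip_smul', g0, ← sq, s2]; field_simp
  · rw [ip_smul', ip_smul', g3, mul_zero, mul_zero]
  · rw [ip_smul', ip_smul', g4, mul_zero, mul_zero]
  · rw [ip_smul', ip_smul', g5, mul_zero, mul_zero]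
  have e : ∀ i : Fin 10, p (σ i) = q10 q h r i 0 • s • r⁻¹ • A + q10 q h r i 1 • s • r⁻¹ • B +
      q10 q h r i 2 • s • h⁻¹ • m := by
    intro i
    rw [hs', key i, smul_add, smul_add, smul_comm s, smul_comm s (q10 q h r i 1),
      smul_comm s (q10 q h r i 2)]
  ext x
  constructor
  · rintro ⟨i, rfl⟩
    obtain ⟨c, hc, rfl⟩ := hs i
    exact ⟨⟨c, hc⟩, (e ⟨c, hc⟩).symm⟩
  · rintro ⟨i, rfl⟩
    exact ⟨σ i, e i⟩

theorem unit10 (hq : q ^ 2 = 2) (hr : r ^ 2 = 1 - h ^ 2) (i : Fin 10) :
    ip (q10 q h r i) (q10 q h r i) = 1 := by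
  have e : q ^ 2 * r ^ 2 = 2 * r ^ 2 := by rw [hq]
  fin_cases i <;> simp [q10, ip] <;> linarith

theorem T4_q10 (a b c d : Fin 10) : T4 (q10 q h r a) (q10 q h r b) (q10 q h r c) (q10 q h r d) =
    r ^ 2 * T4 (q10 q h 1 a) (q10 q h 1 b) (q10 q h 1 c) (q10 q h 1 d) := by
  have h0 : ∀ i, q10 q h r i 0 = r * q10 q h 1 i 0 := fun i => by
    fin_cases i <;> simp [q10, mul_comm]
  have h1 : ∀ i, q10 q h r i 1 = r * q10 q h 1 i 1 := fun i => by
    fin_cases i <;> simp [q10, mul_comm]
  have h2 : ∀ i, q10 q h r i 2 = q10 q h 1 i 2 := fun i => by fin_cases i <;> simp [q10]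
  simp only [T4, det3, Pi.sub_apply, h0, h1, h2]
  ring

theorem det3_q10 (a b c : Fin 10) : det3 (q10 q h r a) (q10 q h r b) (q10 q h r c) =
    r ^ 2 * det3 (q10 q h 1 a) (q10 q h 1 b) (q10 q h 1 c) := by
  have h0 : ∀ i, q10 q h r i 0 = r * q10 q h 1 i 0 := fun i => by
    fin_cases i <;> simp [q10, mul_comm]
  have h1 : ∀ i, q10 q h r i 1 = r * q10 q h 1 i 1 := fun i => by
    fin_cases i <;> simp [q10, mul_comm]
  have h2 : ∀ i, q10 q h r i 2 = q10 q h 1 i 2 := fun i => by fin_cases i <;> simp [q10]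
  simp only [det3, h0, h1, h2]
  ring

/-- The facets of the optimal configuration. -/
def s10 : List (Fin 10 × Fin 10 × Fin 10) := [(8, 0, 1), (9, 5, 4), (1, 0, 4), (1, 4, 5), (8, 1, 2), (9, 6, 5), (2, 1, 5), (2, 5, 6),
    (8, 2, 3), (9, 7, 6), (3, 2, 6), (3, 6, 7), (8, 3, 0), (9, 4, 7), (0, 3, 7), (0, 7, 4)]

theorem face10 (hq : q ^ 2 = 2) (hh : h ^ 2 = 1 / 3 - 2 / 3 * (q - 1) * h) (q0 : 0 < q)
    (h0 : 0 < h) (r0 : 0 < r) : ∀ f ∈ s10, Face (posq (q10 q h r)) f.1 f.2.1 f.2.2 := by
  obtain ⟨q1, q2, h1, h2, m1, m2⟩ := bounds10 hq hh q0 h0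
  have e : q ^ 2 * h = 2 * h := by rw [hq]
  clear hh
  intro f hf
  have hd : f.1 ≠ f.2.1 ∧ f.2.1 ≠ f.2.2 ∧ f.2.2 ≠ f.1 := by revert f; decide +kernel
  refine ⟨hd.1, hd.2.1, hd.2.2, fun l l1 l2 l3 => ?_⟩
  rw [posq, T4_q10]
  refine mul_pos (by positivity) ?_
  fin_cases hf <;> fin_cases l <;>
    first
    | exact absurd rfl l1
    | exact absurd rfl l2
    | exact absurd rfl l3
    | (simp only [q10, T4, det3, Pi.sub_apply, Fin.zero_eta, Fin.mk_one, Fin.reduceFinMk,
        Matrix.cons_val, Fin.isValue]; linarith)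

theorem det10 (hq : q ^ 2 = 2) (hh : h ^ 2 = 1 / 3 - 2 / 3 * (q - 1) * h) (q0 : 0 < q)
    (h0 : 0 < h) (r0 : 0 < r) :
    ∀ f ∈ s10, 0 < det3 (q10 q h r f.1) (q10 q h r f.2.1) (q10 q h r f.2.2) := by
  obtain ⟨q1, q2, h1, h2, m1, m2⟩ := bounds10 hq hh q0 h0
  have e : q ^ 2 * h = 2 * h := by rw [hq]
  clear hh
  intro f hf
  rw [det3_q10]
  refine mul_pos (by positivity) ?_
  fin_cases hf <;> (simp only [q10, det3, Matrix.cons_val, Fin.isValue]; linarith)

theorem inj10 (hq : q ^ 2 = 2) (hh : h ^ 2 = 1 / 3 - 2 / 3 * (q - 1) * h) (q0 : 0 < q)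
    (h0 : 0 < h) (r0 : 0 < r) : Function.Injective (q10 q h r) := by
  intro a b e
  by_contra hne
  obtain ⟨f, hf, h1, h2⟩ : ∃ f ∈ s10, (a = f.1 ∨ a = f.2.1 ∨ a = f.2.2) ∧
      b ≠ f.1 ∧ b ≠ f.2.1 ∧ b ≠ f.2.2 := by
    clear e; revert a b; decide +kernel
  have := (face10 hq hh q0 h0 r0 f hf).2.2.2 b h2.1 h2.2.1 h2.2.2
  rw [posq, ← e] at this
  rcases h1 with rfl | rfl | rfl
  · rw [T4_self1] at this; exact lt_irrefl _ this
  · rw [T4_self2] at this; exact lt_irrefl _ this
  · rw [T4_self3] at this; exact lt_irrefl _ this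

theorem interior10 (hr : r ^ 2 = 1 - h ^ 2) (h0 : 0 < h) (r0 : 0 < r) :
    0 ∈ interior (convexHull ℝ (range ((toLp 2 : V → E3) ∘ q10 q h r))) := by
  have h1 : h < 1 := by nlinarith
  have r1 : r < 1 := by nlinarith
  have m : ∀ (w : Fin 10 → ℝ) (x : E3), (∀ i, 0 ≤ w i) → ∑ i, w i = 1 →
      x = ∑ i, w i • ((toLp 2 : V → E3) ∘ q10 q h r) i →
      x ∈ convexHull ℝ (range ((toLp 2 : V → E3) ∘ q10 q h r)) := by
    rintro w x w0 w1 rfl
    exact (convex_convexHull ℝ _).sum_mem (fun i _ => w0 i) w1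
      fun i _ => subset_convexHull _ _ (mem_range_self i)
  refine zero_mem_interior (convex_convexHull ℝ _) (ε := r / 2) (by positivity) fun i => ?_
  fin_cases i
  · refine ⟨m ![1 / 2, 0, 0, 0, 0, 0, 0, 0, (1 - h) / 4, (1 + h) / 4] _ ?_ ?_ ?_,
      m ![0, 0, 1 / 2, 0, 0, 0, 0, 0, (1 - h) / 4, (1 + h) / 4] _ ?_ ?_ ?_⟩
    · intro i; fin_cases i <;> simp <;> linarith
    · simp [Fin.sum_univ_succ]; ring
    · ext j; fin_cases j <;> simp [Fin.sum_univ_succ, q10] <;> ring
    · intro i; fin_cases i <;> simp <;> linarith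
    · simp [Fin.sum_univ_succ]; ring
    · ext j; fin_cases j <;> simp [Fin.sum_univ_succ, q10] <;> ring
  · refine ⟨m ![0, 1 / 2, 0, 0, 0, 0, 0, 0, (1 - h) / 4, (1 + h) / 4] _ ?_ ?_ ?_,
      m ![0, 0, 0, 1 / 2, 0, 0, 0, 0, (1 - h) / 4, (1 + h) / 4] _ ?_ ?_ ?_⟩
    · intro i; fin_cases i <;> simp <;> linarith
    · simp [Fin.sum_univ_succ]; ring
    · ext j; fin_cases j <;> simp [Fin.sum_univ_succ, q10] <;> ring
    · intro i; fin_cases i <;> simp <;> linarith
    · simp [Fin.sum_univ_succ]; ring
    · ext j; fin_cases j <;> simp [Fin.sum_univ_succ, q10] <;> ring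
  · refine ⟨m ![0, 0, 0, 0, 0, 0, 0, 0, (2 + r) / 4, (2 - r) / 4] _ ?_ ?_ ?_,
      m ![0, 0, 0, 0, 0, 0, 0, 0, (2 - r) / 4, (2 + r) / 4] _ ?_ ?_ ?_⟩
    · intro i; fin_cases i <;> simp <;> linarith
    · simp [Fin.sum_univ_succ]; ring
    · ext j; fin_cases j <;> simp [Fin.sum_univ_succ, q10]; ring
    · intro i; fin_cases i <;> simp <;> linarith
    · simp [Fin.sum_univ_succ]; ring
    · ext j; fin_cases j <;> simp [Fin.sum_univ_succ, q10]; ring

theorem lower10 (hq : q ^ 2 = 2) (hh : h ^ 2 = 1 / 3 - 2 / 3 * (q - 1) * h)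
    (hr : r ^ 2 = 1 - h ^ 2) (q0 : 0 < q) (h0 : 0 < h) (r0 : 0 < r) :
    ENNReal.ofReal (4 / 3 * (1 - h ^ 2) * (1 + (1 + q) * h)) ≤
      volume (convexHull ℝ (range (q10 q h r))) := by
  have z : (0 : V) ∈ convexHull ℝ (range (q10 q h r)) := by
    have := (convex_convexHull ℝ (range (q10 q h r))).sum_mem (t := Finset.univ)
      (w := ![0, 0, 0, 0, 0, 0, 0, 0, 1 / 2, 1 / 2]) (z := q10 q h r)
      (fun i _ => by fin_cases i <;> simp) (by simp [Fin.sum_univ_succ]; norm_num)
      fun i _ => subset_convexHull _ _ (mem_range_self i)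
    convert this using 1
    ext j; fin_cases j <;> simp [Fin.sum_univ_succ, q10]
  have := vol_ge_of_faces (q10 q h r) _ (convex_convexHull ℝ _) z
    (fun i => subset_convexHull _ _ (mem_range_self i)) s10.toFinset
    (fun f hf => face10 hq hh q0 h0 r0 f (List.mem_toFinset.mp hf))
    (fun f hf => det10 hq hh q0 h0 r0 f (List.mem_toFinset.mp hf)) (by decide +kernel)
  rw [List.sum_toFinset _ (by decide +kernel)] at this
  refine le_of_eq_of_le ?_ this
  congr 1
  rw [← hr]
  simp [s10, q10, det3]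
  linear_combination (-(r ^ 2 * (1 + h) / 3)) * hq

theorem main10 (hq : q ^ 2 = 2) (hh : h ^ 2 = 1 / 3 - 2 / 3 * (q - 1) * h)
    (hr : r ^ 2 = 1 - h ^ 2) (q0 : 0 < q) (h0 : 0 < h) (r0 : 0 < r) :
    (∀ P, IsMaxVol 10 P ↔
      ∃ φ : E3 ≃ₗᵢ[ℝ] E3, P = φ '' convexHull ℝ (range ((toLp 2 : V → E3) ∘ q10 q h r))) ∧
    volume (convexHull ℝ (range ((toLp 2 : V → E3) ∘ q10 q h r))) =
      ENNReal.ofReal (4 / 3 * (1 - h ^ 2) * (1 + (1 + q) * h)) :=
  isMaxVol_iff (q10 q h r) (unit10 hq hr) (inj10 hq hh q0 h0 r0) (interior10 hr h0 r0)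
    (by rw [← hr]; positivity) (lower10 hq hh hr q0 h0 r0) (upper10 hq hh hr q0 h0 r0)

end

end Pool.Agent.MP_2ab689_gt
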