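import Pool.Agent.MP_2ab689_gt.Enum9
import Pool.Agent.MP_2ab689_gt.C9x0
import Pool.Agent.MP_2ab689_gt.C9x1
import Pool.Agent.MP_2ab689_gt.C9x2
import Pool.Agent.MP_2ab689_gt.C9x3
import Pool.Agent.MP_2ab689_gt.Bridge
import Pool.Agent.MP_2ab689_gt.Limit

/-!
The case of nine vertices.
-/

namespace Pool.Agent.MP_2ab689_gt

open Set MeasureTheory WithLp

theorem tri9_zero : tri9 0 = [(0, 1, 2), (3, 5, 4), (6, 3, 4), (6, 4, 1), (6, 1, 0), (6, 0, 3), (7, 4, 5), (7, 5, 2), (7, 2, 1), (7, 1, 4), (8, 5, 3), (8, 3, 0), (8, 0, 2), (8, 2, 5)] := by decide +kernel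

theorem other9 {ι : Type} [Fintype ι] {p : ι → V} {vol : ℝ} {pos : ι → ι → ι → ι → Prop}
    (G : Good p vol pos) {σ : ℕ → ι} (inj : ∀ a < 9, ∀ b < 9, σ a = σ b → a = b) {t : ℕ}
    (h0 : 0 < t) (h1 : t < 50) (hT : ∀ f ∈ tri9 t, Face pos (σ f.1) (σ f.2.1) (σ f.2.2)) :
    6000 * vol < (12260 : ℕ) := by
  interval_cases t
  · exact chk_sound G (by norm_num) inj hT (by simp) c9_1
  · exact chk_sound G (by norm_num) inj hT (by simp) c9_2
  · exact chk_sound G (by norm_num) inj hT (by simp) c9_3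
  · exact chk_sound G (by norm_num) inj hT (by simp) c9_4
  · exact chk_sound G (by norm_num) inj hT (by simp) c9_5
  · exact chk_sound G (by norm_num) inj hT (by simp) c9_6
  · exact chk_sound G (by norm_num) inj hT (by simp) c9_7
  · exact chk_sound G (by norm_num) inj hT (by simp) c9_8
  · exact chk_sound G (by norm_num) inj hT (by simp) c9_9
  · exact chk_sound G (by norm_num) inj hT (by simp) c9_10
  · exact chk_sound G (by norm_num) inj hT (by simp) c9_11
  · exact chk_sound G (by norm_num) inj hT (by simp) c9_12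
  · exact chk_sound G (by norm_num) inj hT (by simp) c9_13
  · exact chk_sound G (by norm_num) inj hT (by simp) c9_14
  · exact chk_sound G (by norm_num) inj hT (by simp) c9_15
  · exact chk_sound G (by norm_num) inj hT (by simp) c9_16
  · exact chk_sound G (by norm_num) inj hT (by simp) c9_17
  · exact chk_sound G (by norm_num) inj hT (by simp) c9_18
  · exact chk_sound G (by norm_num) inj hT (by simp) c9_19
  · exact chk_sound G (by norm_num) inj hT (by simp) c9_20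
  · exact chk_sound G (by norm_num) inj hT (by simp) c9_21
  · exact chk_sound G (by norm_num) inj hT (by simp) c9_22
  · exact chk_sound G (by norm_num) inj hT (by simp) c9_23
  · exact chk_sound G (by norm_num) inj hT (by simp) c9_24
  · exact chk_sound G (by norm_num) inj hT (by simp) c9_25
  · exact chk_sound G (by norm_num) inj hT (by simp) c9_26
  · exact chk_sound G (by norm_num) inj hT (by simp) c9_27
  · exact chk_sound G (by norm_num) inj hT (by simp) c9_28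
  · exact chk_sound G (by norm_num) inj hT (by simp) c9_29
  · exact chk_sound G (by norm_num) inj hT (by simp) c9_30
  · exact chk_sound G (by norm_num) inj hT (by simp) c9_31
  · exact chk_sound G (by norm_num) inj hT (by simp) c9_32
  · exact chk_sound G (by norm_num) inj hT (by simp) c9_33
  · exact chk_sound G (by norm_num) inj hT (by simp) c9_34
  · exact chk_sound G (by norm_num) inj hT (by simp) c9_35
  · exact chk_sound G (by norm_num) inj hT (by simp) c9_36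
  · exact chk_sound G (by norm_num) inj hT (by simp) c9_37
  · exact chk_sound G (by norm_num) inj hT (by simp) c9_38
  · exact chk_sound G (by norm_num) inj hT (by simp) c9_39
  · exact chk_sound G (by norm_num) inj hT (by simp) c9_40
  · exact chk_sound G (by norm_num) inj hT (by simp) c9_41
  · exact chk_sound G (by norm_num) inj hT (by simp) c9_42
  · exact chk_sound G (by norm_num) inj hT (by simp) c9_43
  · exact chk_sound G (by norm_num) inj hT (by simp) c9_44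
  · exact chk_sound G (by norm_num) inj hT (by simp) c9_45
  · exact chk_sound G (by norm_num) inj hT (by simp) c9_46
  · exact chk_sound G (by norm_num) inj hT (by simp) c9_47
  · exact chk_sound G (by norm_num) inj hT (by simp) c9_48
  · exact chk_sound G (by norm_num) inj hT (by simp) c9_49

/-- The optimal configuration with parameters. -/
noncomputable def q9 (t h : ℝ) : Fin 9 → V :=
  ![![t - 1, 0, h], ![-(t - 1) / 2, (3 - t) / 2, h], ![-(t - 1) / 2, -(3 - t) / 2, h],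
    ![t - 1, 0, -h], ![-(t - 1) / 2, (3 - t) / 2, -h], ![-(t - 1) / 2, -(3 - t) / 2, -h],
    ![1 / 2, t / 2, 0], ![-1, 0, 0], ![1 / 2, -t / 2, 0]]

section
variable {t h : ℝ}

theorem ip_smul (x y : ℝ) (u v : V) : ip (x • u) (y • v) = x * y * ip u v := by
  simp only [ip, Pi.smul_apply, smul_eq_mul]; ring

theorem frame9 (ht : t ^ 2 = 3) (hh : h ^ 2 = 2 * t - 3) {a b c : V} (ha : ip a a = 1)
    (hb : ip b b = 1) (hc : ip c c = 1) (g0 : ip a b = 3 * t - 5) (g1 : ip b c = 3 * t - 5)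
    (g2 : ip c a = 3 * t - 5) :
    ip (((t + 1) / 6) • ((2 : ℝ) • a - b - c)) (((t + 1) / 6) • ((2 : ℝ) • a - b - c)) = 1 ∧
    ip (((3 + t) / 6) • (b - c)) (((3 + t) / 6) • (b - c)) = 1 ∧
    ip ((h * (2 * t + 3) / 9) • (a + b + c)) ((h * (2 * t + 3) / 9) • (a + b + c)) = 1 ∧
    ip (((t + 1) / 6) • ((2 : ℝ) • a - b - c)) (((3 + t) / 6) • (b - c)) = 0 ∧
    ip (((3 + t) / 6) • (b - c)) ((h * (2 * t + 3) / 9) • (a + b + c)) = 0 ∧
    ip (((t + 1) / 6) • ((2 : ℝ) • a - b - c)) ((h * (2 * t + 3) / 9) • (a + b + c)) = 0 := by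
  have e1 : ip ((2 : ℝ) • a - b - c) ((2 : ℝ) • a - b - c) = 36 - 18 * t := by
    simp only [ip, Pi.sub_apply, Pi.smul_apply, smul_eq_mul] at *
    linear_combination 4 * ha + hb + hc - 4 * g0 + 2 * g1 - 4 * g2
  have e2 : ip (b - c) (b - c) = 12 - 6 * t := by
    simp only [ip, Pi.sub_apply] at *
    linear_combination hb + hc - 2 * g1
  have e3 : ip (a + b + c) (a + b + c) = 18 * t - 27 := by
    simp only [ip, Pi.add_apply] at *
    linear_combination ha + hb + hc + 2 * g0 + 2 * g1 + 2 * g2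
  have e4 : ip ((2 : ℝ) • a - b - c) (b - c) = 0 := by
    simp only [ip, Pi.sub_apply, Pi.smul_apply, smul_eq_mul] at *
    linear_combination -hb + hc + 2 * g0 - 2 * g2
  have e5 : ip (b - c) (a + b + c) = 0 := by
    simp only [ip, Pi.sub_apply, Pi.add_apply] at *
    linear_combination hb - hc + g0 - g2
  have e6 : ip ((2 : ℝ) • a - b - c) (a + b + c) = 0 := by
    simp only [ip, Pi.sub_apply, Pi.add_apply, Pi.smul_apply, smul_eq_mul] at *
    linear_combination 2 * ha - hb - hc + g0 - 2 * g1 + g2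
  refine ⟨?_, ?_, ?_, ?_, ?_, ?_⟩ <;> rw [ip_smul]
  · rw [e1]; linear_combination (-t / 2) * ht
  · rw [e2]; linear_combination (-t / 6 - 2 / 3) * ht
  · rw [e3]
    linear_combination ((2 * t + 3) ^ 2 * (2 * t - 3) / 9) * hh + (16 / 9 * t ^ 2 - 8 / 3) * ht
  · rw [e4, mul_zero]
  · rw [e5, mul_zero]
  · rw [e6, mul_zero]

theorem coords9 (ht : t ^ 2 = 3) (hh : h ^ 2 = 2 * t - 3) {P : ℕ → V}
    (b0 : P 3 = P 0 - (2 / 3 : ℝ) • (P 0 + P 1 + P 2))
    (b1 : P 4 = P 1 - (2 / 3 : ℝ) • (P 0 + P 1 + P 2))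
    (b2 : P 5 = P 2 - (2 / 3 : ℝ) • (P 0 + P 1 + P 2))
    (c0 : P 6 = ((t + 1) / 6) • (P 0 + P 1 - (2 : ℝ) • P 2))
    (c1 : P 7 = ((t + 1) / 6) • (P 1 + P 2 - (2 : ℝ) • P 0))
    (c2 : P 8 = ((t + 1) / 6) • (P 2 + P 0 - (2 : ℝ) • P 1)) (i : Fin 9) :
    P i = q9 t h i 0 • ((t + 1) / 6) • ((2 : ℝ) • P 0 - P 1 - P 2) +
      q9 t h i 1 • ((3 + t) / 6) • (P 1 - P 2) +
      q9 t h i 2 • (h * (2 * t + 3) / 9) • (P 0 + P 1 + P 2) := by
  have hinv : h * (h * (2 * t + 3) / 9) = 1 / 3 := by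
    linear_combination (2 * t + 3) / 9 * hh + 4 / 9 * ht
  funext j
  have b0 := congrFun b0 j
  have b1 := congrFun b1 j
  have b2 := congrFun b2 j
  have c0 := congrFun c0 j
  have c1 := congrFun c1 j
  have c2 := congrFun c2 j
  simp only [Pi.sub_apply, Pi.add_apply, Pi.smul_apply, smul_eq_mul] at *
  fin_cases i <;> simp only [q9, Fin.zero_eta, Fin.mk_one, Fin.reduceFinMk, Matrix.cons_val,
    Fin.isValue]
  · linear_combination (-(P 0 j + P 1 j + P 2 j)) * hinv - (2 * P 0 j - P 1 j - P 2 j) / 6 * ht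
  · linear_combination (-(P 0 j + P 1 j + P 2 j)) * hinv + (P 0 j - P 2 j) / 6 * ht
  · linear_combination (-(P 0 j + P 1 j + P 2 j)) * hinv + (P 0 j - P 1 j) / 6 * ht
  · linear_combination b0 + (P 0 j + P 1 j + P 2 j) * hinv - (2 * P 0 j - P 1 j - P 2 j) / 6 * ht
  · linear_combination b1 + (P 0 j + P 1 j + P 2 j) * hinv + (P 0 j - P 2 j) / 6 * ht
  · linear_combination b2 + (P 0 j + P 1 j + P 2 j) * hinv + (P 0 j - P 1 j) / 6 * ht
  · linear_combination c0 - (P 1 j - P 2 j) / 12 * ht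
  · linear_combination c1
  · linear_combination c2 + (P 1 j - P 2 j) / 12 * ht

theorem upper9 (ht : t ^ 2 = 3) (hh : h ^ 2 = 2 * t - 3) (t0 : 0 < t) (h0 : 0 < h)
    (p : Fin 9 → V) (hi : Function.Injective p) (hu : ∀ i, ip (p i) (p i) = 1) :
    (volume (convexHull ℝ (range p))).toReal ≤ 3 * h ∧
    (3 * h ≤ (volume (convexHull ℝ (range p))).toReal → ∃ e f g : V, ip e e = 1 ∧ ip f f = 1 ∧
      ip g g = 1 ∧ ip e f = 0 ∧ ip f g = 0 ∧ ip e g = 0 ∧
      range p = range fun i => q9 t h i 0 • e + q9 t h i 1 • f + q9 t h i 2 • g) := by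
  obtain ⟨pos, G⟩ := exists_good (by norm_num) p hu hi
  generalize (volume (convexHull ℝ (range p))).toReal = vol at *
  obtain ⟨p', pos', σ, k, hp, G', inj, hk, hT⟩ :=
    classify G (Fintype.card_fin 9) (by norm_num) enum9
  have t1 : 1.732 < t := by nlinarith
  have h1 : 0.68115 < h := by nlinarith
  rcases Nat.eq_zero_or_pos k with rfl | hk0
  swap
  · have := other9 G' inj hk0 hk hT
    push_cast at this
    exact ⟨by linarith, fun h => by linarith⟩
  have hv := obj_nonneg G' hT (by rw [tri9_zero]; simp) (by rw [tri9_zero]; decide)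
  rw [tri9_zero] at hv
  simp only [List.map_cons, List.map_nil, List.sum_cons, List.sum_nil] at hv
  have u := fun i => G'.unit (σ i)
  have hv' : 6 * vol ≤ phi9 (p' (σ 0)) (p' (σ 1)) (p' (σ 2)) (p' (σ 3)) (p' (σ 4)) (p' (σ 5))
      (p' (σ 6)) (p' (σ 7)) (p' (σ 8)) := by
    unfold phi9; linarith
  have hle := phi9_le ht hh t0 h0 (u 0) (u 1) (u 2) (u 3) (u 4) (u 5) (u 6) (u 7) (u 8)
  refine ⟨by linarith, fun he => ?_⟩
  obtain ⟨⟨g0, g1, g2⟩, ⟨b0, b1, b2⟩, c0, c1, c2⟩ :=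
    phi9_eq ht hh t0 h0 (u 0) (u 1) (u 2) (u 3) (u 4) (u 5) (u 6) (u 7) (u 8) (by linarith)
  have hs := surj_of_inj (σ := σ) (by simpa using inj)
  rw [Fintype.card_fin] at hs
  obtain ⟨s, s2, hs'⟩ : ∃ s : ℝ, s ^ 2 = 1 ∧ ∀ i, p i = s • p' i := by
    rcases hp with rfl | rfl
    · exact ⟨1, by norm_num, fun i => by simp⟩
    · exact ⟨-1, by norm_num, fun i => by simp⟩
  have key := coords9 ht hh (P := fun i => p' (σ i)) b0 b1 b2 c0 c1 c2
  obtain ⟨k1, k2, k3, k4, k5, k6⟩ := frame9 ht hh (u 0) (u 1) (u 2) g0 g1 g2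
  refine ⟨s • ((t + 1) / 6) • ((2 : ℝ) • p' (σ 0) - p' (σ 1) - p' (σ 2)),
    s • ((3 + t) / 6) • (p' (σ 1) - p' (σ 2)),
    s • (h * (2 * t + 3) / 9) • (p' (σ 0) + p' (σ 1) + p' (σ 2)), ?_, ?_, ?_, ?_, ?_, ?_, ?_⟩
  · rw [ip_smul, k1, ← sq, s2, mul_one]
  · rw [ip_smul, k2, ← sq, s2, mul_one]
  · rw [ip_smul, k3, ← sq, s2, mul_one]
  · rw [ip_smul, k4, mul_zero]
  · rw [ip_smul, k5, mul_zero]
  · rw [ip_smul, k6, mul_zero]
  have e : ∀ i : Fin 9, p (σ i) =
      q9 t h i 0 • s • ((t + 1) / 6) • ((2 : ℝ) • p' (σ 0) - p' (σ 1) - p' (σ 2)) +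
      q9 t h i 1 • s • ((3 + t) / 6) • (p' (σ 1) - p' (σ 2)) +
      q9 t h i 2 • s • (h * (2 * t + 3) / 9) • (p' (σ 0) + p' (σ 1) + p' (σ 2)) := by
    intro i
    rw [hs', key i, smul_add, smul_add, smul_comm s, smul_comm s (q9 t h i 1),
      smul_comm s (q9 t h i 2)]
  ext x
  constructor
  · rintro ⟨i, rfl⟩
    obtain ⟨c, hc, rfl⟩ := hs i
    exact ⟨⟨c, hc⟩, (e ⟨c, hc⟩).symm⟩
  · rintro ⟨i, rfl⟩
    exact ⟨σ i, e i⟩

theorem unit9 (ht : t ^ 2 = 3) (hh : h ^ 2 = 2 * t - 3) (i : Fin 9) :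
    ip (q9 t h i) (q9 t h i) = 1 := by
  fin_cases i <;> simp [q9, ip] <;> linarith

theorem T4_q9 (a b c d : Fin 9) : T4 (q9 t h a) (q9 t h b) (q9 t h c) (q9 t h d) =
    h * T4 (q9 t 1 a) (q9 t 1 b) (q9 t 1 c) (q9 t 1 d) := by
  have h0 : ∀ i, q9 t h i 0 = q9 t 1 i 0 := fun i => by fin_cases i <;> simp [q9]
  have h1 : ∀ i, q9 t h i 1 = q9 t 1 i 1 := fun i => by fin_cases i <;> simp [q9]
  have h2 : ∀ i, q9 t h i 2 = h * q9 t 1 i 2 := fun i => by fin_cases i <;> simp [q9]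
  simp only [T4, det3, Pi.sub_apply, h0, h1, h2]
  ring

theorem det3_q9 (a b c : Fin 9) : det3 (q9 t h a) (q9 t h b) (q9 t h c) =
    h * det3 (q9 t 1 a) (q9 t 1 b) (q9 t 1 c) := by
  have h0 : ∀ i, q9 t h i 0 = q9 t 1 i 0 := fun i => by fin_cases i <;> simp [q9]
  have h1 : ∀ i, q9 t h i 1 = q9 t 1 i 1 := fun i => by fin_cases i <;> simp [q9]
  have h2 : ∀ i, q9 t h i 2 = h * q9 t 1 i 2 := fun i => by fin_cases i <;> simp [q9]
  simp only [det3, h0, h1, h2]
  ring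

/-- The facets of the optimal configuration. -/
def s9 : List (Fin 9 × Fin 9 × Fin 9) := [(0, 1, 2), (3, 5, 4), (6, 3, 4), (6, 4, 1), (6, 1, 0), (6, 0, 3), (7, 4, 5), (7, 5, 2), (7, 2, 1), (7, 1, 4), (8, 5, 3), (8, 3, 0), (8, 0, 2), (8, 2, 5)]

theorem face9 (ht : t ^ 2 = 3) (t0 : 0 < t) (h0 : 0 < h) :
    ∀ f ∈ s9, Face (posq (q9 t h)) f.1 f.2.1 f.2.2 := by
  have t1 : 1.732 < t := by nlinarith
  have t2 : t < 1.7321 := by nlinarith
  intro f hf
  have hd : f.1 ≠ f.2.1 ∧ f.2.1 ≠ f.2.2 ∧ f.2.2 ≠ f.1 := by revert f; decide +kernel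
  refine ⟨hd.1, hd.2.1, hd.2.2, fun l l1 l2 l3 => ?_⟩
  rw [posq, T4_q9]
  refine mul_pos h0 ?_
  fin_cases hf <;> fin_cases l <;>
    first
    | exact absurd rfl l1
    | exact absurd rfl l2
    | exact absurd rfl l3
    | (simp [q9, T4, det3]; linarith)

theorem det9 (ht : t ^ 2 = 3) (t0 : 0 < t) (h0 : 0 < h) :
    ∀ f ∈ s9, 0 < det3 (q9 t h f.1) (q9 t h f.2.1) (q9 t h f.2.2) := by
  have t1 : 1.732 < t := by nlinarith
  have t2 : t < 1.7321 := by nlinarith
  intro f hf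
  rw [det3_q9]
  refine mul_pos h0 ?_
  fin_cases hf <;> (simp [q9, det3]; linarith)

theorem inj9 (ht : t ^ 2 = 3) (t0 : 0 < t) (h0 : 0 < h) : Function.Injective (q9 t h) := by
  intro a b e
  by_contra hne
  obtain ⟨f, hf, h1, h2⟩ : ∃ f ∈ s9, (a = f.1 ∨ a = f.2.1 ∨ a = f.2.2) ∧
      b ≠ f.1 ∧ b ≠ f.2.1 ∧ b ≠ f.2.2 := by
    clear e; revert a b; decide +kernel
  have := (face9 ht t0 h0 f hf).2.2.2 b h2.1 h2.2.1 h2.2.2
  rw [posq, ← e] at this
  rcases h1 with rfl | rfl | rfl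
  · rw [T4_self1] at this; exact lt_irrefl _ this
  · rw [T4_self2] at this; exact lt_irrefl _ this
  · rw [T4_self3] at this; exact lt_irrefl _ this

theorem interior9 (ht : t ^ 2 = 3) (hh : h ^ 2 = 2 * t - 3) (t0 : 0 < t) (h0 : 0 < h) :
    0 ∈ interior (convexHull ℝ (range ((toLp 2 : V → E3) ∘ q9 t h))) := by
  have t1 : 1.732 < t := by nlinarith
  have t2 : t < 1.7321 := by nlinarith
  have h1 : 0.68115 < h := by nlinarith
  have m : ∀ (w : Fin 9 → ℝ) (x : E3), (∀ i, 0 ≤ w i) → ∑ i, w i = 1 →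
      x = ∑ i, w i • ((toLp 2 : V → E3) ∘ q9 t h) i →
      x ∈ convexHull ℝ (range ((toLp 2 : V → E3) ∘ q9 t h)) := by
    rintro w x w0 w1 rfl
    exact (convex_convexHull ℝ _).sum_mem (fun i _ => w0 i) w1
      fun i _ => subset_convexHull _ _ (mem_range_self i)
  have hp : 0 < 6 * h := by positivity
  refine zero_mem_interior (convex_convexHull ℝ _) (ε := 1 / 2) (by norm_num) fun i => ?_
  fin_cases i
  · refine ⟨m ![0, 0, 0, 0, 0, 0, 1 / 2, 0, 1 / 2] _ ?_ ?_ ?_,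
      m ![0, 0, 0, 0, 0, 0, 1 / 6, 2 / 3, 1 / 6] _ ?_ ?_ ?_⟩
    · intro i; fin_cases i <;> simp
    · simp [Fin.sum_univ_succ]; norm_num
    · ext j; fin_cases j <;> simp [Fin.sum_univ_succ, q9] <;> ring
    · intro i; fin_cases i <;> simp <;> norm_num
    · simp [Fin.sum_univ_succ]; norm_num
    · ext j; fin_cases j <;> simp [Fin.sum_univ_succ, q9] <;> ring
  · refine ⟨m ![0, 0, 0, 0, 0, 0, 1 / 3 + t / 6, 1 / 3, 1 / 3 - t / 6] _ ?_ ?_ ?_,
      m ![0, 0, 0, 0, 0, 0, 1 / 3 - t / 6, 1 / 3, 1 / 3 + t / 6] _ ?_ ?_ ?_⟩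
    · intro i; fin_cases i <;> simp <;> linarith
    · simp [Fin.sum_univ_succ]; ring
    · ext j; fin_cases j <;> simp [Fin.sum_univ_succ, q9] <;> linarith
    · intro i; fin_cases i <;> simp <;> linarith
    · simp [Fin.sum_univ_succ]; ring
    · ext j; fin_cases j <;> simp [Fin.sum_univ_succ, q9] <;> linarith
  · have a1 : 0 ≤ (h + 1 / 2) / (6 * h) := by positivity
    have a2 : 0 ≤ (h - 1 / 2) / (6 * h) := div_nonneg (by linarith) hp.le
    have a3 : 3 * ((h + 1 / 2) / (6 * h)) + 3 * ((h - 1 / 2) / (6 * h)) = 1 := by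
      field_simp; ring
    have a4 : 3 * ((h + 1 / 2) / (6 * h)) * h - 3 * ((h - 1 / 2) / (6 * h)) * h = 1 / 2 := by
      field_simp; ring
    generalize (h + 1 / 2) / (6 * h) = x at *
    generalize (h - 1 / 2) / (6 * h) = y at *
    refine ⟨m ![x, x, x, y, y, y, 0, 0, 0] _ ?_ ?_ ?_, m ![y, y, y, x, x, x, 0, 0, 0] _ ?_ ?_ ?_⟩
    · intro i; fin_cases i <;> simp <;> assumption
    · simp [Fin.sum_univ_succ]; linarith
    · ext j; fin_cases j <;> simp [Fin.sum_univ_succ, q9] <;> linarith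
    · intro i; fin_cases i <;> simp <;> assumption
    · simp [Fin.sum_univ_succ]; linarith
    · ext j; fin_cases j <;> simp [Fin.sum_univ_succ, q9] <;> linarith

theorem lower9 (ht : t ^ 2 = 3) (t0 : 0 < t) (h0 : 0 < h) :
    ENNReal.ofReal (3 * h) ≤ volume (convexHull ℝ (range (q9 t h))) := by
  have z : (0 : V) ∈ convexHull ℝ (range (q9 t h)) := by
    have := (convex_convexHull ℝ (range (q9 t h))).sum_mem (t := Finset.univ)
      (w := ![0, 0, 0, 0, 0, 0, 1 / 3, 1 / 3, 1 / 3]) (z := q9 t h)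
      (fun i _ => by fin_cases i <;> simp) (by simp [Fin.sum_univ_succ]; norm_num)
      fun i _ => subset_convexHull _ _ (mem_range_self i)
    convert this using 1
    ext j; fin_cases j <;> simp [Fin.sum_univ_succ, q9] <;> ring
  have := vol_ge_of_faces (q9 t h) _ (convex_convexHull ℝ _) z
    (fun i => subset_convexHull _ _ (mem_range_self i)) s9.toFinset
    (fun f hf => face9 ht t0 h0 f (List.mem_toFinset.mp hf))
    (fun f hf => det9 ht t0 h0 f (List.mem_toFinset.mp hf)) (by decide +kernel)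
  rw [List.sum_toFinset _ (by decide +kernel)] at this
  refine le_of_eq_of_le ?_ this
  congr 1
  simp [s9, q9, det3]
  linear_combination (-(h / 2)) * ht

theorem main9 (ht : t ^ 2 = 3) (hh : h ^ 2 = 2 * t - 3) (t0 : 0 < t) (h0 : 0 < h) :
    (∀ P, IsMaxVol 9 P ↔
      ∃ φ : E3 ≃ₗᵢ[ℝ] E3, P = φ '' convexHull ℝ (range ((toLp 2 : V → E3) ∘ q9 t h))) ∧
    volume (convexHull ℝ (range ((toLp 2 : V → E3) ∘ q9 t h))) = ENNReal.ofReal (3 * h) :=
  isMaxVol_iff (q9 t h) (unit9 ht hh) (inj9 ht t0 h0) (interior9 ht hh t0 h0) (by positivity)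
    (lower9 ht t0 h0) (upper9 ht hh t0 h0)

end

end Pool.Agent.MP_2ab689_gt
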