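import Pool.Agent.MP_2ab689_gt.Limit

/-!
The table of triangulations of the sphere with 9 vertices.
-/

namespace Pool.Agent.MP_2ab689_gt

/-- Encoded table. -/
def tab9 : ℕ := 0x210520130350431241642562753873483684765786210420130540350231632452762872582753673785210520130350431241542653763473874584685786210420130340231532452643863573783654675876210420130340231532452643563754674865785876210420130340231532652462743573764875685786210420130340231532452643563754874684765786210420130340231532452643563754874684865785210420130340231532452643863573783654875685210420130540350231632452862582753673785876210420130340231532452643763573854684875786210420130340231532852462682643763573875786210420130340231532752462872682643563765786210420130540350231632452862582753673765685210420130340231532452643763573854684865675210420130340231532852462682643763573865675210420130740350570231632762472853683875786210420130340231532852462682743873583864784210420130340231532852462682743873583764786210420130340231532652462743573864784675876210420130540350231632462753673864584765685210420130340231532452643763573754874684786210420130340231532652462743573864784875685210420130340231532452643763573854674784875210420130340231532652462743563873683764786210420130340231532652462743563873683864784210420130340231532852462682743563673764865210420130340231532652462743563673864784876210420130340231532852462682743573754564865210420130740350570231632462853683754564865210420130340231532452643863573783754674876210420130740350570231632462853683764875786210420130340231532452643863573783854684875210420130740350570231632462753873683764786210420130340231532852462682743573764865675210420130540350231632462753673864584785876210420130340231532852462682743573864784875210420130540350231632462753873683764574786210420130340231532852462672782743873583764210420130540350231632462753673764874584785210420130340231532752462672643863573783876210420130740350570231632462853683764865675210420130340231532452643863573783754874684210420130740350570231632462753873683864784210520130350431241642562753473874684865785210420130340231532852462682743573764875786210420130540350231632462753873683864574784210420130340231532752462872682643863573783210520130350431241642862572782753463873683210453436146016306547257127417358038208528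

/-- The triangulations with 9 vertices. -/
noncomputable def tri9 (t : ℕ) : List (ℕ × ℕ × ℕ) := tri 14 tab9 t

end Pool.Agent.MP_2ab689_gt
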